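import Pool.Agent.Work.MP_678620_nt.TAFin

/-! Tuples of sums of two squares, part one: the needed parts of U/S and V/C to V/J in one file. -/

set_option autoImplicit false

namespace Pool.Agent.Work.MP_678620_nt.TA

section
open Finset Filter Topology
open Classical

lemma dn_mul {M k : ℕ} (hM : M ≠ 0) (hk : k ≠ 0) {P : ℤ → Prop} (h : Per M P) :
    dn (M * k) P = dn M P := by
  have e : ∀ j : ℕ, ∑ a ∈ range (M * j), ind (P a) = j * ∑ a ∈ range M, ind (P a) := by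
    intro j
    induction j with
    | zero => simp
    | succ j ih =>
      rw [Nat.mul_succ, sum_range_add, ih, Nat.cast_succ, add_mul, one_mul]
      congr 1
      refine sum_congr rfl fun a _ => ?_
      rw [propext (show P ((M * j + a : ℕ) : ℤ) ↔ P a from
        ⟨h _ _ ⟨-j, by push_cast; ring⟩, h _ _ ⟨j, by push_cast; ring⟩⟩)]
  have k0 : (k : ℝ) ≠ 0 := by exact_mod_cast hk
  have M0 : (M : ℝ) ≠ 0 := by exact_mod_cast hM
  rw [dn, dn, e]
  push_cast
  field_simp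

lemma Loc.of_dvd {M M' : ℕ} (d : M ∣ M') {a : ℤ} (h : Loc M' a) : Loc M a :=
  let ⟨u, v, e⟩ := h
  ⟨u, v, (Int.natCast_dvd_natCast.2 d).trans e⟩

/-- a local sum of two squares of small valuation stays one to every higher power -/
lemma loc_up {p α : ℕ} (β : ℕ) (hp : p.Prime) {a : ℤ} (h : Loc (p ^ (α + 2)) a)
    (hd : ¬ ((p ^ (α + 1) : ℕ) : ℤ) ∣ a) : Loc (p ^ β) a := by
  obtain ⟨u, v, c, e⟩ := h
  have t0 : 0 ≤ u ^ 2 + v ^ 2 := by positivity
  obtain ⟨t, ht⟩ := Int.eq_ofNat_of_zero_le t0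
  have hd' : ¬ p ^ (α + 1) ∣ t := fun d => hd (by
    have : a = (t : ℤ) + ((p ^ (α + 1) : ℕ) : ℤ) * (p * c) := by
      rw [← ht]; push_cast at e ⊢; linear_combination e
    rw [this]
    exact dvd_add (Int.natCast_dvd_natCast.2 d) (dvd_mul_right _ _))
  have t1 : t ≠ 0 := by rintro rfl; exact hd' (dvd_zero _)
  have e1 := Nat.ordProj_mul_ordCompl_eq_self t p
  have e2 := Nat.not_dvd_ordCompl hp t1
  have e3 : t.factorization p ≤ α := by
    rw [hp.pow_dvd_iff_le_factorization t1] at hd'; omega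
  have st : S2 t := ⟨u, v, ht.symm⟩
  have ev := s2_iff.1 st p hp
  generalize t / p ^ t.factorization p = s at e1 e2
  generalize t.factorization p = j at e1 e3 ev
  obtain ⟨i, rfl⟩ := Nat.exists_eq_add_of_le e3
  subst e1
  have ea : a = (p : ℤ) ^ j * (s + p ^ 2 * (p ^ i * c)) := by
    rw [ht] at e; push_cast at e; linear_combination e
  have nd : ¬ (p : ℤ) ∣ s + p ^ 2 * (p ^ i * c) := fun d =>
    e2 (Int.natCast_dvd_natCast.1 ((dvd_add_left ((dvd_pow_self _ two_ne_zero).mul_right _)).1 d))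
  have pw : ∀ {x : ℤ}, S2 x → ∀ n : ℕ, S2 (x ^ n) := fun {x} hx n => by
    induction n with
    | zero => exact ⟨1, 0, by simp⟩
    | succ n ih => rw [pow_succ]; exact ih.mul hx
  rw [ea]
  by_cases h2 : p = 2
  · subst h2
    have g1 : (s : ℤ) % 4 = 1 := (S2.half j (by exact_mod_cast st)).mod (by omega)
    refine (pw ⟨1, 1, by norm_num⟩ j).mul_loc (loc_of (by positivity) ?_ (by push_cast; omega))
    rw [Nat.cast_pow]
    exact ((Nat.prime_iff_prime_int.1 hp).coprime_iff_not_dvd.2 nd).symm.pow_right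
  · refine S2.mul_loc ?_ (loc_odd hp h2 nd)
    by_cases h4 : p % 4 = 1
    · exact pw (s2_prime hp h4) j
    · obtain ⟨m, rfl⟩ := ev (by have := hp.eq_two_or_odd; omega)
      exact ⟨p ^ m, 0, by ring⟩

lemma dn_ex (M : ℕ) (H : Finset ℤ) (P : ℤ → ℤ → Prop) :
    dn M (fun a => ∃ h ∈ H, P h a) ≤ ∑ h ∈ H, dn M (P h) := by
  simp only [dn]
  rw [← sum_div, sum_comm]
  exact div_le_div_of_nonneg_right (sum_le_sum fun a _ => ind_ex _ _) M.cast_nonneg

lemma den_up (H : Finset ℤ) {p α β : ℕ} (hp : p.Prime) (h : α + 2 ≤ β) :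
    den H (p ^ β) ≤ den H (p ^ (α + 2)) ∧
      den H (p ^ (α + 2)) ≤ den H (p ^ β) + H.card * ((p : ℝ) ^ (α + 1))⁻¹ := by
  obtain ⟨i, rfl⟩ := Nat.exists_eq_add_of_le h
  have n0 : ∀ n, p ^ n ≠ 0 := fun n => pow_ne_zero _ hp.ne_zero
  have e : den H (p ^ (α + 2)) = dn (p ^ (α + 2 + i)) fun a => ∀ h ∈ H, Loc (p ^ (α + 2)) (a + h) := by
    rw [pow_add p (α + 2) i, dn_mul (n0 _) (n0 _) (per_den H _)]; rfl
  rw [e]
  refine ⟨dn_mono fun a ha h hh => (ha h hh).of_dvd (pow_dvd_pow p (by omega)), ?_⟩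
  have e1 := dn_or (p ^ (α + 2 + i)) (fun a => ∀ h ∈ H, Loc (p ^ (α + 2 + i)) (a + h))
    fun a => ∃ h ∈ H, ((p ^ (α + 1) : ℕ) : ℤ) ∣ a + h
  have e2 := dn_nonneg (p ^ (α + 2 + i)) fun a => (∀ h ∈ H, Loc (p ^ (α + 2 + i)) (a + h)) ∧
    ∃ h ∈ H, ((p ^ (α + 1) : ℕ) : ℤ) ∣ a + h
  have e3 := dn_ex (p ^ (α + 2 + i)) H fun h a => ((p ^ (α + 1) : ℕ) : ℤ) ∣ a + h
  rw [sum_congr rfl fun h _ => dn_dvd (n0 _) (pow_dvd_pow p (by omega)) h, sum_const,
    nsmul_eq_mul, Nat.cast_pow (α := ℝ)] at e3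
  have e4 := dn_mono (M := p ^ (α + 2 + i)) (P := fun a => ∀ h ∈ H, Loc (p ^ (α + 2)) (a + h))
    (Q := fun a => (∀ h ∈ H, Loc (p ^ (α + 2 + i)) (a + h)) ∨
      ∃ h ∈ H, ((p ^ (α + 1) : ℕ) : ℤ) ∣ a + h) fun a ha => by
      by_contra c
      push Not at c
      obtain ⟨⟨h, hh, c1⟩, c2⟩ := c
      exact c1 (loc_up _ hp (ha h hh) (c2 h hh))
  unfold den
  linarith

lemma den_lim (H : Finset ℤ) {p α : ℕ} (hp : p.Prime) {d : ℝ}
    (t : Tendsto (fun β => den H (p ^ β)) atTop (𝓝 d)) :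
    d ≤ den H (p ^ (α + 2)) ∧ den H (p ^ (α + 2)) ≤ d + H.card * ((p : ℝ) ^ (α + 1))⁻¹ :=
  ⟨le_of_tendsto t ((eventually_ge_atTop _).mono fun _ h => (den_up H hp h).1),
    ge_of_tendsto (t.add_const _) ((eventually_ge_atTop _).mono fun _ h => (den_up H hp h).2)⟩

lemma loc_two (α : ℕ) {a : ℤ} (h : a % 4 = 1 ∨ a % 8 = 2 ∨ a % 16 = 4) : Loc (2 ^ α) a := by
  have k : ∀ b : ℤ, b % 4 = 1 → Loc (2 ^ α) b := fun b hb => loc_of (by positivity) (by
    push_cast
    exact IsCoprime.pow_right ⟨1, -(b / 2), by omega⟩) hb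
  rcases h with h | h | h
  · exact k a h
  · rw [show a = 2 * (a / 2) by omega]
    exact S2.mul_loc ⟨1, 1, by norm_num⟩ (k _ (by omega))
  · rw [show a = 4 * (a / 4) by omega]
    exact S2.mul_loc ⟨2, 0, by norm_num⟩ (k _ (by omega))

lemma den_pair_ge {p α : ℕ} (hp : p.Prime) (hα : 4 ≤ α) (h : ℤ) : 1 / 16 ≤ den {0, h} (p ^ α) := by
  by_cases h2 : p = 2
  · subst h2
    obtain ⟨c, hc⟩ : ∃ c : ℤ, ∀ a : ℤ, 16 ∣ a + c → (a % 4 = 1 ∨ a % 8 = 2 ∨ a % 16 = 4) ∧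
        ((a + h) % 4 = 1 ∨ (a + h) % 8 = 2 ∨ (a + h) % 16 = 4) := by
      have : h % 4 = 0 ∨ h % 4 = 1 ∨ h % 4 = 3 ∨ h % 8 = 2 ∨ h % 8 = 6 := by omega
      rcases this with e | e | e | e | e
      · exact ⟨-1, fun a ha => by omega⟩
      · exact ⟨-4, fun a ha => by omega⟩
      · exact ⟨-2, fun a ha => by omega⟩
      · exact ⟨h - 4, fun a ha => by omega⟩
      · exact ⟨-4, fun a ha => by omega⟩
    have := dn_dvd (pow_ne_zero α two_ne_zero) (pow_dvd_pow 2 hα) c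
    norm_num at this
    rw [← this]
    refine dn_mono fun a ha h' hh => ?_
    rcases mem_insert.1 hh with rfl | hh
    · rw [add_zero]; exact loc_two _ (hc a ha).1
    · rw [mem_singleton.1 hh]; exact loc_two _ (hc a ha).2
  · have := one_sub_den {0, h} hp h2 (α := α) (by omega)
    have h3 : (3 : ℝ) ≤ p := by have := hp.two_le; exact_mod_cast (by omega : 3 ≤ p)
    have c : ((card ({0, h} : Finset ℤ) : ℕ) : ℝ) ≤ 2 := by exact_mod_cast card_le_two
    have : ((card ({0, h} : Finset ℤ) : ℕ) : ℝ) / p ≤ 2 / 3 := by gcongr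
    linarith

lemma den_le_one (H : Finset ℤ) {p : ℕ} (hp : p.Prime) (α : ℕ) : den H (p ^ α) ≤ 1 :=
  dn_le (pow_ne_zero α hp.ne_zero) _

lemma den_pair_ge' {p : ℕ} (hp : p.Prime) (α : ℕ) (h : ℤ) :
    2 * den {0} (p ^ α) - 1 ≤ den {0, h} (p ^ α) := by
  have hM := pow_ne_zero α hp.ne_zero
  have e := dn_or (p ^ α) (Loc (p ^ α)) fun a => Loc (p ^ α) (a + h)
  have e' := dn_le hM fun a => Loc (p ^ α) a ∨ Loc (p ^ α) (a + h)
  rw [dn_shift hM (per_loc _)] at e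
  rw [den, den, dn_congr (P := fun a => ∀ h' ∈ ({0, h} : Finset ℤ), _)
    (Q := fun a => Loc (p ^ α) a ∧ Loc (p ^ α) (a + h)) (by simp),
    dn_congr (P := fun a => ∀ h ∈ ({0} : Finset ℤ), _) (Q := Loc (p ^ α)) (by simp)]
  linarith

lemma gen_fac {d e : ℝ} (h0 : 1 / 4 ≤ d) (h1 : d ≤ 1) (he : 1 - d ≤ e) :
    |(2 * d - 1) / d ^ 2 - 1| ≤ 16 * e ^ 2 := by
  have d0 : 0 < d := by linarith
  rw [show (2 * d - 1) / d ^ 2 - 1 = -((1 - d) ^ 2 / d ^ 2) by field_simp; ring, abs_neg,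
    abs_of_nonneg (by positivity), div_le_iff₀ (by positivity)]
  have e1 : (1 - d) ^ 2 ≤ e ^ 2 := pow_le_pow_left₀ (by linarith) he 2
  have e2 : 1 ≤ 16 * d ^ 2 := by nlinarith
  nlinarith [sq_nonneg e]

lemma one_sub_sum_le {ι : Type*} (s : Finset ι) (x : ι → ℝ) (h0 : ∀ i ∈ s, 0 ≤ x i)
    (h1 : ∀ i ∈ s, x i ≤ 1) : 1 - ∑ i ∈ s, x i ≤ ∏ i ∈ s, (1 - x i) := by
  induction s using Finset.induction_on with
  | empty => simp
  | insert a s ha ih =>
    rw [sum_insert ha, prod_insert ha]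
    have a1 := ih (fun i hi => h0 i (mem_insert_of_mem hi)) fun i hi => h1 i (mem_insert_of_mem hi)
    have a2 := h0 a (mem_insert_self _ _)
    have a3 := h1 a (mem_insert_self _ _)
    have a4 : 0 ≤ ∑ i ∈ s, x i := sum_nonneg fun i hi => h0 i (mem_insert_of_mem hi)
    nlinarith [mul_le_mul_of_nonneg_left a1 (sub_nonneg.mpr a3), mul_nonneg a2 a4]

/-- the truncated singular series is bounded below, uniformly in the shift -/
theorem trunc_ge (z : ℝ) {α : ℕ} (hα : 4 ≤ α) (h : ℤ) :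
    (1 / 16) ^ 33 * (1 / 2) ≤ PH {0, h} z α / PH {0} z α ^ 2 := by
  rw [PH, PH, ← prod_pow, ← prod_div_distrib, ← prod_filter_mul_prod_filter_not _ (· ≤ 32)]
  have pr : ∀ p ∈ PP z, p.Prime := fun p hp => (mem_filter.1 hp).2.1
  have a : ((1 : ℝ) / 16) ^ 33 ≤ ∏ p ∈ PP z with p ≤ 32, den {0, h} (p ^ α) / den {0} (p ^ α) ^ 2 := by
    refine le_trans ?_ (prod_le_prod (f := fun _ => 1 / 16) (fun _ _ => by norm_num) fun p hp => ?_)
    · rw [prod_const]
      refine pow_le_pow_of_le_one (by norm_num) (by norm_num) ?_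
      exact (card_le_card (t := range 33) fun p hp =>
        mem_range.2 (by have := (mem_filter.1 hp).2; omega)).trans (by simp)
    · have q := pr p (mem_filter.1 hp).1
      have b0 := den_zero q (α := α) (by omega)
      have b1 := den_le_one {0} q α
      have b2 := den_pair_ge q hα h
      rw [le_div_iff₀ (by positivity)]
      nlinarith
  refine mul_le_mul a ?_ (by norm_num) (le_trans (by positivity) a)
  have c : ∀ p ∈ (PP z).filter (fun p => ¬ p ≤ 32), 0 ≤ 16 * ((p : ℝ) ^ 2)⁻¹ ∧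
      16 * ((p : ℝ) ^ 2)⁻¹ ≤ 1 := fun p hp => by
    have : (32 : ℝ) ≤ p := by exact_mod_cast (not_le.1 (mem_filter.1 hp).2).le
    refine ⟨by positivity, ?_⟩
    rw [← div_eq_mul_inv, div_le_one (by positivity)]
    nlinarith
  refine le_trans ?_ ((one_sub_sum_le _ _ (fun p hp => (c p hp).1) fun p hp => (c p hp).2).trans
    (prod_le_prod (fun p hp => sub_nonneg.2 (c p hp).2) fun p hp => ?_))
  · rw [← mul_sum]
    have s1 : ∑ p ∈ (PP z).filter (fun p => ¬ p ≤ 32), ((p : ℝ) ^ 2)⁻¹ ≤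
        ∑ p ∈ Ioc 32 (⌊z⌋₊ + 32), ((p : ℝ) ^ 2)⁻¹ :=
      sum_le_sum_of_subset_of_nonneg (fun p hp => by
        have a := (mem_filter.1 hp).2
        have b := (mem_Icc.1 (mem_filter.1 (mem_filter.1 hp).1).1).2
        rw [mem_Ioc]; omega) fun _ _ _ => by positivity
    have s2 := sum_Ioc_inv_sq_le_sub (α := ℝ) (k := 32) (n := ⌊z⌋₊ + 32) (by norm_num) (by omega)
    have s3 : (0 : ℝ) ≤ (((⌊z⌋₊ + 32 : ℕ) : ℝ))⁻¹ := by positivity
    rw [show ((32 : ℕ) : ℝ)⁻¹ = 1 / 32 by norm_num] at s2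
    linarith
  · have q := pr p (mem_filter.1 hp).1
    have h2 : p ≠ 2 := by have := (mem_filter.1 hp).2; omega
    have b0 := den_zero q (α := α) (by omega)
    have e := one_sub_den {0} q h2 (α := α) (by omega)
    rw [card_singleton, Nat.cast_one, one_div] at e
    have g := (abs_le.1 (gen_fac b0 (den_le_one {0} q α) e)).1
    rw [inv_pow] at g
    have := div_le_div_of_nonneg_right (den_pair_ge' q α h) (sq_nonneg (den {0} (p ^ α)))
    linarith

end

section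
open Finset Filter Topology Real
open Classical

/-- the exponent of the local conditions -/
noncomputable def alp (A X : ℕ) : ℕ := ⌈2 * (A + 1) * log (log X)⌉₊ + 3

lemma one_sub_dJ (J : Finset ℤ) {p α : ℕ} (hp : p.Prime) (hα : α ≠ 0) :
    1 - dn (p ^ α) (fun a => ∀ c ∈ J, ¬ (p : ℤ) ∣ a + c) ≤ J.card * (p : ℝ)⁻¹ := by
  have hM := pow_ne_zero α hp.ne_zero
  have e := dn_ex (p ^ α) J fun c a => (p : ℤ) ∣ a + c
  rw [sum_congr rfl fun c _ => dn_dvd hM (dvd_pow_self p hα) c, sum_const, nsmul_eq_mul] at e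
  rw [← dn_not hM]
  exact (dn_congr fun a => by simp).le.trans e

/-- events that force divisibility by `p` at shifts distinct modulo `p` are disjoint -/
lemma dn_disj {M p : ℕ} (J : Finset ℤ) (P : ℤ → Prop) (hP : ∀ a, P a → (p : ℤ) ∣ a)
    (hJ : ∀ c ∈ J, ∀ c' ∈ J, (p : ℤ) ∣ c - c' → c = c') :
    dn M (fun a => ∃ c ∈ J, P (a + c)) = ∑ c ∈ J, dn M fun a => P (a + c) := by
  simp only [dn]
  rw [← sum_div, sum_comm]
  congr 1
  refine sum_congr rfl fun a _ => ?_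
  by_cases e : ∃ c ∈ J, P (a + c)
  · obtain ⟨c, hc, h⟩ := e
    rw [ind_pos ⟨c, hc, h⟩, sum_eq_single_of_mem c hc fun c' hc' n => ind_neg fun h' =>
      n (hJ c' hc' c hc (by simpa using dvd_sub (hP _ h') (hP _ h))), ind_pos h]
  · rw [ind_neg e, sum_eq_zero fun c hc => ind_neg fun h => e ⟨c, hc, h⟩]

lemma dJ_eq (J : Finset ℤ) {p α : ℕ} (hp : p.Prime) (hα : α ≠ 0)
    (hJ : ∀ c ∈ J, ∀ c' ∈ J, (p : ℤ) ∣ c - c' → c = c') :
    dn (p ^ α) (fun a => ∀ c ∈ J, ¬ (p : ℤ) ∣ a + c) = 1 - J.card * (p : ℝ)⁻¹ := by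
  have hM := pow_ne_zero α hp.ne_zero
  have e := dn_disj (M := p ^ α) J (fun a => (p : ℤ) ∣ a) (fun _ h => h) hJ
  rw [sum_congr rfl fun c _ => dn_dvd hM (dvd_pow_self p hα) c, sum_const, nsmul_eq_mul] at e
  rw [← e, ← dn_not hM]
  exact dn_congr fun a => by simp

theorem bad_countV (A : ℕ) :
    ∀ᶠ X : ℕ in atTop, cu X (Bad (zz X) (YY X) (alp A X)) ≤ X / log X ^ A := by
  filter_upwards [sum_inv_le (a := 24 / 25) (by norm_num), tll.eventually_ge_atTop 72,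
    tl.eventually_ge_atTop 12, (trp (a := 24 / 25) (by norm_num)).eventually_ge_atTop 1,
    ev_le (4 * (A + 9)) 1 (show (0 : ℝ) < 1 / 50 by norm_num),
    ev_le (A + 1) 1 (show (0 : ℝ) < 24 / 25 by norm_num)] with X h1 h2 h3 h4 h5 h6
  have l0 : 0 < log X := lt_of_lt_of_le (by norm_num) h3
  rw [rpow_zero, pow_one, mul_one] at h5 h6
  have z0 : 0 < zz X := exp_pos _
  have e6 := exp_neg_ll l0 (A + 1)
  have X0 : (0 : ℝ) ≤ 3 * X := by positivity
  have b1 : cu X (fun n => ∃ s : ℕ, (s : ℤ) ∣ n ∧ Smo (zz X) s ∧ YY X < s) ≤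
      3 * X * (1 / log X ^ (A + 1)) := by
    refine (cu_ex X ((Icc 1 (3 * X)).filter fun s => Smo (zz X) s ∧ YY X < s) id ?_).trans
      (mul_le_mul_of_nonneg_left ((rankin (by rwa [zz, log_exp]) z0 (exp_pos _) _
        fun s hs => (mem_filter.1 hs).2).trans ?_) X0)
    · rintro n a b ⟨s, c, d⟩
      refine ⟨s, mem_filter.2 ⟨mem_Icc.2 ⟨?_, ?_⟩, d⟩, c⟩
      · exact Nat.pos_of_ne_zero (by rintro rfl; simp at c; omega)
      · have := Int.le_of_dvd a c
        omega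
    · have := h1 (⌊zz X⌋₊ + 1).primesBelow fun p hp => ⟨(Nat.mem_primesBelow.1 hp).2,
        (Nat.le_floor_iff z0.le).1 (Nat.le_of_lt_succ (Nat.mem_primesBelow.1 hp).1)⟩
      have e : log X ^ (49 / 50 : ℝ) / (4 * log X ^ (24 / 25 : ℝ)) = log X ^ (1 / 50 : ℝ) / 4 := by
        rw [show (49 / 50 : ℝ) = 1 / 50 + 24 / 25 by norm_num, rpow_add l0]
        field_simp
      rw [← e6, log_exp, zz, log_exp, e]
      gcongr
      push_cast
      rw [zz] at this
      linarith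
  have b2 : cu X (fun n => ∃ d : ℕ, zz X < d ∧ (d : ℤ) ^ 2 ∣ n) ≤ 3 * X * (2 / log X ^ (A + 1)) := by
    refine (cu_ex X (Ioo ⌊zz X⌋₊ (3 * X + 1)) (· ^ 2) ?_).trans
      (mul_le_mul_of_nonneg_left ?_ X0)
    · rintro n a b ⟨d, c, e⟩
      refine ⟨d, mem_Ioo.2 ⟨(Nat.floor_lt z0.le).2 c, ?_⟩, by exact_mod_cast e⟩
      have := Int.le_of_dvd a ((dvd_pow_self _ two_ne_zero).trans e)
      omega
    · push_cast
      refine (sum_Ioo_inv_sq_le _ _).trans ?_
      gcongr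
      refine le_trans ?_ (Nat.lt_floor_add_one _).le
      rw [← exp_log (pow_pos l0 (A + 1)), log_pow, zz]
      gcongr
      exact_mod_cast h6
  have b3 : cu X (fun n => ∃ d : ℕ, 2 ≤ d ∧ (d : ℤ) ^ (alp A X - 1) ∣ n) ≤
      3 * X * (1 / log X ^ (A + 1)) := by
    refine (cu_ex X (Ioo 1 (3 * X + 1)) (· ^ (alp A X - 1)) ?_).trans
      (mul_le_mul_of_nonneg_left ?_ X0)
    · rintro n a b ⟨d, c, e⟩
      refine ⟨d, mem_Ioo.2 ⟨c, ?_⟩, by exact_mod_cast e⟩
      have := Int.le_of_dvd a ((dvd_pow_self _ (Nat.succ_ne_zero _)).trans e)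
      omega
    · refine (sum_le_sum (g := fun d : ℕ => 1 / log X ^ (A + 1) * ((d : ℝ) ^ 2)⁻¹) fun d hd => ?_).trans ?_
      · have d2 : (2 : ℝ) ≤ d := by exact_mod_cast (mem_Ioo.1 hd).1
        rw [show alp A X - 1 = ⌈2 * (A + 1) * log (log X)⌉₊ + 2 from rfl, Nat.cast_pow, pow_add, mul_inv,
          one_div]
        gcongr
        refine le_trans ?_ (pow_le_pow_left₀ (by norm_num) d2 _)
        rw [← exp_log (pow_pos l0 (A + 1)), log_pow, ← exp_log (pow_pos two_pos _), log_pow, exp_le_exp]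
        have := Nat.le_ceil (2 * (A + 1) * log (log X))
        push_cast
        have : 0 ≤ ((A : ℝ) + 1) * log (log X) := by positivity
        nlinarith [log_two_gt_d9]
      · rw [← mul_sum]
        exact mul_le_of_le_one_right (by positivity) ((sum_Ioo_inv_sq_le _ _).trans (by norm_num))
  refine (sum_le_sum fun n _ => (ind_or_le _ _).trans (add_le_add_right (ind_or_le _ _) _)).trans ?_
  rw [sum_add_distrib, sum_add_distrib]
  refine (add_le_add b1 (add_le_add b2 b3)).trans ?_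
  rw [show 3 * X * (1 / log X ^ (A + 1)) + (3 * X * (2 / log X ^ (A + 1)) + 3 * X * (1 / log X ^ (A + 1)))
    = X / log X ^ A * (12 / log X) by field_simp; ring]
  exact mul_le_of_le_one_right (by positivity) ((div_le_one l0).2 h3)

theorem big_countV (A : ℕ) : ∀ᶠ X : ℕ in atTop,
    cu X (fun n => (A + 5) * log (log X) < wE (EE X) n) ≤ X / log X ^ A := by
  filter_upwards [sum_inv_le (a := 1 / 4) (by norm_num), tll.eventually_ge_atTop 72,
    tl.eventually_ge_atTop 3] with X h1 h2 h3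
  have l0 : 0 < log X := lt_of_lt_of_le (by norm_num) h3
  have l1 : 0 < log (log X) := by linarith
  have hE : ∀ p ∈ EE X, p.Prime ∧ (p : ℝ) ≤ exp (log X ^ (1 / 4 : ℝ)) := fun p hp =>
    ⟨(mem_filter.1 hp).2.1, (Nat.le_floor_iff (exp_pos _).le).1 (mem_Icc.1 (mem_filter.1 hp).1).2⟩
  refine (cu_ex X ((EE X).powersetCard (⌊(A + 5) * log (log X)⌋₊ + 1)) (fun S => ∏ p ∈ S, p)
    fun n _ _ c => ?_).trans ?_
  · obtain ⟨S, a, b⟩ := exists_subset_card_eq ((Nat.floor_lt (by positivity)).2 c)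
    refine ⟨S, mem_powersetCard.2 ⟨a.trans (filter_subset _ _), b⟩, ?_⟩
    push_cast
    refine prod_dvd_of_coprime (fun p hp q hq e => Nat.isCoprime_iff_coprime.2
      ((Nat.coprime_primes (hE p (mem_filter.1 (a hp)).1).1 (hE q (mem_filter.1 (a hq)).1).1).2 e))
      fun p hp => (mem_filter.1 (a hp)).2
  · have := (esym_le_pow (I := EE X) (ν := fun p : ℕ => (p : ℝ)⁻¹) (fun _ _ => by positivity)
      (⌊(A + 5) * log (log X)⌋₊ + 1)).trans (pow_fact_le (sum_nonneg fun _ _ => by positivity) _)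
    simp only [Nat.cast_prod, ← prod_inv_distrib]
    refine (mul_le_mul_of_nonneg_left (this.trans (?_ : _ ≤ 1 / log X ^ (A + 1))) (by positivity)).trans ?_
    · rw [← exp_neg_ll l0]
      have := h1 _ hE
      have := Nat.lt_floor_add_one ((A + 5) * log (log X))
      gcongr
      push_cast
      linarith
    · rw [show 3 * X * (1 / log X ^ (A + 1)) = X / log X ^ A * (3 / log X) by
        field_simp; ring]
      exact mul_le_of_le_one_right (by positivity) ((div_le_one l0).2 h3)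


theorem box_asymV (k A : ℕ) : ∀ᶠ X : ℕ in atTop, ∀ H J : Finset ℤ, H.card = k → J ⊆ H →
    ∀ B : Finset ℕ, (∀ p ∈ B, p.Prime ∧ p % 4 = 1 ∧ (p : ℝ) ≤ zz X) →
    |ct X (fun n => (∀ h ∈ H, AA (zz X) (alp A X) (n + h)) ∧ ∀ p ∈ B, ∀ c ∈ J, ¬ (p : ℤ) ∣ n + c)
      - X * (PH H (zz X) (alp A X) * ∏ p ∈ B, dn (p ^ alp A X) fun a => ∀ c ∈ J, ¬ (p : ℤ) ∣ a + c)|
      ≤ X / log X ^ A := by
  filter_upwards [sum_inv_le (a := 24 / 25) (by norm_num), tll.eventually_ge_atTop 72,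
    tl.eventually_ge_atTop 4, tz.eventually_ge_atTop 2, eventually_gt_atTop 0,
    ev_le (2 * ((6 * (k + 2) + A + 3) * (2 * A + 8))) 2 (show (24 / 25 : ℝ) < 1 by norm_num),
    ev_le (2 * (A + 1)) 1 (show (0 : ℝ) < 1 by norm_num)] with X h1 h2 h3 h4 h5 h6 h7 H J hH hJ B hB
  subst hH
  set z := zz X with hz
  set α := alp A X with hα
  set l := log (log X) with hl
  have α0 : α ≠ 0 := Nat.succ_ne_zero _
  have hP : ∀ p ∈ PP z ∪ B, p.Prime ∧ (p : ℝ) ≤ z := fun p hp => (mem_union.1 hp).elim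
    (fun h => let a := (mem_PP (by linarith)).1 h; ⟨a.1, a.2.2⟩) fun h => ⟨(hB p h).1, (hB p h).2.2⟩
  have hm : ∀ p ∈ PP z ∪ B, max p 1 = p := fun p hp => max_eq_left (hP p hp).1.pos
  have dj : Disjoint (PP z) B := disjoint_left.2 fun p a b => (mem_filter.1 a).2.2 (hB p b).2.1
  let P : ℕ → ℤ → Prop := fun p a =>
    if p % 4 = 1 then ∀ c ∈ J, ¬ (p : ℤ) ∣ a + c else ∀ h ∈ H, Loc (p ^ α) (a + h)
  have d1 : ∀ p ∈ PP z, dn (max p 1 ^ α) (P p) = den H (p ^ α) := fun p hp => by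
    rw [hm p (mem_union_left _ hp)]
    exact dn_congr fun a => by simp only [P, if_neg (mem_filter.1 hp).2.2]
  have d2 : ∀ p ∈ B, dn (max p 1 ^ α) (P p) =
      dn (p ^ α) fun a => ∀ c ∈ J, ¬ (p : ℤ) ∣ a + c := fun p hp => by
    rw [hm p (mem_union_right _ hp)]
    exact dn_congr fun a => by simp only [P, if_pos (hB p hp).2.1]
  have c0 := H.card.cast_nonneg (α := ℝ)
  have key := box0 (PP z ∪ B) (fun p => max p 1 ^ α) (fun p => by positivity)
    (fun p hp q hq e => by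
      rw [hm p hp, hm q hq]
      exact Nat.coprime_pow_primes _ _ (hP p hp).1 (hP q hq).1 e) P
    (fun p hp => by
      rw [hm p hp]
      by_cases e : p % 4 = 1
      · simp only [P, if_pos e]
        exact fun a b d f c hc g => f c hc ((per_dvd (dvd_pow_self p α0)).shift c b a (dvd_sub_comm.1 d) g)
      · simp only [P, if_neg e]
        exact per_den H _)
    ⌈(6 * (H.card + 2) + A + 1) * l⌉₊ X (Λ := (H.card + 2) * (2 * l)) (Mx := z ^ (α + 1))
    (by
      refine le_trans (sum_le_sum (g := fun p : ℕ => (H.card + 2) * (p : ℝ)⁻¹) fun p hp => ?_) ?_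
      · rcases mem_union.1 hp with h | h
        · rw [d1 p h]; exact one_sub_den' H (hP p hp).1 α0
        · rw [d2 p h]
          refine (one_sub_dJ J (hP p hp).1 α0).trans ?_
          have : (J.card : ℝ) ≤ H.card := by exact_mod_cast card_le_card hJ
          gcongr
          linarith
      · rw [← mul_sum]
        have := h1 _ hP
        gcongr
        linarith)
    (by
      refine (sum_le_card_nsmul _ _ (z ^ α) fun p hp => ?_).trans ?_
      · rw [hm p hp, Nat.cast_pow]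
        exact pow_le_pow_left₀ p.cast_nonneg (hP p hp).2 _
      · rw [nsmul_eq_mul, pow_succ']
        gcongr
        refine le_trans ?_ (Nat.floor_le (by linarith : 0 ≤ z))
        exact_mod_cast (card_le_card (t := Icc 1 ⌊z⌋₊) fun p hp => mem_Icc.2
          ⟨(hP p hp).1.pos, Nat.le_floor (hP p hp).2⟩).trans (by simp))
  rw [prod_union dj, prod_congr rfl d1, prod_congr rfl d2] at key
  have e : (fun y => ∀ i ∈ PP z ∪ B, P i y) = fun n => (∀ h ∈ H, AA z α (n + h)) ∧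
      ∀ p ∈ B, ∀ c ∈ J, ¬ (p : ℤ) ∣ n + c := by
    ext n
    rw [forall_mem_union]
    refine and_congr ⟨fun a h hh p hp => ?_, fun a p hp => ?_⟩ (forall₂_congr fun p hp => ?_)
    · have := a p hp
      simp only [P, if_neg (mem_filter.1 hp).2.2] at this
      exact this h hh
    · simp only [P, if_neg (mem_filter.1 hp).2.2]
      exact fun h hh => a h hh p hp
    · simp only [P, if_pos (hB p hp).2.1]
  rw [e] at key
  refine key.trans ?_
  set j := ⌈(6 * (H.card + 2) + A + 1) * l⌉₊ + 1 with hj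
  have j1 : (6 * (H.card + 2) + A + 1) * l ≤ j := by
    rw [hj]; push_cast; linarith [Nat.le_ceil ((6 * (H.card + 2) + A + 1) * l)]
  have j2 : (j : ℝ) ≤ (6 * (H.card + 2) + A + 3) * l := by
    have := Nat.ceil_lt_add_one (show 0 ≤ (6 * ((H.card : ℝ) + 2) + A + 1) * l by positivity)
    rw [hj]; push_cast; linarith
  have a2 : ((α + 2 : ℕ) : ℝ) ≤ (2 * A + 8) * l := by
    have := Nat.ceil_lt_add_one (show 0 ≤ 2 * (A + 1) * l by positivity)
    rw [hα, alp]; push_cast; linarith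
  have l0 : 0 < log X := lt_of_lt_of_le (by norm_num) h3
  have X0 : (0 : ℝ) < X := by exact_mod_cast h5
  have b1 : ((H.card + 2) * (2 * l)) ^ j / j.factorial ≤ 1 / log X ^ (A + 1) := by
    refine (pow_fact_le (by positivity) j).trans ?_
    rw [← exp_neg_ll l0]
    gcongr
    push_cast
    linarith
  have b2 : (1 + z ^ (α + 1)) ^ j ≤ X / log X ^ A / 2 := by
    have : 1 + z ^ (α + 1) ≤ z ^ (α + 2) := by
      rw [pow_succ z (α + 1)]
      nlinarith [one_le_pow₀ (n := α + 1) (by linarith : 1 ≤ z)]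
    refine (pow_le_pow_left₀ (by positivity) this j).trans ?_
    rw [div_div, le_div_iff₀ (by positivity), ← log_le_log_iff (by positivity) X0,
      log_mul (by positivity) (by positivity), log_mul (by positivity) (by positivity),
      log_pow, log_pow, log_pow, hz, zz, log_exp]
    rw [rpow_one] at h6 h7
    rw [rpow_zero] at h7
    have := log_two_lt_d9
    have : (j : ℝ) * (((α + 2 : ℕ) : ℝ) * log X ^ (24 / 25 : ℝ)) ≤
      ((6 * (H.card + 2) + A + 3) * l) * ((2 * A + 8) * l * log X ^ (24 / 25 : ℝ)) := by gcongr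
    push_cast at this ⊢
    nlinarith
  have b3 : 2 * X * (1 / log X ^ (A + 1)) ≤ X / log X ^ A / 2 := by
    rw [div_div, mul_one_div, div_le_div_iff₀ (by positivity) (by positivity), pow_succ _ A]
    nlinarith [mul_pos X0 (pow_pos l0 A)]
  have : 2 * X * (((H.card + 2) * (2 * l)) ^ j / j.factorial) ≤ 2 * X * (1 / log X ^ (A + 1)) := by
    gcongr
  linarith

theorem small_countV (k A j : ℕ) : ∀ᶠ X : ℕ in atTop, ∀ H J : Finset ℤ, H.card = k → J ⊆ H →
    (∀ p ∈ EE X, ∀ c ∈ J, ∀ c' ∈ J, (p : ℤ) ∣ c - c' → c = c') →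
    ct X (fun n => (∀ h ∈ H, AA (zz X) (alp A X) (n + h)) ∧ ∀ c ∈ J, wE (EE X) (n + c) < j) ≤
      10 ^ (j * J.card) * (X * PH H (zz X) (alp A X) * exp (-(9 / 10 * LL X)) ^ J.card +
        X / log X ^ A) := by
  filter_upwards [box_asymV k A, EE_mem] with X h' hE H J hH hJ hd
  have h := h' H J hH hJ
  let w : Finset ℕ → ℝ := fun B => (9 / 10) ^ B.card * ∏ _p ∈ EE X \ B, (1 / 10 : ℝ)
  have w0 : ∀ B, 0 ≤ w B := fun B => by positivity
  have e : ∀ f : ℕ → ℝ, ∑ B ∈ (EE X).powerset, w B * ∏ p ∈ B, f p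
      = ∏ p ∈ EE X, (9 / 10 * f p + 1 / 10) := fun f => by
    rw [prod_add]
    refine sum_congr rfl fun B _ => ?_
    rw [prod_mul_distrib, prod_const]
    ring
  have pt : ∀ (Q : Prop) (n : ℤ), ind (Q ∧ ∀ c ∈ J, wE (EE X) (n + c) < j) ≤ 10 ^ (j * J.card) *
      ∑ B ∈ (EE X).powerset, w B * ind (Q ∧ ∀ p ∈ B, ∀ c ∈ J, ¬ (p : ℤ) ∣ n + c) := by
    intro Q n
    by_cases a : Q ∧ ∀ c ∈ J, wE (EE X) (n + c) < j
    swap
    · rw [ind_neg a]
      exact mul_nonneg (by positivity) (sum_nonneg fun _ _ => mul_nonneg (w0 _) (ind_nonneg _))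
    have : ∀ B : Finset ℕ, ind (Q ∧ ∀ p ∈ B, ∀ c ∈ J, ¬ (p : ℤ) ∣ n + c) =
        ∏ p ∈ B, ind (¬ ∃ c ∈ J, (p : ℤ) ∣ n + c) := by
      intro B
      by_cases b : ∀ p ∈ B, ∀ c ∈ J, ¬ (p : ℤ) ∣ n + c
      · rw [ind_pos ⟨a.1, b⟩, prod_eq_one fun p hp => ind_pos fun ⟨c, hc, d⟩ => b p hp c hc d]
      · rw [ind_neg fun c => b c.2]
        push Not at b
        obtain ⟨p, hp, b⟩ := b
        rw [prod_eq_zero hp (ind_neg (not_not.2 b))]
    simp only [this]
    rw [e, ind_pos a, prod_congr rfl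
      (g := fun p : ℕ => if ∃ c ∈ J, (p : ℤ) ∣ n + c then (1 / 10 : ℝ) else 1)
      fun p _ => by
        split_ifs with b
        · rw [ind_neg (not_not.2 b)]; norm_num
        · rw [ind_pos b]; norm_num, prod_ite, prod_const_one, mul_one,
      prod_const, one_div, inv_pow, ← div_eq_mul_inv, one_le_div (by positivity)]
    refine pow_le_pow_right₀ (by norm_num) ?_
    refine (card_le_card (t := J.biUnion fun c => (EE X).filter fun p : ℕ => (p : ℤ) ∣ n + c)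
      fun p hp => ?_).trans (card_biUnion_le.trans ?_)
    · obtain ⟨a1, c, hc, d⟩ := mem_filter.1 hp
      exact mem_biUnion.2 ⟨c, hc, mem_filter.2 ⟨a1, d⟩⟩
    · rw [mul_comm]
      exact sum_le_card_nsmul _ _ _ fun c hc => (a.2 c hc).le
  refine (sum_le_sum fun n _ => pt _ _).trans ?_
  rw [← mul_sum, sum_comm]
  gcongr
  simp only [← mul_sum]
  refine (sum_le_sum fun B hB => mul_le_mul_of_nonneg_left (sub_le_iff_le_add'.1 (abs_le.1
    (h B fun p hp => hE p (mem_powerset.1 hB hp))).2) (w0 B)).trans ?_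
  have e1 := e fun _ => 1
  have e2 := e fun p => dn (p ^ alp A X) fun a => ∀ c ∈ J, ¬ (p : ℤ) ∣ a + c
  simp only [prod_const_one, mul_one] at e1
  norm_num at e1
  simp only [mul_add, sum_add_distrib]
  rw [← sum_mul, e1, one_mul, sum_congr rfl (g := fun B => X * PH H (zz X) (alp A X) *
    (w B * ∏ p ∈ B, dn (p ^ alp A X) fun a => ∀ c ∈ J, ¬ (p : ℤ) ∣ a + c)) fun B _ => by ring,
    ← mul_sum, e2, ← exp_nat_mul, LL, mul_sum, ← sum_neg_distrib, mul_sum, exp_sum]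
  have := PH_nonneg H (zz X) (alp A X)
  gcongr with p hp
  · intro p hp
    have := dn_nonneg (p ^ alp A X) fun a => ∀ c ∈ J, ¬ (p : ℤ) ∣ a + c
    linarith
  · rw [dJ_eq J (α := alp A X) (hE p hp).1 (Nat.succ_ne_zero _) (hd p hp)]
    linarith [add_one_le_exp (J.card * -(9 / 10 * (p : ℝ)⁻¹))]

end

section
open Finset Filter Topology Real
open Classical

lemma dual_cs (s I : Finset ℤ) (G D : ℤ → ℝ) {g a γ b : ℝ} (γ0 : 0 ≤ γ) (b0 : 0 ≤ b)
    (hG : ∀ n ∈ s, |G n| ≤ g) (hd : ∀ t ∈ I, ∑ n ∈ s, D (n + t) ^ 2 ≤ a)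
    (ho : ∀ t ∈ I, ∀ t' ∈ I, t ≠ t' → |∑ n ∈ s, D (n + t) * D (n + t')| ≤ γ)
    (hb : s.card * (I.card * a + I.card ^ 2 * γ) ≤ b ^ 2) (g0 : 0 ≤ g) :
    ∑ t ∈ I, |∑ n ∈ s, G n * D (n + t)| ≤ g * b := by
  let c : ℤ → ℝ := fun t => if 0 ≤ ∑ n ∈ s, G n * D (n + t) then 1 else -1
  have c1 : ∀ t, |c t| = 1 := fun t => by simp only [c]; split_ifs <;> simp
  have e : ∑ t ∈ I, |∑ n ∈ s, G n * D (n + t)| = ∑ n ∈ s, G n * ∑ t ∈ I, c t * D (n + t) := by
    simp only [mul_sum]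
    rw [sum_comm]
    refine sum_congr rfl fun t _ => ?_
    rw [sum_congr rfl (f := fun n => G n * (c t * D (n + t)))
      (g := fun n => c t * (G n * D (n + t))) fun n _ => by ring, ← mul_sum]
    simp only [c]
    split_ifs with h
    · rw [abs_of_nonneg h, one_mul]
    · rw [abs_of_neg (not_le.1 h), neg_one_mul]
  have e1 : ∑ n ∈ s, G n ^ 2 ≤ s.card * g ^ 2 := by
    rw [← nsmul_eq_mul]
    exact sum_le_card_nsmul _ _ _ fun n hn => sq_le_sq' (abs_le.1 (hG n hn)).1 (abs_le.1 (hG n hn)).2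
  have e2 : ∑ n ∈ s, (∑ t ∈ I, c t * D (n + t)) ^ 2 ≤ I.card * a + I.card ^ 2 * γ := by
    simp only [sq, sum_mul_sum]
    rw [sum_comm, mul_assoc, ← mul_add, ← nsmul_eq_mul]
    refine sum_le_card_nsmul _ _ _ fun t ht => ?_
    rw [sum_comm]
    refine (sum_le_sum (g := fun t' => (if t = t' then a else 0) + γ) fun t' ht' => ?_).trans ?_
    · rw [sum_congr rfl (g := fun n => c t * c t' * (D (n + t) * D (n + t'))) fun n _ => by ring,
        ← mul_sum]
      refine (le_abs_self _).trans ?_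
      rw [abs_mul, abs_mul, c1, c1, one_mul, one_mul]
      split_ifs with h
      · subst h
        have := hd t ht
        simp only [sq] at this
        rw [abs_of_nonneg (sum_nonneg fun n _ => mul_self_nonneg _)]
        linarith
      · rw [zero_add]; exact ho t ht t' ht' h
    · rw [sum_add_distrib, sum_ite_eq, if_pos ht, sum_const, nsmul_eq_mul]
  rw [e]
  refine le_of_sq_le_sq ((sum_mul_sq_le_sq_mul_sq _ _ _).trans ?_) (by positivity)
  refine (mul_le_mul e1 e2 (sum_nonneg fun _ _ => sq_nonneg _) (by positivity)).trans ?_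
  rw [mul_pow, mul_right_comm, mul_comm (g ^ 2)]
  exact mul_le_mul_of_nonneg_right hb (sq_nonneg g)

lemma sum_pi_succ (I : Finset ℤ) (k : ℕ) (f : (Fin (k + 1) → ℤ) → ℝ) :
    ∑ h ∈ Fintype.piFinset fun _ : Fin (k + 1) => I, f h =
      ∑ t ∈ I, ∑ h ∈ Fintype.piFinset fun _ : Fin k => I, f (Fin.cons t h) := by
  rw [← sum_product']
  symm
  refine sum_nbij' (fun x : ℤ × (Fin k → ℤ) => (Fin.cons x.1 x.2 : Fin (k + 1) → ℤ))
    (fun h => (h 0, Fin.tail h)) (fun x hx => ?_)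
    (fun h hh => ?_) (fun x _ => by simp) (fun h _ => by simp) fun _ _ => rfl
  · rw [mem_product, Fintype.mem_piFinset] at hx
    rw [Fintype.mem_piFinset]
    exact fun i => Fin.cases (by simpa using hx.1) (fun j => by simpa using hx.2 j) i
  · rw [Fintype.mem_piFinset] at hh
    rw [mem_product, Fintype.mem_piFinset]
    exact ⟨hh 0, fun j => hh j.succ⟩

lemma tele (s I : Finset ℤ) (F M : ℤ → ℝ) {R β : ℝ} (R1 : 1 ≤ R) (β0 : 0 ≤ β)
    (hF : ∀ n ∈ s, ∀ t ∈ I, |F (n + t)| ≤ R ∧ |M (n + t)| ≤ R)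
    (hD : ∀ (G : ℤ → ℝ) (g : ℝ), 0 ≤ g → (∀ n ∈ s, |G n| ≤ g) →
      ∑ t ∈ I, |∑ n ∈ s, G n * (F (n + t) - M (n + t))| ≤ g * (I.card * β)) (k : ℕ) :
    ∀ (G : ℤ → ℝ) (g : ℝ), 0 ≤ g → (∀ n ∈ s, |G n| ≤ g) →
      ∑ h ∈ Fintype.piFinset fun _ : Fin k => I,
        |∑ n ∈ s, G n * (∏ i, F (n + h i) - ∏ i, M (n + h i))| ≤ k * I.card ^ k * g * R ^ k * β := by
  induction k with
  | zero => intro G g _ _; simp
  | succ k ih =>
    intro G g g0 hG
    have R0 : 0 ≤ R := by linarith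
    rw [sum_pi_succ]
    simp only [Fin.prod_univ_succ, Fin.cons_zero, Fin.cons_succ]
    refine (sum_le_sum fun t _ => sum_le_sum (g := fun h : Fin k → ℤ =>
      |∑ n ∈ s, G n * F (n + t) * (∏ i, F (n + h i) - ∏ i, M (n + h i))| +
      |∑ n ∈ s, G n * (∏ i, M (n + h i)) * (F (n + t) - M (n + t))|) fun h _ => ?_).trans ?_
    · refine le_trans (le_of_eq ?_) (abs_add_le _ _)
      rw [← sum_add_distrib]
      congr 1
      exact sum_congr rfl fun n _ => by ring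
    simp only [sum_add_distrib]
    have a : ∑ t ∈ I, ∑ h ∈ Fintype.piFinset fun _ : Fin k => I,
        |∑ n ∈ s, G n * F (n + t) * (∏ i, F (n + h i) - ∏ i, M (n + h i))| ≤
        I.card * (k * I.card ^ k * (g * R) * R ^ k * β) := by
      rw [← nsmul_eq_mul]
      refine sum_le_card_nsmul _ _ _ fun t ht => ih (fun n => G n * F (n + t)) _ (by positivity)
        fun n hn => ?_
      rw [abs_mul]
      exact mul_le_mul (hG n hn) (hF n hn t ht).1 (abs_nonneg _) g0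
    have b : ∑ t ∈ I, ∑ h ∈ Fintype.piFinset fun _ : Fin k => I,
        |∑ n ∈ s, G n * (∏ i, M (n + h i)) * (F (n + t) - M (n + t))| ≤
        I.card ^ k * (g * R ^ k * (I.card * β)) := by
      rw [sum_comm]
      refine (sum_le_card_nsmul _ _ (g * R ^ k * (I.card * β)) fun h hh =>
        hD (fun n => G n * ∏ i, M (n + h i)) _ (by positivity) fun n hn => ?_).trans (by simp)
      rw [abs_mul, abs_prod]
      refine mul_le_mul (hG n hn) ((prod_le_prod (g := fun _ => R) (fun _ _ => abs_nonneg _)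
        fun i _ => (hF n hn _ (Fintype.mem_piFinset.1 hh i)).2).trans (by simp))
        (prod_nonneg fun _ _ => abs_nonneg _) g0
    have c : (I.card : ℝ) ^ k * (g * R ^ k * (I.card * β)) * 1 ≤
        I.card ^ k * (g * R ^ k * (I.card * β)) * R := by gcongr
    refine (add_le_add a (b.trans ((mul_one _).ge.trans c))).trans (le_of_eq ?_)
    push_cast
    ring

/-- the admissible numbers of prime factors in the window -/
noncomputable def TW (j A X : ℕ) : Finset ℕ := Icc j ⌊(A + 5) * log (log X)⌋₊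

/-- the weight, replaced by its model at the integers with an admissible number of factors -/
noncomputable def MM (j A X : ℕ) (n : ℤ) : ℝ :=
  if wE (EE X) n ∈ TW j A X then Fb (zz X) n else FF (zz X) n

lemma F_le : ∀ᶠ X : ℕ in atTop, ∀ (α : ℕ) (n : ℤ), 1 ≤ n → n ≤ 3 * X →
    (0 ≤ FF (zz X) n ∧ FF (zz X) n ≤ 2 * log X ∧ (¬ AA (zz X) α n → FF (zz X) n = 0)) ∧
    0 ≤ Fb (zz X) n ∧ Fb (zz X) n ≤ r0 X ∧ (¬ AA (zz X) α n → Fb (zz X) n = 0) := by
  filter_upwards [tl.eventually_ge_atTop 2, eventually_gt_atTop 0] with X l2 h9 α n c d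
  have X0 : (0 : ℝ) < X := by exact_mod_cast h9
  refine ⟨?_, Fb_bd (exp_pos _).le α c (by exact_mod_cast d)⟩
  obtain ⟨e1, e2, e3⟩ := FF_bd (zz X) c
  refine ⟨e1, e2.trans ?_, fun e => e3 fun s => e (s.aa _ _)⟩
  have := log_le_log (show (0 : ℝ) < n by exact_mod_cast c)
    (show (n : ℝ) ≤ 3 * X by exact_mod_cast d)
  rw [log_mul three_ne_zero X0.ne'] at this
  linarith [log_le_sub_one_of_pos three_pos]

lemma ev_pw (C : ℝ) (m : ℕ) : ∀ᶠ X : ℕ in atTop, C * log X ^ m ≤ X := by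
  filter_upwards [tnat.eventually
    (((isLittleO_pow_log_id_atTop (n := m)).const_mul_left C).bound one_pos)] with X h
  rw [one_mul, id, norm_of_nonneg X.cast_nonneg] at h
  exact (le_abs_self _).trans h

theorem off_diag (A : ℕ) : ∃ j : ℕ, ∀ᶠ X : ℕ in atTop, ∀ t t' : ℤ, t ≠ t' → 0 ≤ t → 0 ≤ t' →
    (t : ℝ) ≤ log X ^ A → (t' : ℝ) ≤ log X ^ A →
    |∑ n ∈ Ioc (X : ℤ) (2 * X), (FF (zz X) (n + t) - MM j A X (n + t)) *
      (FF (zz X) (n + t') - MM j A X (n + t'))| ≤ X / log X ^ (A + 3) := by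
  obtain ⟨j, hj⟩ := SPTwo_half (A + 5) 4 (by norm_num) (c0 := 1 / 100) (by norm_num)
  refine ⟨j, ?_⟩
  filter_upwards [hj, eok, EE_mem, conv_bound, tl.eventually_ge_atTop 2, tll.eventually_ge_atTop 1,
    eventually_ge_atTop 2, ev_le (A + 6) 1 (show (0 : ℝ) < 1 by norm_num), ev_pw 16 (2 * A + 9),
    ev_pw 1 A] with X h1 h2 h3 h4 l2 h8 h9 h10 h11 h12 t t' ht t0 t0' ta ta'
  rw [rpow_zero, rpow_one, mul_one, pow_one] at h10
  have l0 : 0 < log X := by linarith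
  have X0 : (0 : ℝ) < X := by exact_mod_cast (by omega : 0 < X)
  have tX : t ≤ X := by exact_mod_cast (by linarith : (t : ℝ) ≤ X)
  have tX' : t' ≤ X := by exact_mod_cast (by linarith : (t' : ℝ) ≤ X)
  have X3 : 4 * (X : ℤ) ≤ (X : ℤ) ^ 3 := by
    have : (2 : ℤ) ≤ X := by exact_mod_cast h9
    nlinarith [mul_le_mul this this two_pos.le (by omega)]
  set d : ℤ → ℂ := fun n => conv (be (zz X)) (gam (zz X) 4 (ww (zz X))) n -
    conv (be (zz X)) (flat (zz X) 4 (ww (zz X))) n with hd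
  have bm := fun p hp => be_mul (h3 p hp).1 (h3 p hp).2.1 (h3 p hp).2.2
  have k := fun i i' a b c e => h1 X (Nat.le_self_pow two_ne_zero X) (Nat.le_self_pow two_ne_zero X)
    _ h2 i i' a b c e (t' - t) 0 1 (sub_ne_zero.2 ht.symm) (by
      have : (0 : ℝ) ≤ t := by exact_mod_cast t0
      have : (0 : ℝ) ≤ t' := by exact_mod_cast t0'
      have := pow_le_pow_right₀ (by linarith : 1 ≤ log X) (show A ≤ A + 5 by omega)
      push_cast
      exact abs_le.2 ⟨by linarith, by linarith⟩) le_rfl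
    (by simpa using one_le_pow₀ (by linarith)) d (fun n hn => (h4 4 _ _ (dat _) n hn).2.2)
    (fun p hp n => by
      simp only [hd, conv_mul (dat _).β_supp (fun n hn => (gam_supp (dat _) n hn).1) (h3 p hp).1
        (h3 p hp).2.2 (bm p hp) n, conv_mul (dat _).β_supp (fun n hn => (flat_supp n hn).1)
        (h3 p hp).1 (h3 p hp).2.2 (bm p hp) n]) _ _ (dat (zz X)) bm
  simp only [Nat.cast_one, Int.modEq_one, and_true] at k
  let D : ℤ → ℂ := fun n => if wE (EE X) n ∈ TW j A X then d n else 0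
  have Dn : ∀ n : ℤ, n ≤ (X : ℤ) ^ 3 → ‖D n‖ ≤ log X ^ 3 := fun n hn => by
    simp only [D]
    split_ifs
    · exact (h4 4 _ _ (dat _) n hn).2.2
    · rw [norm_zero]; positivity
  have De : ∀ n : ℤ, 1 ≤ n → ((FF (zz X) n - MM j A X n : ℝ) : ℂ) = D n := fun n hn => by
    simp only [D, MM, hd, FF_cast _ hn, Fb_cast _ hn]
    split_ifs <;> simp
  have sh := SPTwo_shift (fun m => D m * D (m + (t' - t))) X (2 * X) t
    (B := log X ^ 3 * log X ^ 3) (by positivity) fun m hm => by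
      rw [abs_of_nonneg t0] at hm
      rw [norm_mul]
      exact mul_le_mul (Dn _ (by omega)) (Dn _ (by omega)) (norm_nonneg _) (by positivity)
  rw [← map_add_right_Ioc, sum_map] at sh
  simp only [addRightEmbedding_apply, add_add_sub_cancel] at sh
  have c : ((TW j A X).card : ℝ) ≤ log X := by
    have := Nat.floor_le (show 0 ≤ (A + 5) * log (log X) by positivity)
    have : ((TW j A X).card : ℝ) ≤ ⌊(A + 5) * log (log X)⌋₊ + 1 := by
      rw [TW, Nat.card_Icc]; exact_mod_cast Nat.sub_le _ _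
    linarith
  have hT : ∀ i ∈ TW j A X, j ≤ i ∧ (i : ℝ) ≤ (A + 5 : ℕ) * log (log X) := fun i hi =>
    ⟨(mem_Icc.1 hi).1, by
      push_cast; exact (Nat.le_floor_iff (by positivity)).1 (mem_Icc.1 hi).2⟩
  have m : ‖∑ n ∈ Ioc (X : ℤ) (2 * X), D n * D (n + (t' - t))‖ ≤
      log X * (log X * (X / log X ^ (A + 5 + 1))) := by
    rw [sum_congr rfl (g := fun n => ∑ i ∈ TW j A X, ∑ i' ∈ TW j A X,
      (if wE (EE X) n = i then d n else 0) * (if wE (EE X) (n + (t' - t)) = i' then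
        d (n + (t' - t)) else 0)) fun n _ => by rw [← sum_mul_sum, sum_ite_eq, sum_ite_eq],
      sum_comm]
    refine (norm_sum_le_of_le _ (n := fun _ => (TW j A X).card • (X / log X ^ (A + 5 + 1)))
      fun i hi => ?_).trans ?_
    · rw [sum_comm]
      exact (norm_sum_le _ _).trans (sum_le_card_nsmul _ _ _ fun i' hi' =>
        k i i' (hT i hi).1 (hT i' hi').1 (hT i hi).2 (hT i' hi').2)
    · rw [sum_const, nsmul_eq_mul, nsmul_eq_mul]
      gcongr
  rw [← norm_eq_abs, ← Complex.norm_real, Complex.ofReal_sum, sum_congr rfl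
    (g := fun n => D (n + t) * D (n + t')) fun n hn => by
      have := (mem_Ioc.1 hn).1
      rw [Complex.ofReal_mul, De _ (by omega), De _ (by omega)]]
  have e1 : log X * (log X * (X / log X ^ (A + 5 + 1))) ≤ X / log X ^ (A + 3) / 2 := by
    rw [show log X * (log X * (X / log X ^ (A + 5 + 1))) = X / log X ^ (A + 3) / log X by
      field_simp; ring]
    gcongr
  have e2 : 8 * |(t : ℝ)| * (log X ^ 3 * log X ^ 3) ≤ X / log X ^ (A + 3) / 2 := by
    rw [abs_of_nonneg (by exact_mod_cast t0), div_div, le_div_iff₀ (by positivity)]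
    calc _ ≤ 8 * log X ^ A * (log X ^ 3 * log X ^ 3) * (log X ^ (A + 3) * 2) := by gcongr
      _ = 16 * log X ^ (2 * A + 9) := by ring
      _ ≤ X := h11
  have := norm_sub_norm_le (∑ n ∈ Ioc (X : ℤ) (2 * X), D (n + t) * D (n + t'))
    (∑ n ∈ Ioc (X : ℤ) (2 * X), D n * D (n + (t' - t)))
  linarith

end

section
open Finset Filter Topology Real
open Classical

/-- the product of the limiting local densities over the sifting primes -/
noncomputable def Dl (δ : Finset ℤ → ℕ → ℝ) (H : Finset ℤ) (z : ℝ) : ℝ := ∏ p ∈ PP z, δ H p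

/-- the singular series -/
noncomputable def SK (δ : Finset ℤ → ℕ → ℝ) (k : ℕ) (H : Finset ℤ) : ℝ :=
  ∏' q : {p : ℕ // p.Prime ∧ p % 4 ≠ 1}, δ H q.1 / δ {0} q.1 ^ k

lemma prod_sub_le {ι : Type*} (s : Finset ι) (a b : ι → ℝ)
    (h : ∀ i ∈ s, 0 ≤ b i ∧ b i ≤ a i ∧ a i ≤ 1) :
    ∏ i ∈ s, a i - ∏ i ∈ s, b i ≤ ∑ i ∈ s, (a i - b i) := by
  induction s using Finset.induction_on with
  | empty => simp
  | insert j s hj ih =>
    rw [prod_insert hj, prod_insert hj, sum_insert hj]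
    have h' := fun i hi => h i (mem_insert_of_mem hi)
    have a1 := ih h'
    obtain ⟨a2, a3, a4⟩ := h j (mem_insert_self _ _)
    have a5 : ∏ i ∈ s, b i ≤ 1 := prod_le_one (fun i hi => (h' i hi).1)
      fun i hi => (h' i hi).2.1.trans (h' i hi).2.2
    have a6 : ∏ i ∈ s, b i ≤ ∏ i ∈ s, a i := prod_le_prod (fun i hi => (h' i hi).1)
      fun i hi => (h' i hi).2.1
    nlinarith [mul_nonneg (sub_nonneg.2 a4) (sub_nonneg.2 a6),
      mul_nonneg (sub_nonneg.2 a3) (sub_nonneg.2 a5)]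

lemma sum_pow_le (z : ℝ) (n : ℕ) : ∑ p ∈ PP z, ((p : ℝ) ^ (n + 2))⁻¹ ≤ (2 ^ n)⁻¹ := by
  refine (sum_le_sum (g := fun p : ℕ => (2 ^ n)⁻¹ * ((p : ℝ) ^ 2)⁻¹) fun p hp => ?_).trans ?_
  · have : (2 : ℝ) ≤ p := by exact_mod_cast (mem_filter.1 hp).2.1.two_le
    rw [pow_add, mul_inv]
    gcongr
  · rw [← mul_sum]
    refine mul_le_of_le_one_right (by positivity) ((sum_le_sum_of_subset_of_nonneg
      (t := Ioo 1 (⌊z⌋₊ + 1)) (fun p hp => ?_) fun _ _ _ => by positivity).trans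
      ((sum_Ioo_inv_sq_le _ _).trans (by norm_num)))
    have a := (mem_filter.1 hp).2.1.two_le
    have b := (mem_Icc.1 (mem_filter.1 hp).1).2
    rw [mem_Ioo]; omega

lemma two_pow_ge {X : ℕ} (h : 1 ≤ log X) (m : ℕ) {c : ℝ} (hc : m ≤ 69 / 100 * c) :
    ((2 : ℝ) ^ ⌈c * log (log X)⌉₊)⁻¹ ≤ 1 / log X ^ m := by
  have l0 : 0 < log X := by linarith
  rw [one_div]
  refine inv_anti₀ (by positivity) ?_
  rw [← exp_log (pow_pos l0 m), log_pow, ← exp_log (pow_pos two_pos _), log_pow, exp_le_exp]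
  have a := Nat.le_ceil (c * log (log X))
  have b := log_nonneg h
  have := mul_le_mul_of_nonneg_right hc b
  have := (⌈c * log (log X)⌉₊).cast_nonneg (α := ℝ)
  nlinarith [log_two_gt_d9]

lemma gen_facK (k : ℕ) {e : ℝ} (e0 : 0 ≤ e) (e1 : e ≤ 1) (h : k * e ≤ 1 / 2) :
    |(1 - k * e) / (1 - e) ^ k - 1| ≤ 2 * k ^ 2 * e ^ 2 := by
  have a : 1 - k * e ≤ (1 - e) ^ k := by
    have := one_add_mul_le_pow (a := -e) (by linarith) k
    rwa [mul_neg, ← sub_eq_add_neg, ← sub_eq_add_neg] at this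
  have b : ∀ j : ℕ, (1 - e) ^ j ≤ 1 - j * e + j ^ 2 * e ^ 2 := fun j => by
    induction j with
    | zero => simp
    | succ j ih =>
      rw [pow_succ]
      refine (mul_le_mul_of_nonneg_right ih (by linarith)).trans ?_
      have := j.cast_nonneg (α := ℝ)
      push_cast
      nlinarith [sq_nonneg e, mul_nonneg this (sq_nonneg e),
        mul_nonneg (mul_nonneg (sq_nonneg (j : ℝ)) (sq_nonneg e)) e0]
  have b := b k
  generalize (1 - e) ^ k = y at a b
  have y0 : 0 < y := by linarith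
  rw [show (1 - k * e) / y - 1 = -((y - (1 - k * e)) / y) by field_simp; ring, abs_neg,
    abs_of_nonneg (div_nonneg (by linarith) y0.le), div_le_iff₀ y0]
  nlinarith [mul_nonneg (sq_nonneg (k : ℝ)) (sq_nonneg e)]

lemma den_gen (H : Finset ℤ) {p : ℕ} (hp : p.Prime) (h2 : p ≠ 2) (α : ℕ)
    (hH : ∀ c ∈ H, ∀ c' ∈ H, (p : ℤ) ∣ c - c' → c = c') :
    den H (p ^ α) = 1 - H.card * (1 - den {0} (p ^ α)) := by
  have hM := pow_ne_zero α hp.ne_zero
  have e := dn_disj (M := p ^ α) H (fun a => ¬ Loc (p ^ α) a)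
    (fun a h => not_not.1 (mt (loc_odd hp h2) h)) hH
  rw [sum_congr rfl fun c _ => (dn_not hM _).trans (by rw [dn_shift hM (per_loc _)]), sum_const,
    nsmul_eq_mul] at e
  rw [den, den, dn_congr (P := fun a => ∀ h ∈ ({0} : Finset ℤ), _) (Q := Loc (p ^ α)) (by simp),
    ← e, ← dn_not hM]
  exact dn_congr fun a => by simp

lemma eq_of_dvd {c c' : ℤ} {p : ℕ} {z : ℝ} (h : |(c : ℝ) - c'| ≤ z) (hp : z < p)
    (d : (p : ℤ) ∣ c - c') : c = c' := by
  by_contra e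
  have := Int.le_of_dvd (abs_pos.2 (sub_ne_zero.2 e)) ((dvd_abs _ _).2 d)
  have : (p : ℝ) ≤ |(c : ℝ) - c'| := by exact_mod_cast this
  linarith

variable {δ : Finset ℤ → ℕ → ℝ}
  (hδ : ∀ (H : Finset ℤ) (p : ℕ), p.Prime → Tendsto (fun α => den H (p ^ α)) atTop (𝓝 (δ H p)))
include hδ

lemma del_nonneg (H : Finset ℤ) {p : ℕ} (hp : p.Prime) : 0 ≤ δ H p :=
  ge_of_tendsto' (hδ H p hp) fun _ => dn_nonneg _ _

lemma del_zero {p : ℕ} (hp : p.Prime) : 1 / 4 ≤ δ {0} p :=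
  ge_of_tendsto (hδ _ _ hp) ((eventually_ge_atTop 2).mono fun _ => den_zero hp)

lemma Dl_nonneg (H : Finset ℤ) (z : ℝ) : 0 ≤ Dl δ H z :=
  prod_nonneg fun _ hp => del_nonneg hδ H (mem_filter.1 hp).2.1

lemma Dl_pos (z : ℝ) : 0 < Dl δ {0} z :=
  prod_pos fun _ hp => lt_of_lt_of_le (by norm_num) (del_zero hδ (mem_filter.1 hp).2.1)

lemma PH_sub (H : Finset ℤ) (z : ℝ) (n : ℕ) :
    |PH H z (n + 3) - Dl δ H z| ≤ H.card * (2 ^ n)⁻¹ := by
  have k := fun p (hp : p ∈ PP z) => den_lim H (α := n + 1) (mem_filter.1 hp).2.1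
    (hδ H p (mem_filter.1 hp).2.1)
  have k0 := fun p (hp : p ∈ PP z) => del_nonneg hδ H (mem_filter.1 hp).2.1
  rw [PH, Dl, abs_of_nonneg (sub_nonneg.2 (prod_le_prod k0 fun p hp => (k p hp).1))]
  refine (prod_sub_le _ _ _ fun p hp =>
    ⟨k0 p hp, (k p hp).1, den_le_one H (mem_filter.1 hp).2.1 _⟩).trans
    ((sum_le_sum fun p hp => sub_le_iff_le_add'.2 (k p hp).2).trans ?_)
  rw [← mul_sum]
  exact mul_le_mul_of_nonneg_left (sum_pow_le z n) H.card.cast_nonneg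

theorem sing_V (k : ℕ) {l : Filter ℕ} (H : ℕ → Finset ℤ) {z : ℕ → ℝ} (hz : Tendsto z l atTop)
    (hH : ∀ᶠ X in l, (H X).card = k ∧ ∀ c ∈ H X, ∀ c' ∈ H X, |(c : ℝ) - c'| ≤ z X) :
    ∃ P : ℕ → ℝ, Tendsto P l (𝓝 1) ∧
      ∀ᶠ X in l, SK δ k (H X) = Dl δ (H X) (z X) / Dl δ {0} (z X) ^ k * P X := by
  let t : ℕ → {p : ℕ // p.Prime ∧ p % 4 ≠ 1} → ℝ := fun X q => if (q.1 : ℝ) ≤ z X then
    δ (H X) q.1 / δ {0} q.1 ^ k else 1
  let f : ℕ → {p : ℕ // p.Prime ∧ p % 4 ≠ 1} → ℝ := fun X q => if (q.1 : ℝ) ≤ z X then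
    0 else δ (H X) q.1 / δ {0} q.1 ^ k - 1
  have sm : Summable fun q : {p : ℕ // p.Prime ∧ p % 4 ≠ 1} =>
      2 * (k : ℝ) ^ 2 * ((q.1 : ℝ) ^ 2)⁻¹ :=
    ((Real.summable_nat_pow_inv.2 one_lt_two).comp_injective Subtype.val_injective).mul_left _
  have bd : ∀ᶠ X in l, ∀ q, ‖f X q‖ ≤ 2 * (k : ℝ) ^ 2 * ((q.1 : ℝ) ^ 2)⁻¹ := by
    filter_upwards [hH, hz.eventually_ge_atTop 2, hz.eventually_ge_atTop (2 * k)] with X b c c' q
    simp only [f]
    split_ifs with e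
    · rw [norm_zero]; positivity
    have e := not_le.1 e
    have q0 : (0 : ℝ) < q.1 := by linarith
    have h2 : q.1 ≠ 2 := fun j => by rw [j] at e; norm_num at e; linarith
    have k1 : δ (H X) q.1 = 1 - k * (1 - δ {0} q.1) := tendsto_nhds_unique (hδ _ _ q.2.1)
      (((((hδ {0} _ q.2.1).const_sub 1).const_mul (k : ℝ)).const_sub 1).congr fun α => by
        rw [den_gen (H X) q.2.1 h2 α fun a ha a' ha' => eq_of_dvd (b.2 a ha a' ha') e, b.1])
    have k2 : δ {0} q.1 ≤ 1 := le_of_tendsto' (hδ _ _ q.2.1) (den_le_one _ q.2.1)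
    have k3 : 1 - δ {0} q.1 ≤ (q.1 : ℝ)⁻¹ := le_of_tendsto ((hδ {0} _ q.2.1).const_sub 1)
      ((eventually_ne_atTop 0).mono fun β j => by simpa using one_sub_den {0} q.2.1 h2 j)
    have k4 := del_zero hδ q.2.1
    have k5 : (k : ℝ) * (q.1 : ℝ)⁻¹ ≤ 1 / 2 := by
      rw [← div_eq_mul_inv, div_le_iff₀ q0]; linarith
    have := gen_facK k (e := 1 - δ {0} q.1) (by linarith) (by linarith)
      ((mul_le_mul_of_nonneg_left k3 k.cast_nonneg).trans k5)
    rw [sub_sub_cancel] at this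
    rw [k1, Real.norm_eq_abs]
    refine this.trans ?_
    rw [← inv_pow]
    gcongr
  have key := tendsto_tprod_one_add_of_dominated_convergence (𝓕 := l) (f := f)
    (g := fun _ => 0) sm (fun q => tendsto_const_nhds.congr'
      ((hz.eventually_ge_atTop q.1).mono fun X a => (if_pos a).symm)) bd
  simp only [add_zero, tprod_one] at key
  refine ⟨_, key, ?_⟩
  filter_upwards [hz.eventually_ge_atTop 0, bd] with X hX b
  have hp : HasProd (t X) (∏ q ∈ (PP (z X)).subtype _, t X q) :=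
    hasProd_prod_of_ne_finset_one fun q hq =>
      if_neg fun e => hq (mem_subtype.2 ((mem_PP hX).2 ⟨q.2.1, q.2.2, e⟩))
  have e : ∏ q ∈ (PP (z X)).subtype _, t X q = Dl δ (H X) (z X) / Dl δ {0} (z X) ^ k := by
    rw [Dl, Dl, ← prod_pow, ← prod_div_distrib, ← prod_subtype_of_mem (s := PP (z X)) (p := fun p =>
      p.Prime ∧ p % 4 ≠ 1) _ fun p hp => (mem_filter.1 hp).2]
    exact prod_congr rfl fun q hq => if_pos ((mem_PP hX).1 (mem_subtype.1 hq)).2.2
  have m : Multipliable fun q => 1 + f X q :=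
    multipliable_one_add_of_summable (Summable.of_nonneg_of_le (fun _ => norm_nonneg _) b sm)
  have := (hp.mul m.hasProd).tprod_eq
  rw [e] at this
  rw [← this]
  refine tprod_congr fun q => ?_
  simp only [f, t]
  split_ifs <;> ring

end

section
open Finset Filter Topology Real
open Classical

lemma sandL {l : Filter ℕ} {F G e θ θ' : ℕ → ℝ}
    (h : ∀ᶠ X in l, θ X * (G X - e X) ≤ F X ∧ F X ≤ θ' X * G X) (hθ : Tendsto θ l (𝓝 1))
    (hθ' : Tendsto θ' l (𝓝 1)) (he : Tendsto e l (𝓝 0)) {x : ℝ} :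
    Tendsto F l (𝓝 x) ↔ Tendsto G l (𝓝 x) := by
  constructor
  · intro t
    refine tendsto_of_tendsto_of_tendsto_of_le_of_le' (g := fun X => F X / θ' X)
      (h := fun X => F X / θ X + e X) (div_one x ▸ t.div hθ' one_ne_zero)
      (by simpa using (t.div hθ one_ne_zero).add he) ?_ ?_
    · filter_upwards [h, hθ'.eventually (lt_mem_nhds one_pos)] with X a b
      exact (div_le_iff₀' b).2 a.2
    · filter_upwards [h, hθ.eventually (lt_mem_nhds one_pos)] with X a b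
      exact sub_le_iff_le_add.1 ((le_div_iff₀' b).2 a.1)
  · intro t
    exact tendsto_of_tendsto_of_tendsto_of_le_of_le' (by simpa using hθ.mul (t.sub he))
      (by simpa using hθ'.mul t) (h.mono fun _ a => a.1) (h.mono fun _ a => a.2)

lemma zero_wL {l : Filter ℕ} {e w : ℕ → ℝ} (hw : ∀ᶠ X in l, 0 ≤ w X ∧ w X ≤ 1)
    (he : Tendsto e l (𝓝 0)) : Tendsto (fun X => e X * w X) l (𝓝 0) := by
  refine squeeze_zero_norm' (a := fun X => ‖e X‖) (hw.mono fun X h => ?_) (by simpa using he.norm)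
  rw [norm_mul, norm_eq_abs (w X), abs_of_nonneg h.1]
  exact mul_le_of_le_one_right (norm_nonneg _) h.2

lemma sandW {l : Filter ℕ} {w : ℕ → ℝ} (hw : ∀ᶠ X in l, 0 ≤ w X ∧ w X ≤ 1) {F G e θ θ' : ℕ → ℝ}
    (h : ∀ᶠ X in l, θ X * (G X - e X) ≤ F X ∧ F X ≤ θ' X * G X) (hθ : Tendsto θ l (𝓝 1))
    (hθ' : Tendsto θ' l (𝓝 1)) (he : Tendsto e l (𝓝 0)) {x : ℝ} :
    Tendsto (fun X => F X * w X) l (𝓝 x) ↔ Tendsto (fun X => G X * w X) l (𝓝 x) := by
  refine sandL ?_ hθ hθ' (zero_wL hw he)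
  filter_upwards [h, hw] with X a b
  rw [← sub_mul, ← mul_assoc, ← mul_assoc]
  exact ⟨mul_le_mul_of_nonneg_right a.1 b.1, mul_le_mul_of_nonneg_right a.2 b.1⟩

lemma moveW {l : Filter ℕ} {w : ℕ → ℝ} (hw : ∀ᶠ X in l, 0 ≤ w X ∧ w X ≤ 1) {f g e : ℕ → ℝ} {x : ℝ}
    (t : Tendsto (fun X => f X * w X) l (𝓝 x)) (h : ∀ᶠ X in l, |f X - g X| ≤ e X)
    (he : Tendsto (fun X => e X * w X) l (𝓝 0)) : Tendsto (fun X => g X * w X) l (𝓝 x) := by
  refine t.congr_dist (squeeze_zero' (.of_forall fun _ => dist_nonneg) ?_ he)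
  filter_upwards [h, hw] with X a b
  rw [Real.dist_eq, ← sub_mul, abs_mul, abs_of_nonneg b.1]
  exact mul_le_mul_of_nonneg_right a b.1

theorem FF_ineq (k A : ℕ) : ∀ᶠ X : ℕ in atTop, ∀ H : Finset ℤ, H.card = k →
    (∀ h ∈ H, 2 * |h| ≤ X) → (1 - (1 + log (YY X)) * (log X)⁻¹) ^ k *
      (ct X (fun n => ∀ h ∈ H, S2 (n + h)) * √(log X) ^ k / X - k * (1 / log X ^ A) * √(log X) ^ k) ≤
      (∑ n ∈ Ioc (X : ℤ) (2 * X), ∏ h ∈ H, FF (zz X) (n + h)) / (X * √(log X) ^ k) ∧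
    (∑ n ∈ Ioc (X : ℤ) (2 * X), ∏ h ∈ H, FF (zz X) (n + h)) / (X * √(log X) ^ k) ≤
      (1 + 2 * (log X)⁻¹) ^ k * (ct X (fun n => ∀ h ∈ H, S2 (n + h)) * √(log X) ^ k / X) := by
  filter_upwards [bad_countV A, tl.eventually_ge_atTop 2, tz.eventually_ge_atTop 2,
    eventually_gt_atTop 0, ev_le 2 0 (show (49 / 50 : ℝ) < 1 by norm_num)] with X h1 h3 h4 h5 h6 H hH h2
  subst hH
  rw [pow_zero, mul_one, rpow_one] at h6
  have X0 : (0 : ℝ) < X := by exact_mod_cast h5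
  have l0 : 0 < log X := by linarith
  have lY : log (YY X) = log X ^ (49 / 50 : ℝ) := log_exp _
  obtain ⟨a, b⟩ := sand_sum X H (f := FF (zz X)) (P := S2) (lo := log X - (1 + log (YY X)))
    (hi := log X + 2) (by linarith) (by linarith) h2 h1
    (fun n c d => by
      obtain ⟨e1, e2, e3⟩ := FF_bd (zz X) (n := n) (by omega)
      refine ⟨e1, e2.trans ?_, e3⟩
      have := log_le_log (show (0 : ℝ) < n by exact_mod_cast (by omega : 0 < n))
        (show (n : ℝ) ≤ 3 * X by exact_mod_cast d)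
      rw [log_mul three_ne_zero X0.ne'] at this
      linarith [log_le_sub_one_of_pos three_pos])
    fun n c d e => by
      refine le_trans ?_ (FF_lo h4 (by omega) d e)
      have := log_le_log X0 (show (X : ℝ) ≤ 2 * n by exact_mod_cast c.le)
      rw [log_mul two_ne_zero (by exact_mod_cast (by omega : n ≠ 0))] at this
      linarith [log_two_lt_d9]
  have s : √(log X) ^ H.card * √(log X) ^ H.card = log X ^ H.card := by
    rw [← mul_pow, mul_self_sqrt l0.le]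
  have s0 : 0 < √(log X) ^ H.card := by positivity
  rw [show log X - (1 + log (YY X)) = (1 - (1 + log (YY X)) * (log X)⁻¹) * log X by field_simp,
    mul_pow, ← s] at a
  rw [show log X + 2 = (1 + 2 * (log X)⁻¹) * log X by field_simp, mul_pow, ← s] at b
  rw [le_div_iff₀ (by positivity), div_le_iff₀ (by positivity)]
  exact ⟨le_trans (le_of_eq (by field_simp)) a, b.trans (le_of_eq (by field_simp))⟩

lemma th_zero : Tendsto (fun X : ℕ => (1 + log (YY X)) * (log X)⁻¹) atTop (𝓝 0) := by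
  refine (by simpa using tinv.add ((tendsto_rpow_neg_atTop (y := 1 / 50)
    (by norm_num)).comp tl) : Tendsto (fun X : ℕ => (log X)⁻¹ + log X ^ (-(1 / 50 : ℝ)))
      atTop (𝓝 0)).congr' ?_
  filter_upwards [tl.eventually_gt_atTop 0] with X h
  rw [YY, log_exp, show (49 / 50 : ℝ) = -(1 / 50) + 1 by norm_num, rpow_add_one h.ne']
  field_simp

lemma er_zero {k A : ℕ} (hA : 3 * k + 1 ≤ A) {f : ℕ → ℝ}
    (hf : ∀ᶠ X : ℕ in atTop, 0 ≤ f X ∧ f X ≤ log X ^ 3) :
    Tendsto (fun X : ℕ => f X ^ k * (1 / log X ^ A)) atTop (𝓝 0) := by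
  refine t0 1 ?_
  filter_upwards [hf, tl.eventually_ge_atTop 1] with X h l1
  have := h.1
  rw [abs_of_nonneg (by positivity)]
  calc _ ≤ (log X ^ 3) ^ k * (1 / log X ^ (3 * k + 1)) := by gcongr; exact h.2
    _ = _ := by field_simp; ring

lemma er_r0 {k A : ℕ} (hA : 3 * k + 1 ≤ A) :
    Tendsto (fun X : ℕ => r0 X ^ k * (1 / log X ^ A) / √(log X) ^ k) atTop (𝓝 0) := by
  refine (er_zero hA (f := fun X => r0 X / √(log X)) ?_).congr fun X => by rw [div_pow]; ring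
  filter_upwards [r0_bd, tl.eventually_ge_atTop 1] with X h l1
  have := rho_nonneg (zz X) (3 * X)
  exact ⟨div_nonneg this (sqrt_nonneg _), (div_le_self this (one_le_sqrt.2 l1)).trans
    (h.2.trans (pow_le_pow_right₀ l1 (by norm_num)))⟩

end

section
open Finset Filter Topology Real
open Classical

lemma ev_sz (A : ℕ) : ∀ᶠ X : ℕ in atTop, log X ^ A ≤ zz X ∧ 2 * log X ^ A ≤ X := by
  filter_upwards [ev_le A 1 (show (0 : ℝ) < 24 / 25 by norm_num), tl.eventually_gt_atTop 0,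
    tnat.eventually ((isLittleO_pow_log_id_atTop (n := A)).bound one_half_pos)] with X a b c
  rw [rpow_zero, mul_one, pow_one] at a
  rw [id, norm_of_nonneg (by positivity), norm_of_nonneg (by positivity)] at c
  refine ⟨?_, by linarith⟩
  rw [zz, ← exp_log b, ← exp_nat_mul, exp_log b]
  exact exp_le_exp.2 a

lemma SK_ge {δ : Finset ℤ → ℕ → ℝ}
    (hδ : ∀ (H : Finset ℤ) (p : ℕ), p.Prime → Tendsto (fun α => den H (p ^ α)) atTop (𝓝 (δ H p)))
    {a b : ℤ} (hab : a ≠ b) : (1 / 16) ^ 33 * (1 / 2) ≤ SK δ 2 {a, b} :=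
  ge_of_tendsto (sing_tendsto (sub_ne_zero.2 hab.symm) (δ₀ := δ {0}) (δ := δ {a, b}) (hδ {0})
    (fun p hp => (hδ {a, b} p hp).congr fun _ => den_shift (pow_ne_zero _ hp.ne_zero) _ _) tz tal)
    ((tal.eventually_ge_atTop 4).mono fun _ h => trunc_ge _ h _)

end

section
open Finset Filter Topology Real
open Classical

lemma ev_sep (A : ℕ) : ∀ᶠ X : ℕ in atTop, ∀ H : Finset ℤ, (∀ h ∈ H, |(h : ℝ)| ≤ log X ^ A) →
    (∀ h ∈ H, 2 * |h| ≤ X) ∧ (∀ c ∈ H, ∀ c' ∈ H, |(c : ℝ) - c'| ≤ zz X) ∧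
    ∀ p ∈ EE X, ∀ c ∈ H, ∀ c' ∈ H, (p : ℤ) ∣ c - c' → c = c' := by
  filter_upwards [ev_sz A, ev_sz (A + 1), tl.eventually_ge_atTop 3,
    ev_le (A + 1 : ℕ) 1 (show (0 : ℝ) < 1 / 100 by norm_num)] with X a b l3 c0 H hH
  have l0 : 0 < log X := by linarith
  have p0 := pow_pos l0 A
  have d : ∀ c ∈ H, ∀ c' ∈ H, |(c : ℝ) - c'| ≤ 2 * log X ^ A := fun c hc c' hc' =>
    (abs_sub _ _).trans (by linarith [hH c hc, hH c' hc'])
  have e : 2 * log X ^ A < log X ^ (A + 1) := by rw [pow_succ]; nlinarith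
  refine ⟨fun h hh => ?_, fun c hc c' hc' => (d c hc c' hc').trans (e.le.trans b.1),
    fun p hp c hc c' hc' => eq_of_dvd (d c hc c' hc') (e.trans_le ?_)⟩
  · have : 2 * |(h : ℝ)| ≤ X := by linarith [hH h hh, a.2]
    exact_mod_cast this
  · rw [rpow_zero, mul_one, pow_one] at c0
    refine le_trans ?_ (Nat.ceil_le.1 (mem_Icc.1 (mem_filter.1 hp).1).1)
    rw [← exp_log (pow_pos l0 _), log_pow]
    exact exp_le_exp.2 c0

variable {δ : Finset ℤ → ℕ → ℝ}
  (hδ : ∀ (H : Finset ℤ) (p : ℕ), p.Prime → Tendsto (fun α => den H (p ^ α)) atTop (𝓝 (δ H p)))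
include hδ

lemma kap {K : ℝ} (hK : Tendsto (fun X : ℕ => ct X S2 * √(log X) / X) atTop (𝓝 K)) :
    Tendsto (fun X : ℕ => r0 X * Dl δ {0} (zz X) / √(log X)) atTop (𝓝 K) := by
  have a1 := @FF_iff {0} (by simp) K
  have a2 := @Fb_iff {0} (by simp) K
  simp only [card_singleton, pow_one, prod_singleton, add_zero, mem_singleton, forall_eq] at a1 a2
  refine (a2.1 ((a1.2 hK).congr_dist one_trans)).congr_dist (squeeze_zero'
    (.of_forall fun _ => dist_nonneg) ?_ (er_r0 (k := 1) (A := 4) le_rfl))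
  filter_upwards [tl.eventually_ge_atTop 1] with X l1
  have := (PH_sub hδ {0} (zz X) ⌈10 * log (log X)⌉₊).trans (mul_le_mul_of_nonneg_left
    (two_pow_ge l1 4 (c := 10) (by norm_num)) (Nat.cast_nonneg _))
  rw [card_singleton, Nat.cast_one, one_mul] at this
  have r := rho_nonneg (zz X) (3 * X)
  rw [Real.dist_eq, ← sub_div, ← mul_sub, abs_div, abs_mul, abs_of_nonneg (sqrt_nonneg _), pow_one,
    pow_one, abs_of_nonneg (show 0 ≤ r0 X from r)]
  exact div_le_div_of_nonneg_right (mul_le_mul_of_nonneg_left this r) (sqrt_nonneg _)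

end

section
open Finset Filter Topology Real
open Classical

lemma halvV {T g : ℕ → ℝ} (hT : ∀ n, |T (n + 1) - T n| ≤ 1) (hT0 : ∀ n, |T n| ≤ n) {c c' ε : ℝ}
    (c0 : 0 ≤ c) (c1 : c ≤ c') (c2 : 1 ≤ c') (ε0 : 0 ≤ ε) {L : ℕ} (L0 : 0 < L) (g0 : ∀ N, 0 ≤ g N)
    (g1 : ∀ N, L ≤ N → g N ≤ N)
    (h1 : ∀ N, L ≤ N → g (N / 2) ≤ 2 / 3 * g N ∧ |2 * g (N / 2) - g N| ≤ ε * g N ∧ 1 ≤ ε * g N)
    (N : ℕ) : L ≤ N → (∀ i, L ≤ N / 2 ^ (i + 1) → |T (2 * (N / 2 ^ (i + 1))) - T (N / 2 ^ (i + 1))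
      - c * g (N / 2 ^ (i + 1))| ≤ ε * c' * g (N / 2 ^ (i + 1))) →
    |T N - c * g N| ≤ 9 * (ε * c' * g N) + 2 * L * (1 + c) := by
  induction N using Nat.strong_induction_on with
  | _ N ih =>
    intro hN h2
    have c3 : 0 ≤ c' := by linarith
    have p0 : 0 ≤ ε * c' * g N := by have := g0 N; positivity
    rcases lt_or_ge N (2 * L) with a | a
    · have a' : (N : ℝ) ≤ 2 * L := by exact_mod_cast a.le
      have b1 := abs_sub (T N) (c * g N)
      rw [abs_of_nonneg (mul_nonneg c0 (g0 N))] at b1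
      have := mul_le_mul_of_nonneg_left ((g1 N hN).trans a') c0
      linarith [hT0 N]
    obtain ⟨b1, b2, b3⟩ := h1 N hN
    have b4 := h2 0
    rw [zero_add, pow_one] at b4
    have b4 := abs_le.1 (b4 (by omega))
    have b5 := abs_le.1 (ih (N / 2) (by omega) (by omega) fun i => by
      rw [Nat.div_div_eq_div_mul, ← pow_succ']; exact h2 (i + 1))
    have b6 : |T N - T (2 * (N / 2))| ≤ 1 := by
      obtain ⟨k, rfl | rfl⟩ := N.even_or_odd'
      · rw [Nat.mul_div_cancel_left _ two_pos]; simp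
      · rw [show (2 * k + 1) / 2 = k by omega]; exact hT _
    have b7 := mul_le_mul_of_nonneg_left b1 (mul_nonneg ε0 c3)
    have b8 := mul_le_mul_of_nonneg_left (abs_le.1 b2).1 c0
    have b9 := mul_le_mul_of_nonneg_left (abs_le.1 b2).2 c0
    have b10 := mul_le_mul_of_nonneg_right c1 (mul_nonneg ε0 (g0 N))
    have b11 := mul_le_mul_of_nonneg_right c2 (mul_nonneg ε0 (g0 N))
    rw [abs_le] at b6 ⊢
    constructor <;> linarith [b4.1, b4.2, b5.1, b5.2, b6.1, b6.2]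

variable {δ : Finset ℤ → ℕ → ℝ}
  (hδ : ∀ (H : Finset ℤ) (p : ℕ), p.Prime → Tendsto (fun α => den H (p ^ α)) atTop (𝓝 (δ H p)))
include hδ

omit hδ in
theorem init_G {k : ℕ} {K : ℝ} (K0 : 0 < K)
    (hK : Tendsto (fun X : ℕ => TT S2 X / X * √(log X)) atTop (𝓝 K)) (Gd : ℕ → Finset ℤ → Prop)
    (hB : Tendsto (fun X : ℕ => ct X S2 * √(log X) / X) atTop (𝓝 K) → ∀ {ε : ℝ}, 0 < ε →
      ∀ᶠ X : ℕ in atTop, ∀ H, Gd X H → 0 ≤ SK δ k H ∧
      |ct X (fun n => ∀ h ∈ H, S2 (n + h)) * √(log X) ^ k / X - K ^ k * SK δ k H| ≤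
        ε * (1 + SK δ k H)) {ε : ℝ} (hε : 0 < ε) :
    ∀ᶠ x : ℝ in atTop, ∀ H : Finset ℤ,
      (∀ i, ⌈√x⌉₊ ≤ ⌊x⌋₊ / 2 ^ (i + 1) → Gd (⌊x⌋₊ / 2 ^ (i + 1)) H) →
      |TT (fun n => ∀ h ∈ H, S2 (n + h)) ⌊x⌋₊ / x - SK δ k H * (K / √(log x)) ^ k| ≤
        ε * ((1 + SK δ k H) * (K / √(log x)) ^ k) := by
  have pos : ∀ᶠ N : ℕ in atTop, 0 < log N ∧ (0 : ℝ) < N :=
    (tl.eventually_gt_atTop 0).and (tnat.eventually_gt_atTop 0)
  have d2 : Tendsto (fun N : ℕ => 2 * N) atTop atTop := tendsto_id.const_mul_atTop' two_pos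
  have r := (log_ratio (v := fun N : ℕ => ((2 * N : ℕ) : ℝ)) tnat (tendsto_const_nhds.congr'
    (pos.mono fun N a => by have := a.2; push_cast; field_simp)) two_pos).sqrt
  have k1 := (((hK.comp d2).mul r).const_mul 2).sub hK
  rw [sqrt_one, show 2 * (K * 1) - K = K by ring] at k1
  have κ0 : 0 < K ^ k := pow_pos K0 k
  obtain ⟨η, η0, hη⟩ : ∃ η : ℝ, 0 < η ∧ 20 * η * (1 + K ^ k) = ε * K ^ k :=
    ⟨ε * K ^ k / (20 * (1 + K ^ k)), by positivity, by field_simp⟩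
  have k2 := hB (k1.congr' (by
    filter_upwards [pos, d2.eventually pos] with N c d
    have := c.2
    have := sqrt_pos.2 d.1
    rw [← TT_ct, sqrt_div c.1.le]
    simp only [Function.comp]
    push_cast at *
    field_simp)) η0
  have r1 : Tendsto (fun N : ℕ => ((N / 2 : ℕ) : ℝ) / N) atTop (𝓝 (1 / 2)) := by
    have := ((tendsto_nat_floor_div_atTop (R := ℝ)).comp (tnat.atTop_div_const two_pos)).div_const 2
    refine this.congr fun N => ?_
    rw [Function.comp, show (2 : ℝ) = (2 : ℕ) from rfl, Nat.floor_div_eq_div, div_div,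
      div_mul_cancel₀ _ (by norm_num)]
  have r2 := r1.mul ((log_ratio tnat r1 one_half_pos).sqrt.pow k)
  rw [sqrt_one, one_pow] at r2
  have r3 : ∀ᶠ N : ℕ in atTop, η⁻¹ * log N ^ k ≤ N := ev_pw _ k
  obtain ⟨N₀, hN⟩ := eventually_atTop.1 ((k2.and (pos.and (tl.eventually_ge_atTop 2))).and
    ((r2.eventually (eventually_le_nhds (show (1 / 2 * 1 : ℝ) < 2 / 3 by norm_num))).and
    ((Metric.tendsto_nhds.1 r2 (η / 2) (by positivity)).and r3)))
  have r4 := (tendsto_nat_floor_div_atTop (R := ℝ)).mul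
    ((log_ratio tendsto_id (tendsto_nat_floor_div_atTop (R := ℝ)) one_pos).sqrt.pow k)
  rw [sqrt_one, one_pow] at r4
  filter_upwards [tendsto_sqrt_atTop.eventually_ge_atTop (N₀ : ℝ), eventually_ge_atTop 36,
    r4.eventually (eventually_le_nhds (show (1 * 1 : ℝ) < 2 by norm_num)),
    Metric.tendsto_nhds.1 r4 η η0, (isLittleO_pow_log_id_atTop (n := k)).bound
      (show 0 < (η / 8) ^ 2 by positivity)] with x x1 x2 x3 x4 x5 H hH
  have x0 : 0 < x := by linarith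
  have l0 : 0 < log x := log_pos (by linarith)
  have s0 : 6 ≤ √x := le_sqrt_of_sq_le (by linarith)
  have s1 : √x * √x = x := mul_self_sqrt x0.le
  have hL : ∀ N, ⌈√x⌉₊ ≤ N → N₀ ≤ N := fun N h => by exact_mod_cast x1.trans (Nat.ceil_le.1 h)
  have f0 : ⌈√x⌉₊ ≤ ⌊x⌋₊ / 2 ^ (0 + 1) := by
    rw [zero_add, pow_one, Nat.le_div_iff_mul_le two_pos]
    refine Nat.le_floor ?_
    push_cast
    linarith [Nat.ceil_lt_add_one (sqrt_nonneg x), mul_le_mul_of_nonneg_right s0 (sqrt_nonneg x)]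
  have S0 : 0 ≤ SK δ k H := ((hN _ (hL _ f0)).1.1 H (hH 0 f0)).1
  have c0 : 0 ≤ K ^ k * SK δ k H := by positivity
  have c1 : K ^ k * SK δ k H ≤ (1 + K ^ k) * (1 + SK δ k H) := by linarith
  have c2 : 1 ≤ (1 + K ^ k) * (1 + SK δ k H) := by linarith
  have sq1 : ∀ N, ⌈√x⌉₊ ≤ N → 1 ≤ √(log N) := fun N h =>
    one_le_sqrt.2 (by linarith [(hN N (hL N h)).1.2.2])
  have key := halvV (T := TT fun n => ∀ h ∈ H, S2 (n + h)) (g := fun N => N / √(log N) ^ k)
    (TT_step _) (fun n => by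
      rw [TT, abs_of_nonneg (sum_nonneg fun _ _ => ind_nonneg _)]
      exact (sum_le_card_nsmul _ _ 1 fun _ _ => ind_le _).trans (by simp))
    (c := K ^ k * SK δ k H) (c' := (1 + K ^ k) * (1 + SK δ k H)) c0 c1 c2
    η0.le (L := ⌈√x⌉₊) (Nat.ceil_pos.2 (by linarith)) (fun N => by positivity)
    (fun N h => div_le_self N.cast_nonneg (one_le_pow₀ (sq1 N h)))
    (fun N h => by
      obtain ⟨⟨-, ⟨n1, n2⟩, n0⟩, n3, n4, n5⟩ := hN N (hL N h)
      have := sq1 N h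
      have e : ((N / 2 : ℕ) : ℝ) / √(log (N / 2 : ℕ)) ^ k = ((N / 2 : ℕ) : ℝ) / N *
          √(log N / log (N / 2 : ℕ)) ^ k * (N / √(log N) ^ k) := by
        rw [sqrt_div n1.le, div_pow]; field_simp
      have g0 : 0 < (N : ℝ) / √(log N) ^ k := by positivity
      rw [Real.dist_eq, abs_lt] at n4
      rw [e]
      refine ⟨mul_le_mul_of_nonneg_right n3 g0.le, abs_le.2 ⟨by
        linarith [mul_le_mul_of_nonneg_right n4.1.le g0.le], by
        linarith [mul_le_mul_of_nonneg_right n4.2.le g0.le]⟩,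
        ?_⟩
      rw [← mul_div_assoc, one_le_div (by positivity), ← inv_mul_le_iff₀ η0]
      refine le_trans ?_ n5
      gcongr
      exact sqrt_le_self_iff.2 (.inr (by linarith)))
    ⌊x⌋₊ (f0.trans (Nat.div_le_self _ _)) (fun i h => by
      have a := hH i h
      generalize ⌊x⌋₊ / 2 ^ (i + 1) = N at a h
      obtain ⟨⟨n0, ⟨n1, n2⟩, n3⟩, -⟩ := hN N (hL N h)
      have := sq1 N h
      have g0 : 0 ≤ (N : ℝ) / √(log N) ^ k := by positivity
      have := mul_le_mul_of_nonneg_right (n0 H a).2 g0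
      rw [← abs_of_nonneg g0, ← abs_mul, abs_of_nonneg g0] at this
      rw [TT_ct]
      refine le_trans (le_of_eq ?_) (this.trans ?_)
      · congr 1
        field_simp
      · gcongr
        linarith)
  have q0 : 0 < √(log x) := sqrt_pos.2 l0
  have G0 : 0 < x / √(log x) ^ k := by positivity
  have e : (⌊x⌋₊ : ℝ) / √(log ⌊x⌋₊) ^ k =
      ⌊x⌋₊ / x * √(log x / log ⌊x⌋₊) ^ k * (x / √(log x) ^ k) := by
    rw [sqrt_div l0.le, div_pow]; field_simp
  simp only [id] at x3 x4 x5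
  rw [Real.dist_eq, abs_lt] at x4
  rw [e] at key
  have e2 : 4 * (⌈√x⌉₊ : ℝ) ≤ η * (x / √(log x) ^ k) := by
    rw [norm_of_nonneg (by positivity), norm_of_nonneg x0.le] at x5
    have f1 : (⌈√x⌉₊ : ℝ) ≤ 2 * √x := by linarith [Nat.ceil_lt_add_one (sqrt_nonneg x)]
    have f2 : √(log x) ^ k ≤ η / 8 * √x := le_of_sq_le_sq (by
      rwa [← pow_mul, mul_comm k, pow_mul, sq_sqrt l0.le, mul_pow, sq_sqrt x0.le]) (by positivity)
    rw [← mul_div_assoc, le_div_iff₀ (by positivity)]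
    calc _ ≤ 4 * (2 * √x) * (η / 8 * √x) := by gcongr
      _ = η * (√x * √x) := by ring
      _ = _ := by rw [s1]
  rw [show SK δ k H * (K / √(log x)) ^ k = K ^ k * SK δ k H * (x / √(log x) ^ k) / x by
      rw [div_pow]; field_simp,
    show ε * ((1 + SK δ k H) * (K / √(log x)) ^ k) =
      20 * η * ((1 + K ^ k) * (1 + SK δ k H)) * (x / √(log x) ^ k) / x by
      rw [← mul_assoc (20 * η), hη, div_pow]; field_simp,
    ← sub_div, abs_div, abs_of_pos x0, div_le_div_iff_of_pos_right x0]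
  generalize (1 + K ^ k) * (1 + SK δ k H) = c' at *
  generalize K ^ k * SK δ k H = c at *
  generalize x / √(log x) ^ k = G at *
  generalize (⌊x⌋₊ : ℝ) / x * √(log x / log ⌊x⌋₊) ^ k = ρ at *
  have L0 := (⌈√x⌉₊).cast_nonneg (α := ℝ)
  generalize (⌈√x⌉₊ : ℝ) = L at *
  have m0 : 0 ≤ c * G := mul_nonneg c0 G0.le
  have m1 := mul_le_mul_of_nonneg_right x3 (show 0 ≤ η * c' * G by positivity)
  have m2 := mul_le_mul_of_nonneg_right x4.1.le m0
  have m3 := mul_le_mul_of_nonneg_right x4.2.le m0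
  have m4 := mul_le_mul_of_nonneg_right c1 (show 0 ≤ η * G by positivity)
  have m5 := mul_le_mul_of_nonneg_right e2 (show 0 ≤ c' by linarith)
  have m6 := mul_le_mul_of_nonneg_left (show 1 + c ≤ 2 * c' by linarith) L0
  rw [abs_le] at key ⊢
  constructor <;> linarith [key.1, key.2]

end

end Pool.Agent.Work.MP_678620_nt.TA
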