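import Pool.Agent.Work.MP_678620_nt.X.A

/-! Tuples of sums of two squares, part two: two fixed shifts and almost all further shifts. -/

set_option autoImplicit false

namespace Pool.Agent.Work.MP_678620_nt.TA

section
open Finset Filter Topology Real
open Classical

/-- the mean over a period -/
noncomputable def av (M : ℕ) (f : ℤ → ℝ) : ℝ := (∑ a ∈ range M, f a) / M

/-- the local counting estimate for the primes of `I` -/
def Box (X : ℕ) (I : Finset ℕ) (Λ err : ℝ) : Prop :=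
  ∀ J ⊆ I, ∀ P : ℕ → ℤ → Prop, (∀ p ∈ J, Per p (P p)) → ∑ p ∈ J, (1 - dn p (P p)) ≤ Λ →
    |ct X (fun n => ∀ p ∈ J, P p n) - X * ∏ p ∈ J, dn p (P p)| ≤ err

lemma ind_and (p q : Prop) : ind (p ∧ q) = ind p * ind q := by
  by_cases p <;> by_cases q <;> simp [ind, *]

lemma per_sum {q : ℕ} (hq : q ≠ 0) {f : ℤ → ℝ} (hf : ∀ a b, (q : ℤ) ∣ b - a → f a = f b) (n : ℤ) :
    f n = ∑ c ∈ range q, f c * ind ((q : ℤ) ∣ n + -(c : ℤ)) := by
  have q0 : (q : ℤ) ≠ 0 := by exact_mod_cast hq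
  have a := Int.emod_nonneg n q0
  have b := Int.emod_lt_of_pos n (show (0 : ℤ) < q by omega)
  have d : (q : ℤ) ∣ n + -((n % q).toNat : ℤ) := by
    rw [Int.toNat_of_nonneg a]; exact Int.dvd_self_sub_emod
  rw [sum_eq_single_of_mem (n % q).toNat (mem_range.2 (by omega)) fun c hc e => ?_, ind_pos d,
    mul_one]
  · exact (hf _ _ d).symm
  · rw [ind_neg fun g => e ?_, mul_zero]
    have := Int.eq_zero_of_abs_lt_dvd (dvd_sub g d) (by rw [mem_range] at hc; rw [abs_lt]; omega)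
    omega

lemma fund {X : ℕ} {I : Finset ℕ} {Λ err : ℝ} (hI : ∀ p ∈ I, p ≠ 0) (hB : Box X I Λ err)
    (f : ℕ → ℤ → ℝ) (U : Finset ℕ) : (∀ p ∈ U, (∀ a b, (p : ℤ) ∣ b - a → f p a = f p b) ∧
      ∀ a, |f p a| ≤ 1) → U ⊆ I → ∀ J ⊆ I, Disjoint U J → ∀ P : ℕ → ℤ → Prop,
      (∀ p ∈ J, Per p (P p)) → ∑ p ∈ J, (1 - dn p (P p)) + U.card ≤ Λ →
      |∑ n ∈ Ioc (X : ℤ) (2 * X), (∏ p ∈ U, f p n) * ind (∀ p ∈ J, P p n) -
        X * ((∏ p ∈ U, av p (f p)) * ∏ p ∈ J, dn p (P p))| ≤ (∏ p ∈ U, (p : ℝ)) * err := by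
  induction U using Finset.induction_on with
  | empty => intro _ _ J hJ _ P hP hΛ; simpa [ct] using hB J hJ P hP (by simpa using hΛ)
  | insert q U hq ih =>
    intro hf hU J hJ hd P hP hΛ
    have qI := hU (mem_insert_self _ _)
    have q0 := hI q qI
    have qJ : q ∉ J := disjoint_left.1 hd (mem_insert_self _ _)
    obtain ⟨f1, f2⟩ := hf q (mem_insert_self _ _)
    have key : ∀ c : ℕ, |∑ n ∈ Ioc (X : ℤ) (2 * X), (∏ p ∈ U, f p n) *
        (ind ((q : ℤ) ∣ n + -(c : ℤ)) * ind (∀ p ∈ J, P p n)) - X * ((∏ p ∈ U, av p (f p)) *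
        ((q : ℝ)⁻¹ * ∏ p ∈ J, dn p (P p)))| ≤ (∏ p ∈ U, (p : ℝ)) * err := fun c => by
      let P' : ℕ → ℤ → Prop := fun p a => if p = q then (q : ℤ) ∣ a + -(c : ℤ) else P p a
      have e1 : P' q = fun a => (q : ℤ) ∣ a + -(c : ℤ) := funext fun a => if_pos rfl
      have e2 : ∀ p ∈ J, P' p = P p := fun p hp => funext fun a => if_neg (by rintro rfl; exact qJ hp)
      have := ih (fun p hp => hf p (mem_insert_of_mem hp)) ((subset_insert _ _).trans hU)
        (insert q J) (insert_subset qI hJ) (disjoint_insert_right.2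
          ⟨hq, (disjoint_insert_left.1 hd).2⟩) P' (fun p hp => by
          rcases mem_insert.1 hp with rfl | hp
          · rw [e1]; exact (per_dvd dvd_rfl).shift _
          · rw [e2 p hp]; exact hP p hp) (by
          have e5 : ∑ p ∈ J, (1 - dn p (P' p)) = ∑ p ∈ J, (1 - dn p (P p)) :=
            sum_congr rfl fun p hp => by rw [e2 p hp]
          rw [sum_insert qJ, e5]
          rw [card_insert_of_notMem hq, Nat.cast_succ] at hΛ
          linarith [dn_nonneg q (P' q)])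
      have e3 : ∏ p ∈ J, dn p (P' p) = ∏ p ∈ J, dn p (P p) :=
        prod_congr rfl fun p hp => by rw [e2 p hp]
      rw [prod_insert qJ, e1, dn_dvd q0 dvd_rfl, e3] at this
      refine le_trans (le_of_eq ?_) this
      congr 2
      refine sum_congr rfl fun n _ => ?_
      congr 1
      have e4 : (∀ p ∈ J, P' p n) ↔ ∀ p ∈ J, P p n := forall₂_congr fun p hp => by rw [e2 p hp]
      rw [forall_mem_insert, e1, e4, ind_and]
    simp only [prod_insert hq]
    rw [sum_congr rfl fun n _ => by rw [per_sum q0 f1 n, sum_mul, sum_mul], sum_comm, av, sum_div,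
      sum_mul, sum_mul, mul_sum, ← sum_sub_distrib, mul_assoc, ← card_range q, ← nsmul_eq_mul,
      card_range]
    refine (abs_sum_le_sum_abs _ _).trans ((sum_le_card_nsmul _ _ _ fun c _ => ?_).trans
      (by rw [card_range]))
    refine le_trans (le_of_eq ?_) ((mul_le_mul (f2 c) (key c) (abs_nonneg _) one_pos.le).trans
      (one_mul _).le)
    rw [← abs_mul, mul_sub, mul_sum]
    congr 2
    · exact sum_congr rfl fun n _ => by ring
    · ring

/-- the centred indicator of non-divisibility -/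
noncomputable def ep (p : ℕ) (n : ℤ) : ℝ := (p : ℝ)⁻¹ - ind ((p : ℤ) ∣ n)

/-- the local correlation -/
noncomputable def gm (τ : ℤ) (p : ℕ) : ℝ := (if (p : ℤ) ∣ τ then (p : ℝ)⁻¹ else 0) - (p : ℝ)⁻¹ ^ 2

lemma av_form {p : ℕ} (hp : p ≠ 0) (τ : ℤ) (a b a' b' : ℝ) :
    av p (fun n => (a + b * ep p n) * (a' + b' * ep p (n + τ))) = a * a' + b * b' * gm τ p := by
  have p0 : (p : ℝ) ≠ 0 := by exact_mod_cast hp
  have e1 := dn_dvd hp dvd_rfl 0
  have e2 := dn_dvd hp dvd_rfl τ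
  have e3 : (∑ n ∈ range p, ind ((p : ℤ) ∣ n) * ind ((p : ℤ) ∣ n + τ)) / p =
      if (p : ℤ) ∣ τ then (p : ℝ)⁻¹ else 0 := by
    split_ifs with h
    · rw [← e2, dn]
      congr 1
      refine sum_congr rfl fun n _ => ?_
      rw [dvd_add_left h]
      by_cases c : (p : ℤ) ∣ n <;> simp [ind, c]
    · rw [sum_eq_zero fun n _ => ?_, zero_div]
      by_cases c : (p : ℤ) ∣ n
      · rw [ind_neg (show ¬ (p : ℤ) ∣ n + τ from fun d => h ((dvd_add_right c).1 d)), mul_zero]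
      · rw [ind_neg c, zero_mul]
  simp only [dn, add_zero] at e1 e2
  rw [av, gm, ← e3, sum_congr rfl (g := fun n : ℕ => (a + b * (p : ℝ)⁻¹) * (a' + b' * (p : ℝ)⁻¹) -
    b * (a' + b' * (p : ℝ)⁻¹) * ind ((p : ℤ) ∣ n) - b' * (a + b * (p : ℝ)⁻¹) * ind ((p : ℤ) ∣ n + τ)
    + b * b' * (ind ((p : ℤ) ∣ n) * ind ((p : ℤ) ∣ n + τ))) fun n _ => by unfold ep; ring]
  simp only [sum_add_distrib, sum_sub_distrib, ← mul_sum, sum_const, card_range, nsmul_eq_mul,
    add_div, sub_div, mul_div_assoc, e1, e2]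
  field_simp
  ring

/-- a product of local functions -/
noncomputable def ZZ (I : Finset ℕ) (a b : ℕ → ℝ) (n : ℤ) : ℝ := ∏ p ∈ I, (a p + b p * ep p n)

/-- admissible local coefficients -/
def Adm (U : Finset ℕ) (a b : ℕ → ℝ) : Prop :=
  ∀ p, (a p = 1 - (p : ℝ)⁻¹ ∧ (b p = 1 ∨ b p = 0)) ∨ (p ∈ U ∧ a p = 0 ∧ b p = 1)

lemma Adm.le {U : Finset ℕ} {a b : ℕ → ℝ} (h : Adm U a b) (p : ℕ) (n : ℤ) :
    |a p + b p * ep p n| ≤ 1 := by
  have a0 : 0 ≤ (p : ℝ)⁻¹ := by positivity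
  have a1 : (p : ℝ)⁻¹ ≤ 1 := Nat.cast_inv_le_one p
  have := ind_nonneg ((p : ℤ) ∣ n)
  have := ind_le ((p : ℤ) ∣ n)
  unfold ep
  rcases h p with ⟨e, e' | e'⟩ | ⟨-, e, e'⟩ <;> rw [e, e', abs_le] <;> constructor <;> linarith

lemma corr {X : ℕ} {I U : Finset ℕ} {Λ err : ℝ} (hI : ∀ p ∈ I, p.Prime) (hB : Box X I Λ err)
    (hU : U ⊆ I) (hΛ : 2 * ∑ p ∈ I, (p : ℝ)⁻¹ + U.card ≤ Λ) (τ : ℤ) {a b a' b' : ℕ → ℝ}
    (h : Adm U a b) (h' : Adm U a' b') :
    |∑ n ∈ Ioc (X : ℤ) (2 * X), ZZ I a b n * ZZ I a' b' (n + τ) -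
      X * ∏ p ∈ I, (a p * a' p + b p * b' p * gm τ p)| ≤ (∏ p ∈ U, (p : ℝ)) * err := by
  let w : ℕ → ℤ → ℝ := fun p n => (a p + b p * ep p n) * (a' p + b' p * ep p (n + τ))
  let P : ℕ → ℤ → Prop := fun p n => (b p = 1 → ¬ (p : ℤ) ∣ n) ∧ (b' p = 1 → ¬ (p : ℤ) ∣ n + τ)
  let c : ℕ → ℝ := fun p => (if b p = 1 then 1 else a p) * (if b' p = 1 then 1 else a' p)
  have one : ∀ {a b : ℕ → ℝ}, Adm U a b → ∀ p ∉ U, ∀ n, a p + b p * ep p n =
      (if b p = 1 then 1 else a p) * ind (b p = 1 → ¬ (p : ℤ) ∣ n) ∧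
      |if b p = 1 then 1 else a p| ≤ 1 := fun {a b} h p hp n => by
    have := h.le p n
    rcases h p with ⟨e, e' | e'⟩ | ⟨e, -⟩
    · by_cases d : (p : ℤ) ∣ n <;> simp [e, e', ep, ind, d]
    · simpa [e', ind] using this
    · exact absurd e hp
  have wc : ∀ p ∈ I \ U, ∀ n, w p n = c p * ind (P p n) := fun p hp n => by
    simp only [w, c, P, (one h p (mem_sdiff.1 hp).2 n).1, (one h' p (mem_sdiff.1 hp).2 (n + τ)).1]
    rw [ind_and]
    ring
  have key := fund (fun p hp => (hI p hp).ne_zero) hB w U (fun p _ => ⟨fun x y d => by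
      simp only [w, ep]
      rw [← dvd_iff_dvd_of_dvd_sub d, ← dvd_iff_dvd_of_dvd_sub
        (show (p : ℤ) ∣ y + τ - (x + τ) by simpa using d)], fun n => by
      rw [abs_mul]; exact mul_le_one₀ (h.le p n) (abs_nonneg _) (h'.le p _)⟩) hU (I \ U) sdiff_subset
    disjoint_sdiff P (fun p _ x y d e => ⟨fun u v => e.1 u ((dvd_iff_dvd_of_dvd_sub d).1 v),
      fun u v => e.2 u ((dvd_iff_dvd_of_dvd_sub
        (show (p : ℤ) ∣ y + τ - (x + τ) by simpa using d)).1 v)⟩) (by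
      refine le_trans (add_le_add_left ?_ _) hΛ
      rw [mul_sum]
      refine (sum_le_sum fun p hp => ?_).trans
        (sum_le_sum_of_subset_of_nonneg sdiff_subset fun _ _ _ => by positivity)
      have e := one_sub_dJ {0, τ} (hI p (mem_sdiff.1 hp).1) one_ne_zero
      have c2 : ((card ({0, τ} : Finset ℤ) : ℕ) : ℝ) ≤ 2 := by exact_mod_cast card_le_two
      rw [pow_one] at e
      have := dn_mono (M := p) (P := fun a => ∀ c ∈ ({0, τ} : Finset ℤ), ¬ (p : ℤ) ∣ a + c)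
        (Q := P p) fun a ha => ⟨fun _ => by simpa using ha 0 (by simp), fun _ => ha τ (by simp)⟩
      have := mul_le_mul_of_nonneg_right c2 (show 0 ≤ (p : ℝ)⁻¹ by positivity)
      linarith)
  have c1 : |∏ p ∈ I \ U, c p| ≤ 1 := by
    rw [abs_prod]
    refine prod_le_one (fun _ _ => abs_nonneg _) fun p hp => ?_
    rw [abs_mul]
    exact mul_le_one₀ (one h p (mem_sdiff.1 hp).2 0).2 (abs_nonneg _) (one h' p (mem_sdiff.1 hp).2 0).2
  refine le_trans (le_of_eq ?_) ((mul_le_mul c1 key (abs_nonneg _) one_pos.le).trans (one_mul _).le)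
  rw [← abs_mul, mul_sub, mul_sum]
  congr 2
  · refine sum_congr rfl fun n _ => ?_
    rw [ZZ, ZZ, ← prod_mul_distrib, ← prod_sdiff hU, prod_congr rfl fun p hp => wc p hp n,
      prod_mul_distrib, mul_assoc, mul_comm (∏ p ∈ U, w p n)]
    congr 2
    by_cases e : ∀ p ∈ I \ U, P p n
    · rw [ind_pos e, prod_eq_one fun p hp => ind_pos (e p hp)]
    · rw [ind_neg e]
      push Not at e
      obtain ⟨p, hp, e⟩ := e
      exact prod_eq_zero hp (ind_neg e)
  · rw [prod_congr rfl fun p hp => (av_form (hI p hp).ne_zero τ _ _ _ _).symm, ← prod_sdiff hU,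
      prod_congr rfl (g := fun p => c p * dn p (P p)) fun p hp => by
        rw [av, sum_congr rfl (g := fun n : ℕ => c p * ind (P p n)) fun n _ => wc p hp n,
          ← mul_sum, mul_div_assoc]; rfl,
      prod_mul_distrib]
    ring

theorem box_ev (u A : ℕ) : ∀ᶠ X : ℕ in atTop, ∀ I : Finset ℕ, (∀ p ∈ I, p.Prime ∧ (p : ℝ) ≤ zz X) →
    Box X I (u * log (log X)) (X / log X ^ A) := by
  filter_upwards [tll.eventually_ge_atTop 1, tl.eventually_ge_atTop 4, tz.eventually_ge_atTop 2,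
    eventually_gt_atTop 0, ev_le (2 * ((3 * u + A + 3) * 3)) 1 (show (24 / 25 : ℝ) < 1 by norm_num),
    ev_le (2 * (A + 1)) 1 (show (0 : ℝ) < 1 by norm_num)] with X h2 h3 h4 h5 h6 h7 I hI J hJ P hP hΛ
  set z := zz X with hz
  set l := log (log X) with hl
  have hm : ∀ p ∈ J, max p 1 = p := fun p hp => max_eq_left (hI p (hJ hp)).1.pos
  have key := box0 J (fun p => max p 1) (fun p => by positivity)
    (fun p hp q hq e => by
      rw [hm p hp, hm q hq]
      exact (Nat.coprime_primes (hI p (hJ hp)).1 (hI q (hJ hq)).1).2 e) P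
    (fun p hp => by rw [hm p hp]; exact hP p hp) ⌈(3 * u + A + 1) * l⌉₊ X (Λ := u * l) (Mx := z ^ 2)
    (by rwa [sum_congr rfl fun p hp => by rw [hm p hp]])
    (by
      refine (sum_le_card_nsmul _ _ z fun p hp => ?_).trans ?_
      · rw [hm p hp]; exact (hI p (hJ hp)).2
      · rw [nsmul_eq_mul, sq]
        gcongr
        refine le_trans ?_ (Nat.floor_le (by linarith : 0 ≤ z))
        exact_mod_cast (card_le_card (t := Icc 1 ⌊z⌋₊) fun p hp => mem_Icc.2
          ⟨(hI p (hJ hp)).1.pos, Nat.le_floor (hI p (hJ hp)).2⟩).trans (by simp))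
  rw [prod_congr rfl fun p hp => by rw [hm p hp]] at key
  refine key.trans ?_
  set j := ⌈(3 * u + A + 1) * l⌉₊ + 1 with hj
  have j1 : (3 * u + A + 1) * l ≤ j := by
    rw [hj]; push_cast; linarith [Nat.le_ceil ((3 * u + A + 1) * l)]
  have j2 : (j : ℝ) ≤ (3 * u + A + 3) * l := by
    have := Nat.ceil_lt_add_one (show 0 ≤ (3 * (u : ℝ) + A + 1) * l by positivity)
    rw [hj]; push_cast; linarith
  have l0 : 0 < log X := lt_of_lt_of_le (by norm_num) h3
  have X0 : (0 : ℝ) < X := by exact_mod_cast h5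
  have b1 : (u * l) ^ j / j.factorial ≤ 1 / log X ^ (A + 1) := by
    refine (pow_fact_le (by positivity) j).trans ?_
    rw [← exp_neg_ll l0]
    gcongr
    push_cast
    linarith
  have b2 : (1 + z ^ 2) ^ j ≤ X / log X ^ A / 2 := by
    have : 1 + z ^ 2 ≤ z ^ 3 := by nlinarith [one_le_pow₀ (n := 2) (by linarith : 1 ≤ z)]
    refine (pow_le_pow_left₀ (by positivity) this j).trans ?_
    rw [div_div, le_div_iff₀ (by positivity), ← log_le_log_iff (by positivity) X0,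
      log_mul (by positivity) (by positivity), log_mul (by positivity) (by positivity),
      log_pow, log_pow, log_pow, hz, zz, log_exp]
    rw [rpow_one] at h6 h7
    rw [rpow_zero] at h7
    have := log_two_lt_d9
    have : (j : ℝ) * (((3 : ℕ) : ℝ) * log X ^ (24 / 25 : ℝ)) ≤
      ((3 * u + A + 3) * l) * (((3 : ℕ) : ℝ) * log X ^ (24 / 25 : ℝ)) := by gcongr
    push_cast at this ⊢
    nlinarith
  have b3 : 2 * X * (1 / log X ^ (A + 1)) ≤ X / log X ^ A / 2 := by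
    rw [div_div, mul_one_div, div_le_div_iff₀ (by positivity) (by positivity), pow_succ _ A]
    nlinarith [mul_pos X0 (pow_pos l0 A)]
  have : 2 * X * ((u * l) ^ j / j.factorial) ≤ 2 * X * (1 / log X ^ (A + 1)) := by gcongr
  linarith

end

section
open Finset Filter Topology Real
open Classical

/-- the indicator of the sifted integers -/
noncomputable def nu (I : Finset ℕ) (n : ℤ) : ℝ := ind (∀ p ∈ I, ¬ (p : ℤ) ∣ n)

/-- the component of the sifted indicator attached to a set of primes -/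
noncomputable def ES (I S : Finset ℕ) : ℤ → ℝ :=
  ZZ I (fun p => if p ∈ S then 0 else 1 - (p : ℝ)⁻¹) fun p => if p ∈ S then 1 else 0

/-- the sets of primes with small product -/
def SQ (I : Finset ℕ) (Q : ℕ) : Finset (Finset ℕ) := I.powerset.filter fun S => ∏ p ∈ S, p ≤ Q

lemma nu_eq (I : Finset ℕ) (n : ℤ) : nu I n = ZZ I (fun p => 1 - (p : ℝ)⁻¹) (fun _ => 1) n := by
  rw [ZZ, prod_congr rfl (g := fun p : ℕ => ind (¬ (p : ℤ) ∣ n)) fun p _ => by
    by_cases d : (p : ℤ) ∣ n <;> simp [ep, ind, d], nu]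
  by_cases e : ∀ p ∈ I, ¬ (p : ℤ) ∣ n
  · rw [ind_pos e, prod_eq_one fun p hp => ind_pos (e p hp)]
  · rw [ind_neg e]
    push Not at e
    obtain ⟨p, hp, e⟩ := e
    exact (prod_eq_zero hp (ind_neg (not_not.2 e))).symm

lemma adm_ES {S U : Finset ℕ} (h : S ⊆ U) :
    Adm U (fun p => if p ∈ S then 0 else 1 - (p : ℝ)⁻¹) fun p => if p ∈ S then 1 else 0 := fun p => by
  by_cases e : p ∈ S
  · exact .inr ⟨h e, if_pos e, if_pos e⟩
  · exact .inl ⟨if_neg e, .inr (if_neg e)⟩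

lemma adm_nu (U : Finset ℕ) : Adm U (fun p => 1 - (p : ℝ)⁻¹) fun _ => 1 :=
  fun _ => .inl ⟨rfl, .inl rfl⟩

lemma ES_le (I S : Finset ℕ) (n : ℤ) : |ES I S n| ≤ 1 := by
  rw [ES, ZZ, abs_prod]
  exact prod_le_one (fun _ _ => abs_nonneg _) fun p _ => (adm_ES (Subset.refl S)).le p n

lemma ES_per (I S : Finset ℕ) {a b : ℤ} (h : ((∏ p ∈ S, p : ℕ) : ℤ) ∣ b - a) :
    ES I S a = ES I S b := by
  refine prod_congr rfl fun p _ => ?_
  by_cases e : p ∈ S
  · simp only [ep]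
    rw [dvd_iff_dvd_of_dvd_sub ((Int.natCast_dvd_natCast.2 (dvd_prod_of_mem (fun p => p) e)).trans h)]
  · simp only [if_neg e, zero_mul]

lemma SQ_card {I : Finset ℕ} (hI : ∀ p ∈ I, p.Prime) (Q : ℕ) : (SQ I Q).card ≤ Q := by
  have pr : ∀ S ∈ SQ I Q, ∀ p ∈ S, p.Prime := fun S hS p hp =>
    hI p (mem_powerset.1 (mem_filter.1 hS).1 hp)
  refine (card_le_card_of_injOn (t := Icc 1 Q) (fun S => ∏ p ∈ S, p) (fun S hS => ?_)
    fun S hS T hT e => ?_).trans (by simp)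
  · exact mem_coe.2 (mem_Icc.2 ⟨prod_pos fun p hp => (pr S hS p hp).pos, (mem_filter.1 hS).2⟩)
  · rw [← Nat.primeFactors_prod (pr S hS), ← Nat.primeFactors_prod (pr T hT)]
    exact congrArg _ e

/-- the main term attached to a set of primes -/
noncomputable def mS (I : Finset ℕ) (τ : ℤ) (S : Finset ℕ) : ℝ :=
  (∏ p ∈ S, gm τ p) * ∏ p ∈ I \ S, (1 - (p : ℝ)⁻¹) * (1 - (p : ℝ)⁻¹)

lemma mS_eq {I S : Finset ℕ} (h : S ⊆ I) (τ : ℤ) {f : ℕ → ℝ} (h1 : ∀ p ∈ S, f p = gm τ p)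
    (h2 : ∀ p ∉ S, f p = (1 - (p : ℝ)⁻¹) * (1 - (p : ℝ)⁻¹)) : ∏ p ∈ I, f p = mS I τ S := by
  rw [← prod_sdiff h, mul_comm, prod_congr rfl h1, prod_congr rfl fun p hp =>
    h2 p (mem_sdiff.1 hp).2, mS]

theorem auto {X Q : ℕ} {I : Finset ℕ} {Λ err v : ℝ} (hI : ∀ p ∈ I, p.Prime) (hB : Box X I Λ err)
    (e0 : 0 ≤ err) (Q1 : 1 ≤ Q) (v0 : 0 ≤ v) (hv : ∀ S ∈ SQ I Q, (S.card : ℝ) ≤ v)
    (hΛ : 2 * ∑ p ∈ I, (p : ℝ)⁻¹ + 2 * v ≤ Λ) (τ : ℤ) :
    |∑ n ∈ Ioc (X : ℤ) (2 * X), (nu I n - ∑ S ∈ SQ I Q, ES I S n) *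
      (nu I (n + τ) - ∑ S ∈ SQ I Q, ES I S (n + τ)) - X * ∑ S ∈ I.powerset \ SQ I Q, mS I τ S| ≤
      4 * Q ^ 4 * err := by
  have sub : ∀ S ∈ SQ I Q, S ⊆ I := fun S hS => mem_powerset.1 (mem_filter.1 hS).1
  have Q0 : (1 : ℝ) ≤ Q := by exact_mod_cast Q1
  have pq : ∀ S ∈ SQ I Q, ∏ p ∈ S, (p : ℝ) ≤ Q := fun S hS => by
    rw [← Nat.cast_prod]; exact Nat.cast_le.2 (mem_filter.1 hS).2
  have c : ((SQ I Q).card : ℝ) ≤ Q := by exact_mod_cast SQ_card hI Q
  have t1 := corr hI hB (empty_subset I) (by simpa using by linarith) τ (adm_nu ∅) (adm_nu ∅)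
  rw [prod_congr rfl fun p _ => add_comm _ _, prod_add, prod_empty, one_mul] at t1
  simp only [one_mul, ← nu_eq] at t1
  have t2 : |∑ S ∈ SQ I Q, (∑ n ∈ Ioc (X : ℤ) (2 * X), nu I n * ES I S (n + τ) - X * mS I τ S)| ≤
      Q * (Q * err) := by
    refine (abs_sum_le_sum_abs _ _).trans ((sum_le_card_nsmul _ _ (Q * err) fun S hS => ?_).trans
      (by rw [nsmul_eq_mul]; gcongr))
    have := corr hI hB (sub S hS) (by linarith [hv S hS]) τ (adm_nu S) (adm_ES (Subset.refl S))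
    rw [mS_eq (sub S hS) τ (fun p hp => by simp [hp]) fun p hp => by simp [hp]] at this
    simp only [← nu_eq] at this
    exact this.trans (mul_le_mul_of_nonneg_right (pq S hS) e0)
  have t3 : |∑ S ∈ SQ I Q, (∑ n ∈ Ioc (X : ℤ) (2 * X), ES I S n * nu I (n + τ) - X * mS I τ S)| ≤
      Q * (Q * err) := by
    refine (abs_sum_le_sum_abs _ _).trans ((sum_le_card_nsmul _ _ (Q * err) fun S hS => ?_).trans
      (by rw [nsmul_eq_mul]; gcongr))
    have := corr hI hB (sub S hS) (by linarith [hv S hS]) τ (adm_ES (Subset.refl S)) (adm_nu S)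
    rw [mS_eq (sub S hS) τ (fun p hp => by simp [hp]) fun p hp => by simp [hp]] at this
    simp only [← nu_eq] at this
    exact this.trans (mul_le_mul_of_nonneg_right (pq S hS) e0)
  have t4 : |∑ S ∈ SQ I Q, ∑ T ∈ SQ I Q, (∑ n ∈ Ioc (X : ℤ) (2 * X), ES I S n * ES I T (n + τ) -
      X * if S = T then mS I τ S else 0)| ≤ Q * (Q * (Q * Q * err)) := by
    refine (abs_sum_le_sum_abs _ _).trans ((sum_le_card_nsmul _ _ (Q * (Q * Q * err))
      fun S hS => (abs_sum_le_sum_abs _ _).trans ((sum_le_card_nsmul _ _ (Q * Q * err)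
      fun T hT => ?_).trans (by rw [nsmul_eq_mul]; gcongr))).trans (by rw [nsmul_eq_mul]; gcongr))
    have cu : ((S ∪ T).card : ℝ) ≤ S.card + T.card := by exact_mod_cast card_union_le S T
    have := corr hI hB (union_subset (sub S hS) (sub T hT)) (by linarith [hv S hS, hv T hT]) τ
      (adm_ES (subset_union_left (s₂ := T))) (adm_ES (subset_union_right (s₁ := S)))
    refine le_trans (le_of_eq ?_) (this.trans (mul_le_mul_of_nonneg_right ?_ e0))
    · congr 3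
      split_ifs with e
      · subst e
        exact (mS_eq (sub S hS) τ (fun p hp => by simp [hp]) fun p hp => by simp [hp]).symm
      · obtain ⟨p, hp⟩ : ∃ p, ¬ (p ∈ S ↔ p ∈ T) := not_forall.1 fun a => e (Finset.ext a)
        by_cases a : p ∈ S
        · have b : p ∉ T := fun b => hp ⟨fun _ => b, fun _ => a⟩
          exact (prod_eq_zero (sub S hS a) (by simp [a, b])).symm
        · have b : p ∈ T := not_not.1 fun b => hp ⟨fun c => absurd c a, fun c => absurd c b⟩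
          exact (prod_eq_zero (sub T hT b) (by simp [a, b])).symm
    · refine le_trans ?_ (mul_le_mul (pq S hS) (pq T hT) (by positivity) (by positivity))
      rw [← prod_union_inter]
      exact le_mul_of_one_le_right (by positivity) (by
        rw [← Nat.cast_prod]
        exact Nat.one_le_cast.2 (prod_pos fun p hp => (hI p (sub S hS (mem_inter.1 hp).1)).pos))
  simp only [sum_sub_distrib, ← mul_sum, sum_ite_eq] at t2 t3 t4
  rw [sum_congr rfl fun S hS => if_pos hS] at t4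
  have e : ∑ n ∈ Ioc (X : ℤ) (2 * X), (nu I n - ∑ S ∈ SQ I Q, ES I S n) *
      (nu I (n + τ) - ∑ S ∈ SQ I Q, ES I S (n + τ)) =
      ∑ n ∈ Ioc (X : ℤ) (2 * X), nu I n * nu I (n + τ) -
      ∑ S ∈ SQ I Q, ∑ n ∈ Ioc (X : ℤ) (2 * X), nu I n * ES I S (n + τ) -
      ∑ S ∈ SQ I Q, ∑ n ∈ Ioc (X : ℤ) (2 * X), ES I S n * nu I (n + τ) +
      ∑ S ∈ SQ I Q, ∑ T ∈ SQ I Q, ∑ n ∈ Ioc (X : ℤ) (2 * X), ES I S n * ES I T (n + τ) := by
    simp only [sum_comm (s := SQ I Q) (t := Ioc (X : ℤ) (2 * X))]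
    rw [← sum_sub_distrib, ← sum_sub_distrib, ← sum_add_distrib]
    refine sum_congr rfl fun n _ => ?_
    rw [← mul_sum, ← sum_mul, ← sum_mul_sum]
    ring
  rw [e, sum_sdiff_eq_sub (show SQ I Q ⊆ I.powerset from filter_subset _ _)]
  have a1 : err ≤ Q ^ 4 * err := le_mul_of_one_le_left e0 (one_le_pow₀ Q0)
  have a2 : Q * (Q * err) ≤ Q ^ 4 * err := by
    rw [← mul_assoc, ← sq]; gcongr; norm_num
  change |_ - X * ∑ S ∈ I.powerset, mS I τ S| ≤ _ at t1
  change |_ - X * ∑ S ∈ SQ I Q, mS I τ S| ≤ _ at t4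
  rw [abs_le] at t1 t2 t3 t4 ⊢
  constructor <;> linarith [t1.1, t1.2, t2.1, t2.2, t3.1, t3.2, t4.1, t4.2]

lemma main_le (I : Finset ℕ) (Q : ℕ) (τ : ℤ) {r : ℕ → ℝ} {c : ℝ} (c0 : 0 ≤ c) (r0 : ∀ p, 0 ≤ r p)
    (h : ∀ S ∈ I.powerset \ SQ I Q, 1 ≤ c * ∏ p ∈ S, r p) :
    |∑ S ∈ I.powerset \ SQ I Q, mS I τ S| ≤ c * ∏ p ∈ I, (1 + r p * |gm τ p|) := by
  rw [prod_one_add, mul_sum]
  refine (abs_sum_le_sum_abs _ _).trans ((sum_le_sum fun S hS => ?_).trans
    (sum_le_sum_of_subset_of_nonneg sdiff_subset fun _ _ _ =>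
      mul_nonneg c0 (prod_nonneg fun p _ => mul_nonneg (r0 p) (abs_nonneg _))))
  rw [prod_mul_distrib, ← mul_assoc, mS, abs_mul, abs_prod]
  have g0 : 0 ≤ ∏ p ∈ S, |gm τ p| := prod_nonneg fun _ _ => abs_nonneg _
  refine (mul_le_of_le_one_right g0 ?_).trans (le_mul_of_one_le_left g0 (h S hS))
  rw [abs_prod]
  refine prod_le_one (fun _ _ => abs_nonneg _) fun p _ => ?_
  have a0 : 0 ≤ (p : ℝ)⁻¹ := by positivity
  have a1 : (p : ℝ)⁻¹ ≤ 1 := Nat.cast_inv_le_one p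
  rw [abs_mul_self]
  nlinarith

lemma gm_le (τ : ℤ) (p : ℕ) : |gm τ p| ≤ (p : ℝ)⁻¹ := by
  have a0 : 0 ≤ (p : ℝ)⁻¹ := by positivity
  have a1 : (p : ℝ)⁻¹ ≤ 1 := Nat.cast_inv_le_one p
  unfold gm
  split_ifs <;> rw [abs_le] <;> constructor <;> nlinarith

lemma prod_gm (I : Finset ℕ) (τ : ℤ) :
    ∏ p ∈ I, (1 + 1 * |gm τ p|) ≤ exp (∑ p ∈ I, (p : ℝ)⁻¹) := by
  rw [exp_sum]
  exact prod_le_prod (fun _ _ => by positivity) fun p _ => by
    linarith [gm_le τ p, add_one_le_exp (p : ℝ)⁻¹]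

lemma prod_gm' (I : Finset ℕ) (hI : ∀ p ∈ I, p.Prime) (τ : ℤ) : ∏ p ∈ I, (1 + √p * |gm τ p|) ≤
    2 ^ (I.filter fun p : ℕ => (p : ℤ) ∣ τ).card * exp (∑ p ∈ I, (p : ℝ)⁻¹) := by
  rw [exp_sum, ← prod_const, prod_filter, ← prod_mul_distrib]
  refine prod_le_prod (fun _ _ => by positivity) fun p hp => ?_
  have p1 : (1 : ℝ) ≤ p := by exact_mod_cast (hI p hp).pos
  have a : √p * (p : ℝ)⁻¹ ≤ 1 := by
    rw [← div_eq_mul_inv, div_le_one (by linarith)]; exact sqrt_le_self_iff.2 (.inr p1)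
  have b := add_one_le_exp (p : ℝ)⁻¹
  have c : 0 ≤ (p : ℝ)⁻¹ := by positivity
  split_ifs with d
  · nlinarith [mul_le_mul_of_nonneg_left (gm_le τ p) (sqrt_nonneg p)]
  · rw [gm, if_neg d, zero_sub, abs_neg, abs_of_nonneg (sq_nonneg _)]
    nlinarith

lemma two_om (A : ℕ) : ∀ᶠ X : ℕ in atTop, ∀ τ : ℤ, τ ≠ 0 → |(τ : ℝ)| ≤ log X ^ A →
    ∀ I : Finset ℕ, (∀ p ∈ I, p.Prime) →
      (2 : ℝ) ^ (I.filter fun p : ℕ => (p : ℤ) ∣ τ).card ≤ log X := by
  filter_upwards [tl.eventually_ge_atTop ((2 ^ (4 ^ (A + 1))) ^ 2), tl.eventually_ge_atTop 1]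
    with X h l1 τ τ0 hτ I hI
  set J := (I.filter fun p : ℕ => (p : ℤ) ∣ τ).filter fun p => ¬ p < 4 ^ (A + 1) with hJ
  have a : (I.filter fun p : ℕ => (p : ℤ) ∣ τ).card ≤ 4 ^ (A + 1) + J.card := by
    rw [← card_filter_add_card_filter_not (fun p => p < 4 ^ (A + 1))]
    exact Nat.add_le_add_right ((card_le_card (t := range (4 ^ (A + 1))) fun p hp =>
      mem_range.2 (mem_filter.1 hp).2).trans (card_range _).le) _
  have pr : ∀ p ∈ J, p.Prime := fun p hp => hI p (mem_filter.1 (mem_filter.1 hp).1).1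
  have b : ∏ p ∈ J, (p : ℤ) ∣ τ := prod_dvd_of_coprime (fun p hp q hq e =>
    Nat.isCoprime_iff_coprime.2 ((Nat.coprime_primes (pr p hp) (pr q hq)).2 e))
    fun p hp => (mem_filter.1 (mem_filter.1 hp).1).2
  have c : ∏ p ∈ J, (p : ℝ) ≤ |(τ : ℝ)| := by
    have := (Int.cast_le (R := ℝ)).2 (Int.le_of_dvd (abs_pos.2 τ0) ((dvd_abs _ _).2 b))
    simpa using this
  have d : ((4 : ℝ) ^ (A + 1)) ^ J.card ≤ ∏ p ∈ J, (p : ℝ) := by
    rw [← prod_const]
    exact prod_le_prod (fun _ _ => by positivity) fun p hp => by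
      exact_mod_cast not_lt.1 (mem_filter.1 hp).2
  have e : ((2 : ℝ) ^ J.card) ^ 2 ≤ log X := by
    refine le_of_pow_le_pow_left₀ (Nat.succ_ne_zero A) (by linarith) (le_trans (le_of_eq ?_)
      (d.trans (c.trans (hτ.trans (pow_le_pow_right₀ l1 A.le_succ)))))
    rw [show (4 : ℝ) = 2 ^ 2 by norm_num]
    simp only [← pow_mul]
    congr 1
    rw [Nat.succ_eq_add_one]; ring
  refine (pow_le_pow_right₀ one_le_two a).trans (le_of_sq_le_sq ?_ (by linarith))
  rw [pow_add, mul_pow, sq (log X)]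
  exact mul_le_mul h e (by positivity) (by linarith)

end

section
open Finset Filter Topology Real
open Classical

/-- the level of the approximant -/
noncomputable def QL (E X : ℕ) : ℕ := ⌊log X ^ (4 * E + 10)⌋₊ + 1

lemma QL_le {E X : ℕ} (h : 2 ≤ log X) : (QL E X : ℝ) ≤ log X ^ (4 * E + 11) := by
  have a := Nat.floor_le (show 0 ≤ log X ^ (4 * E + 10) by positivity)
  have b := one_le_pow₀ (n := 4 * E + 10) (show 1 ≤ log X by linarith)
  rw [QL, pow_succ _ (4 * E + 10)]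
  push_cast
  nlinarith

theorem sieve_cs (E A : ℕ) : ∀ᶠ X : ℕ in atTop, ∀ I : Finset ℕ,
    (∀ p ∈ I, p.Prime ∧ (p : ℝ) ≤ zz X) → ∀ L : ℕ, log X ^ (2 * E + 5) ≤ L → L ≤ log X ^ A →
    ∀ (G : ℤ → ℝ) (g : ℝ), 0 ≤ g → (∀ n ∈ Ioc (X : ℤ) (2 * X), |G n| ≤ g) →
    ∑ t ∈ Icc (1 : ℤ) L, |∑ n ∈ Ioc (X : ℤ) (2 * X), G n *
      (nu I (n + t) - ∑ S ∈ SQ I (QL E X), ES I S (n + t))| ≤ g * (L * (X / log X ^ E)) := by
  filter_upwards [box_ev (16 * E + 48) (18 * E + 48), two_om A, sum_inv_le (a := 24 / 25) (by norm_num),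
    tll.eventually_ge_atTop 72, tl.eventually_ge_atTop (max 3 (exp 72)), eventually_gt_atTop 0,
    ev_pw 32 (A + 10 * E + 24)] with X h1 h2 h3 h4 h5 h6 h7 I hI L L1 L2 G g g0 hG
  have l3 := (le_max_left _ _).trans h5
  have l0 : 0 < log X := by linarith
  have l1 : 1 ≤ log X := by linarith
  have X0 : (0 : ℝ) < X := by exact_mod_cast h6
  have pr := fun p hp => (hI p hp).1
  have Q2 := QL_le (E := E) (show 2 ≤ log X by linarith)
  set Q := QL E X with hQ
  have Q1 : 1 ≤ Q := Nat.succ_pos _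
  have Q0 : (1 : ℝ) ≤ Q := by exact_mod_cast Q1
  have si := h3 I hI
  have ex : exp (∑ p ∈ I, (p : ℝ)⁻¹) ≤ log X ^ 2 := by
    refine (exp_le_exp.2 (show _ ≤ log (log X) + 72 by linarith)).trans ?_
    rw [exp_add, exp_log l0, sq]
    exact mul_le_mul_of_nonneg_left ((le_max_right _ _).trans h5) l0.le
  let D : ℤ → ℝ := fun n => nu I n - ∑ S ∈ SQ I Q, ES I S n
  have D1 : ∀ n, |D n| ≤ 2 * log X ^ (4 * E + 11) := fun n => by
    have a : |∑ S ∈ SQ I Q, ES I S n| ≤ Q := (abs_sum_le_sum_abs _ _).trans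
      ((sum_le_card_nsmul _ _ 1 fun S _ => ES_le I S n).trans (by simpa using SQ_card pr Q))
    have b : |nu I n| ≤ 1 := by rw [nu, abs_of_nonneg (ind_nonneg _)]; exact ind_le _
    exact (abs_sub _ _).trans (by linarith)
  have key : ∀ t ∈ Icc (1 : ℤ) L, ∀ t', |∑ n ∈ Ioc (X : ℤ) (2 * X), D (n + t) * D (n + t')| ≤
      X * |∑ S ∈ I.powerset \ SQ I Q, mS I (t' - t) S| + 2 * (X / log X ^ (2 * E + 2)) := by
    intro t ht t'
    rw [mem_Icc] at ht
    have a := auto pr (h1 I hI) (by positivity) Q1 (v := 2 * (4 * E + 11) * log (log X))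
      (by positivity) (fun S hS => by
        have b : (2 : ℝ) ^ S.card ≤ Q := by
          exact_mod_cast (pow_card_le_prod S _ 2 fun p hp =>
            (pr p (mem_powerset.1 (mem_filter.1 hS).1 hp)).two_le).trans (mem_filter.1 hS).2
        have := log_le_log (by positivity) (b.trans Q2)
        rw [log_pow, log_pow] at this
        push_cast at this
        nlinarith [log_two_gt_d9, S.card.cast_nonneg (α := ℝ)]) (by push_cast; nlinarith) (t' - t)
    have sh := SPTwo_shift (fun m => ((D m * D (m + (t' - t)) : ℝ) : ℂ)) X (2 * X) t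
      (B := 2 * log X ^ (4 * E + 11) * (2 * log X ^ (4 * E + 11))) (by positivity) fun m _ => by
        rw [Complex.norm_real, norm_eq_abs, abs_mul]
        exact mul_le_mul (D1 _) (D1 _) (abs_nonneg _) (by positivity)
    rw [← map_add_right_Ioc, sum_map] at sh
    simp only [addRightEmbedding_apply, add_add_sub_cancel] at sh
    rw [← Complex.ofReal_sum, ← Complex.ofReal_sum, ← Complex.ofReal_sub, Complex.norm_real,
      norm_eq_abs] at sh
    have e1 : 4 * (Q : ℝ) ^ 4 * (X / log X ^ (18 * E + 48)) ≤ X / log X ^ (2 * E + 2) := by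
      calc _ ≤ log X ^ 2 * (log X ^ (4 * E + 11)) ^ 4 * (X / log X ^ (18 * E + 48)) := by
            gcongr; nlinarith
        _ = _ := by field_simp; ring
    have e2 : 8 * |(t : ℝ)| * (2 * log X ^ (4 * E + 11) * (2 * log X ^ (4 * E + 11))) ≤
        X / log X ^ (2 * E + 2) := by
      have : (t : ℝ) ≤ log X ^ A := le_trans (by exact_mod_cast ht.2) L2
      rw [abs_of_nonneg (by exact_mod_cast (by omega : 0 ≤ t)), le_div_iff₀ (by positivity)]
      calc _ ≤ 8 * log X ^ A * (2 * log X ^ (4 * E + 11) * (2 * log X ^ (4 * E + 11))) *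
            log X ^ (2 * E + 2) := by gcongr
        _ = 32 * log X ^ (A + 10 * E + 24) := by ring
        _ ≤ X := h7
    have b := abs_sub_abs_le_abs_sub (∑ n ∈ Ioc (X : ℤ) (2 * X), D n * D (n + (t' - t)))
      (X * ∑ S ∈ I.powerset \ SQ I Q, mS I (t' - t) S)
    have c := abs_sub_abs_le_abs_sub (∑ n ∈ Ioc (X : ℤ) (2 * X), D (n + t) * D (n + t'))
      (∑ n ∈ Ioc (X : ℤ) (2 * X), D n * D (n + (t' - t)))
    rw [abs_mul, abs_of_pos X0] at b
    linarith
  have cI : ((Icc (1 : ℤ) L).card : ℝ) = L := by simp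
  have cs : ((Ioc (X : ℤ) (2 * X)).card : ℝ) = X := by
    rw [Int.card_Ioc, show 2 * (X : ℤ) - X = X by ring]; simp
  refine dual_cs _ _ G D (a := 3 * (X * log X ^ 2)) (γ := 3 * (X / log X ^ (2 * E + 2)))
    (by positivity) (by positivity) hG (fun t ht => ?_) (fun t ht t' ht' n => ?_) ?_ g0
  · have a := mul_le_mul_of_nonneg_left ((main_le I Q (t - t) (r := fun _ => 1) one_pos.le
      (fun _ => one_pos.le) fun S _ => by simp).trans ((one_mul _).le.trans
      ((prod_gm I _).trans ex))) X0.le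
    have b : (X : ℝ) / log X ^ (2 * E + 2) ≤ X * log X ^ 2 :=
      (div_le_self X0.le (one_le_pow₀ l1)).trans (le_mul_of_one_le_right X0.le (one_le_pow₀ l1))
    simp only [sq (D _)]
    linarith [key t ht t, le_abs_self (∑ n ∈ Ioc (X : ℤ) (2 * X), D (n + t) * D (n + t))]
  · have q : log X ^ (2 * E + 5) ≤ √Q := le_sqrt_of_sq_le (by
      rw [← pow_mul, show (2 * E + 5) * 2 = 4 * E + 10 by ring, hQ, QL]
      push_cast
      exact (Nat.lt_floor_add_one _).le)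
    have q0 : 0 < √(Q : ℝ) := sqrt_pos.2 (by linarith)
    have a := (main_le I Q (t' - t) (r := fun p => √p) (c := (√Q)⁻¹) (by positivity)
      (fun _ => sqrt_nonneg _) fun S hS => by
        rw [← sqrt_prod _ fun _ _ => Nat.cast_nonneg _, ← div_eq_inv_mul, one_le_div q0,
          ← Nat.cast_prod]
        refine sqrt_le_sqrt (Nat.cast_le.2 (not_le.1 fun c => (mem_sdiff.1 hS).2 ?_).le)
        exact mem_filter.2 ⟨(mem_sdiff.1 hS).1, c⟩).trans (mul_le_mul_of_nonneg_left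
      ((prod_gm' I pr _).trans (mul_le_mul (h2 _ (sub_ne_zero.2 n.symm) (by
        rw [mem_Icc] at ht ht'
        refine le_trans ?_ L2
        exact_mod_cast (abs_le.2 ⟨by omega, by omega⟩ : |t' - t| ≤ L)) I pr) ex (exp_pos _).le
        l0.le)) (by positivity))
    have b : (X : ℝ) * ((√Q)⁻¹ * (log X * log X ^ 2)) ≤ X / log X ^ (2 * E + 2) := by
      calc _ ≤ X * ((log X ^ (2 * E + 5))⁻¹ * (log X * log X ^ 2)) := by gcongr
        _ = _ := by field_simp; ring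
    linarith [key t ht t', mul_le_mul_of_nonneg_left a X0.le]
  · rw [cI, cs]
    have L0 : (0 : ℝ) < L := lt_of_lt_of_le (by positivity) L1
    have e1 : (L : ℝ) * (3 * (X * log X ^ 2)) ≤ L ^ 2 * (3 * (X / log X ^ (2 * E + 2))) := by
      rw [sq (L : ℝ), mul_assoc, mul_left_comm (L : ℝ) 3 (X / _), ← mul_div_assoc]
      gcongr
      rw [le_div_iff₀ (by positivity), mul_comm (L : ℝ), mul_assoc, ← pow_add]
      gcongr
      exact (pow_le_pow_right₀ l1 (by omega)).trans L1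
    calc _ ≤ X * (L ^ 2 * (3 * (X / log X ^ (2 * E + 2))) +
          L ^ 2 * (3 * (X / log X ^ (2 * E + 2)))) := by gcongr
      _ = (L * (X / log X ^ E)) ^ 2 * (6 / log X ^ 2) := by field_simp; ring
      _ ≤ _ := mul_le_of_le_one_right (sq_nonneg _) ((div_le_one (by positivity)).2 (by nlinarith))

/-- the odd sifting primes -/
noncomputable def PO (z : ℝ) : Finset ℕ := (PP z).erase 2

/-- the admissible square parts -/
noncomputable def DD (z : ℝ) (Y : ℕ) : Finset ℕ := (Icc 1 Y).filter fun d => d.primeFactors ⊆ PO z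

/-- exact divisibility by an even power -/
def Ex (p v : ℕ) (n : ℤ) : Prop := (p : ℤ) ^ (2 * v) ∣ n ∧ ¬ (p : ℤ) ^ (2 * v + 1) ∣ n

/-- the periodic part of the local conditions -/
noncomputable def ph (α d : ℕ) (n : ℤ) : ℝ :=
  ind (Loc (2 ^ α) n ∧ ∀ p ∈ d.primeFactors, Ex p (d.factorization p) n)

/-- a minorant of the local conditions -/
noncomputable def nm (z : ℝ) (α Y : ℕ) (n : ℤ) : ℝ :=
  ∑ d ∈ DD z Y, ph α d n * nu (PO z \ d.primeFactors) n

lemma ph_nu {z : ℝ} {Y d : ℕ} (hd : d ∈ DD z Y) (α : ℕ) (n : ℤ) :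
    ph α d n * nu (PO z \ d.primeFactors) n =
      ind (Loc (2 ^ α) n ∧ ∀ p ∈ PO z, Ex p (d.factorization p) n) := by
  rw [ph, nu, ← ind_and]
  have f : ∀ p ∉ d.primeFactors, d.factorization p = 0 := fun p hp =>
    Finsupp.notMem_support_iff.1 (by rwa [Nat.support_factorization])
  refine congrArg _ (propext ⟨fun h => ⟨h.1.1, fun p hp => ?_⟩, fun h => ⟨⟨h.1, fun p hp =>
    h.2 p ((mem_filter.1 hd).2 hp)⟩, fun p hp => ?_⟩⟩)
  · by_cases e : p ∈ d.primeFactors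
    · exact h.1.2 p e
    · rw [f p e]; exact ⟨by simp, by simpa using h.2 p (mem_sdiff.2 ⟨hp, e⟩)⟩
  · simpa [f p (mem_sdiff.1 hp).2] using (h.2 p (mem_sdiff.1 hp).1).2

lemma nm_bd (z : ℝ) (α Y : ℕ) (n : ℤ) : 0 ≤ nm z α Y n ∧ nm z α Y n ≤ ind (AA z α n) := by
  rw [nm, sum_congr rfl fun d hd => ph_nu hd α n]
  refine ⟨sum_nonneg fun _ _ => ind_nonneg _, ?_⟩
  by_cases e : ∃ d ∈ DD z Y, Loc (2 ^ α) n ∧ ∀ p ∈ PO z, Ex p (d.factorization p) n
  swap
  · rw [sum_eq_zero fun d hd => ind_neg fun h => e ⟨d, hd, h⟩]; exact ind_nonneg _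
  obtain ⟨d, hd, h⟩ := e
  have f : ∀ d ∈ DD z Y, ∀ p ∉ PO z, d.factorization p = 0 := fun d hd p hp =>
    Finsupp.notMem_support_iff.1 fun a => hp ((mem_filter.1 hd).2 a)
  have f0 : ∀ d ∈ DD z Y, d ≠ 0 := fun d hd => by
    have := (mem_Icc.1 (mem_filter.1 hd).1).1; omega
  rw [sum_eq_single_of_mem d hd fun d' hd' ne => ind_neg fun h' => ne
    (Nat.eq_of_factorization_eq (f0 _ hd') (f0 _ hd) fun p => ?_), ind_pos h,
    ind_pos (show AA z α n from fun p hp => ?_)]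
  · by_cases h2 : p = 2
    · rw [h2]; exact h.1
    · obtain ⟨⟨c, rfl⟩, b⟩ := h.2 p (mem_erase.2 ⟨h2, hp⟩)
      refine S2.mul_loc ⟨p ^ d.factorization p, 0, by ring⟩ (loc_odd (mem_filter.1 hp).2.1 h2
        fun a => b ?_)
      rw [pow_succ]
      exact mul_dvd_mul_left _ a
  · by_cases hp : p ∈ PO z
    · have a := h.2 p hp
      have b := h'.2 p hp
      by_contra c
      rcases Nat.lt_or_gt_of_ne c with c | c
      · exact b.2 ((pow_dvd_pow _ (by omega)).trans a.1)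
      · exact a.2 ((pow_dvd_pow _ (by omega)).trans b.1)
    · rw [f _ hd p hp, f _ hd' p hp]

lemma loc_even {p α : ℕ} (hp : p.Prime) (h4 : p % 4 = 3) {a : ℤ} (h : Loc (p ^ (α + 2)) a)
    (hd : ¬ (p : ℤ) ^ (α + 1) ∣ a) : ∃ v, Ex p v a := by
  obtain ⟨u, v, e⟩ := h
  obtain ⟨t, ht⟩ := Int.eq_ofNat_of_zero_le (show 0 ≤ u ^ 2 + v ^ 2 by positivity)
  have f : ∀ i ≤ α + 2, (p : ℤ) ^ i ∣ a ↔ p ^ i ∣ t := fun i hi => by
    rw [dvd_iff_dvd_of_dvd_sub ((pow_dvd_pow (p : ℤ) hi).trans (by exact_mod_cast e)), ht]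
    exact_mod_cast Iff.rfl
  rw [f _ (by omega)] at hd
  have t0 : t ≠ 0 := by rintro rfl; exact hd (dvd_zero _)
  obtain ⟨m, hm⟩ := s2_iff.1 (⟨u, v, ht.symm⟩ : S2 t) p hp h4
  rw [hp.pow_dvd_iff_le_factorization t0] at hd
  refine ⟨m, ?_, ?_⟩ <;> rw [f _ (by omega), hp.pow_dvd_iff_le_factorization t0] <;> omega

lemma nm_lo {z : ℝ} (hz : 2 ≤ z) {α Y : ℕ} {n : ℤ} (h : AA z (α + 2) n)
    (h1 : ¬ ∃ d : ℕ, Y < d ∧ (d : ℤ) ^ 2 ∣ n) (h2 : ¬ ∃ d : ℕ, 2 ≤ d ∧ (d : ℤ) ^ (α + 1) ∣ n) :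
    1 ≤ nm z (α + 2) Y n := by
  have pr : ∀ p ∈ PO z, p.Prime := fun p hp => (mem_filter.1 (mem_erase.1 hp).2).2.1
  have : ∀ p, ∃ v, p ∈ PO z → Ex p v n := fun p => by
    by_cases hp : p ∈ PO z
    · obtain ⟨a, b⟩ := mem_erase.1 hp
      have := (pr p hp).eq_two_or_odd
      have := (mem_filter.1 b).2.2
      exact (loc_even (pr p hp) (by omega) (h p b) fun d => h2 ⟨p, (pr p hp).two_le, d⟩).imp
        fun _ c _ => c
    · exact ⟨0, fun a => absurd a hp⟩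
  choose v hv using this
  have d0 : ∏ p ∈ PO z, p ^ v p ≠ 0 := prod_ne_zero_iff.2 fun p hp => pow_ne_zero _ (pr p hp).ne_zero
  have f : ∀ q ∈ PO z, (∏ p ∈ PO z, p ^ v p).factorization q = v q := fun q hq => by
    rw [Nat.factorization_prod fun p hp => pow_ne_zero _ (pr p hp).ne_zero, Finsupp.finsetSum_apply,
      sum_eq_single_of_mem q hq fun p hp ne => by
        rw [(pr p hp).factorization_pow, Finsupp.single_eq_of_ne ne.symm],
      (pr q hq).factorization_pow, Finsupp.single_eq_same]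
  have hd : ∏ p ∈ PO z, p ^ v p ∈ DD z Y := by
    refine mem_filter.2 ⟨mem_Icc.2 ⟨Nat.pos_of_ne_zero d0, not_lt.1 fun c => h1 ⟨_, c, ?_⟩⟩,
      fun q hq => ?_⟩
    · push_cast
      rw [← prod_pow]
      refine prod_dvd_of_coprime (fun p hp q hq e => ?_) fun p hp => by
        rw [← pow_mul, mul_comm]; exact (hv p hp).1
      exact (Nat.isCoprime_iff_coprime.2 ((Nat.coprime_primes (pr p hp) (pr q hq)).2 e)).pow.pow
    · have a := Nat.prime_of_mem_primeFactors hq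
      obtain ⟨p, hp, b⟩ := (a.prime.dvd_finsetProd_iff _).1 (Nat.dvd_of_mem_primeFactors hq)
      rwa [(Nat.prime_dvd_prime_iff_eq a (pr p hp)).1 (a.dvd_of_dvd_pow b)]
  rw [nm, sum_congr rfl fun d hd => ph_nu hd _ n]
  refine le_trans ?_ (single_le_sum (f := fun d : ℕ => ind (Loc (2 ^ (α + 2)) n ∧
    ∀ p ∈ PO z, Ex p (d.factorization p) n)) (fun _ _ => ind_nonneg _) hd)
  exact (ind_pos ⟨h 2 ((mem_PP (by linarith)).2 ⟨Nat.prime_two, by omega, by exact_mod_cast hz⟩),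
    fun p hp => by rw [f p hp]; exact hv p hp⟩).ge

lemma ph_per (α : ℕ) {d : ℕ} (hd : d ≠ 0) {a b : ℤ} (h : ((2 ^ α * d ^ 3 : ℕ) : ℤ) ∣ b - a) :
    ph α d a = ph α d b := by
  have h2 : ((2 ^ α : ℕ) : ℤ) ∣ b - a := (Int.natCast_dvd_natCast.2 (dvd_mul_right _ _)).trans h
  refine congrArg ind (propext (and_congr ⟨per_loc _ a b h2, per_loc _ b a (dvd_sub_comm.1 h2)⟩
    (forall₂_congr fun p hp => ?_)))
  have q := Nat.prime_of_mem_primeFactors hp
  have v := q.factorization_pos_of_dvd hd (Nat.dvd_of_mem_primeFactors hp)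
  have e : ∀ i ≤ d.factorization p * 3, (p : ℤ) ^ i ∣ b - a := fun i hi => by
    refine dvd_trans ?_ h
    have := ((pow_dvd_pow p hi).trans (by
      rw [pow_mul]; exact pow_dvd_pow_of_dvd (Nat.ordProj_dvd d p) 3 : _ ∣ d ^ 3)).mul_left (2 ^ α)
    exact_mod_cast this
  rw [Ex, Ex, dvd_iff_dvd_of_dvd_sub (e _ (by omega)), dvd_iff_dvd_of_dvd_sub (e _ (by omega))]

end

section
open Finset Filter Topology Real
open Classical

/-- equidistribution in residue classes -/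
def Eqd (X : ℕ) (Δ : ℤ → ℝ) (M γ : ℝ) : Prop :=
  ∀ q : ℕ, q ≠ 0 → (q : ℝ) ≤ M → ∀ φ : ℤ → ℝ, (∀ a b, (q : ℤ) ∣ b - a → φ a = φ b) →
    (∀ a, |φ a| ≤ 1) → |∑ n ∈ Ioc (X : ℤ) (2 * X), Δ n * φ n| ≤ γ

lemma ph_le (α d : ℕ) (n : ℤ) : |ph α d n| ≤ 1 := by
  rw [ph, abs_of_nonneg (ind_nonneg _)]; exact ind_le _

lemma two_alp (a : ℕ) {X : ℕ} (h : 3 ≤ log X) : (2 : ℝ) ^ alp a X ≤ log X ^ (2 * a + 6) := by
  have l0 : 0 < log X := by linarith
  have l1 : 1 ≤ log (log X) := by rw [le_log_iff_exp_le l0]; linarith [exp_one_lt_d9]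
  have b := Nat.ceil_lt_add_one (show 0 ≤ 2 * (a + 1) * log (log X) by positivity)
  rw [← exp_log (pow_pos l0 _), log_pow, ← exp_log (pow_pos two_pos _), log_pow, exp_le_exp, alp]
  have := (⌈2 * (a + 1) * log (log X)⌉₊).cast_nonneg (α := ℝ)
  push_cast
  nlinarith [log_two_lt_d9]

theorem rec_eq (a y m : ℕ) : ∀ E : ℕ, ∃ B A₀ : ℕ, ∀ A : ℕ, ∀ᶠ X : ℕ in atTop, ∀ L : ℕ,
    log X ^ B ≤ L → L ≤ log X ^ A → ∀ (Δ : ℤ → ℝ) (g : ℝ), 0 ≤ g →
    (∀ n ∈ Ioc (X : ℤ) (2 * X), |Δ n| ≤ g) → Eqd X Δ (log X ^ A₀) (g * (X / log X ^ A₀)) →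
    ∑ h ∈ Fintype.piFinset fun _ : Fin m => Icc (1 : ℤ) L, |∑ n ∈ Ioc (X : ℤ) (2 * X), Δ n *
      ∏ i, nm (zz X) (alp a X) ⌊log X ^ y⌋₊ (n + h i)| ≤ L ^ m * (g * (X / log X ^ E)) := by
  induction m with
  | zero =>
    refine fun E => ⟨0, E, fun A => (tl.eventually_ge_atTop 1).mono fun X l L _ _ Δ g _ _ h => ?_⟩
    simpa using h 1 one_ne_zero (by simpa using one_le_pow₀ l) (fun _ => 1) (fun _ _ _ => rfl)
      (by simp)
  | succ m ih =>
    intro E
    obtain ⟨w, hw⟩ : ∃ w, w = 2 * a + 6 + y * 3 := ⟨_, rfl⟩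
    obtain ⟨e, he⟩ : ∃ e, e = E + y + w + 1 := ⟨_, rfl⟩
    obtain ⟨B, A₀, H⟩ := ih (E + y + (4 * e + 11) + 1)
    refine ⟨B + (2 * e + 5), A₀ + (w + (4 * e + 11)), fun A => ?_⟩
    filter_upwards [H A, sieve_cs e A, tl.eventually_ge_atTop 3, tz.eventually_ge_atTop 0]
      with X h1 h2 l3 z0 L L1 L2 Δ g g0 hΔ hE
    have l0 : 0 < log X := by linarith
    have l1 : 1 ≤ log X := by linarith
    set z := zz X
    set α := alp a X with hα
    set Y := ⌊log X ^ y⌋₊ with hY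
    have Y1 : (Y : ℝ) ≤ log X ^ y := Nat.floor_le (by positivity)
    have cD : ((DD z Y).card : ℝ) ≤ log X ^ y :=
      le_trans (by exact_mod_cast (card_filter_le _ _).trans (by simp)) Y1
    have dd : ∀ d ∈ DD z Y, d ≠ 0 ∧ ((2 ^ α * d ^ 3 : ℕ) : ℝ) ≤ log X ^ w := fun d hd => by
      have b := mem_Icc.1 (mem_filter.1 hd).1
      have c : (d : ℝ) ≤ log X ^ y := le_trans (by exact_mod_cast b.2) Y1
      refine ⟨by omega, ?_⟩
      rw [hw, pow_add, pow_mul _ y]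
      push_cast
      exact mul_le_mul (two_alp a l3) (pow_le_pow_left₀ d.cast_nonneg c 3) (by positivity)
        (by positivity)
    have pI : ∀ d : ℕ, ∀ p ∈ PO z \ d.primeFactors, p.Prime ∧ (p : ℝ) ≤ z := fun d p hp =>
      let b := (mem_PP z0).1 (mem_erase.1 (mem_sdiff.1 hp).1).2; ⟨b.1, b.2.2⟩
    have cI : ((Icc (1 : ℤ) L).card : ℝ) = L := by simp
    rw [sum_pi_succ]
    simp only [Fin.prod_univ_succ, Fin.cons_zero, Fin.cons_succ]
    refine (sum_le_sum fun t _ => sum_le_sum (g := fun h : Fin m → ℤ => ∑ d ∈ DD z Y,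
      ∑ c ∈ range (2 ^ α * d ^ 3), |∑ n ∈ Ioc (X : ℤ) (2 * X), (Δ n * ∏ i, nm z α Y (n + h i)) *
        ind (((2 ^ α * d ^ 3 : ℕ) : ℤ) ∣ n + -(c : ℤ)) * (nu (PO z \ d.primeFactors) (n + t) -
        ∑ S ∈ SQ (PO z \ d.primeFactors) (QL e X), ES (PO z \ d.primeFactors) S (n + t))| +
      ∑ d ∈ DD z Y, ∑ S ∈ SQ (PO z \ d.primeFactors) (QL e X), |∑ n ∈ Ioc (X : ℤ) (2 * X),
        Δ n * (ph α d (n + t) * ES (PO z \ d.primeFactors) S (n + t)) * ∏ i, nm z α Y (n + h i)|)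
      fun h _ => ?_).trans ?_
    · rw [← sum_add_distrib, sum_congr rfl (g := fun n => ∑ d ∈ DD z Y, Δ n * (ph α d (n + t) *
        nu (PO z \ d.primeFactors) (n + t)) * ∏ i, nm z α Y (n + h i)) fun n _ => by
          rw [← sum_mul, ← mul_sum, mul_assoc]; rfl, sum_comm]
      refine (abs_sum_le_sum_abs _ _).trans (sum_le_sum fun d hd => ?_)
      have q0 : 2 ^ α * d ^ 3 ≠ 0 := by have := (dd d hd).1; positivity
      refine le_trans (le_of_eq ?_) ((abs_add_le _ _).trans (add_le_add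
        ((abs_sum_le_sum_abs (fun c : ℕ => ph α d (c + t) * _) _).trans (sum_le_sum fun c _ => by
          rw [abs_mul]; exact mul_le_of_le_one_left (abs_nonneg _) (ph_le _ _ _)))
        (abs_sum_le_sum_abs _ _)))
      congr 1
      simp only [mul_sum (s := Ioc (X : ℤ) (2 * X))]
      rw [sum_comm, sum_comm (s := SQ _ _), ← sum_add_distrib]
      refine sum_congr rfl fun n _ => ?_
      have := per_sum q0 (f := fun n => ph α d (n + t))
        (fun a b c => ph_per α (dd d hd).1 (by simpa using c)) n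
      rw [sum_congr rfl (g := fun c : ℕ => ph α d (c + t) * ind (((2 ^ α * d ^ 3 : ℕ) : ℤ) ∣
        n + -(c : ℤ)) * ((Δ n * ∏ i, nm z α Y (n + h i)) * (nu (PO z \ d.primeFactors) (n + t) -
        ∑ S ∈ SQ (PO z \ d.primeFactors) (QL e X), ES (PO z \ d.primeFactors) S (n + t))))
        fun c _ => by ring, ← sum_mul, ← this, ← sum_mul, ← mul_sum, ← mul_sum]
      ring
    simp only [sum_add_distrib]
    have X0 : 0 ≤ g * (X / log X ^ E) := by positivity
    refine (add_le_add (b := L ^ (m + 1) * (g * (X / log X ^ E)) / log X)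
      (d := L ^ (m + 1) * (g * (X / log X ^ E)) / log X) ?_ ?_).trans (by
      rw [← add_div, div_le_iff₀ l0, ← two_mul, mul_comm]; gcongr; linarith)
    · rw [sum_comm]
      refine (sum_le_card_nsmul _ _ (log X ^ y * (log X ^ w * (g * (L * (X / log X ^ e)))))
        fun h _ => ?_).trans (le_of_eq ?_)
      · rw [sum_comm]
        refine (sum_le_card_nsmul _ _ (log X ^ w * (g * (L * (X / log X ^ e)))) fun d hd => ?_).trans
          (by rw [nsmul_eq_mul]; gcongr)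
        rw [sum_comm]
        refine (sum_le_card_nsmul _ _ (g * (L * (X / log X ^ e))) fun c _ => h2 _ (pI d) L
          ((pow_le_pow_right₀ l1 (by omega)).trans L1) L2 _ g g0 fun n hn => ?_).trans
          (by rw [nsmul_eq_mul, card_range]; gcongr; exact (dd d hd).2)
        rw [abs_mul, abs_mul, abs_of_nonneg (ind_nonneg _), abs_prod]
        exact (mul_le_of_le_one_right (by positivity) (ind_le _)).trans ((mul_le_of_le_one_right
          (abs_nonneg _) (prod_le_one (fun _ _ => abs_nonneg _) fun i _ => by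
            rw [abs_of_nonneg (nm_bd _ _ _ _).1]; exact (nm_bd _ _ _ _).2.trans (ind_le _))).trans
          (hΔ n hn))
      · rw [nsmul_eq_mul, he]
        simp only [Fintype.card_piFinset, prod_const, card_univ, Fintype.card_fin, Nat.cast_pow, cI]
        field_simp
        ring
    · refine (sum_le_card_nsmul _ _ (log X ^ y * (log X ^ (4 * e + 11) * (L ^ m *
        (g * (X / log X ^ (E + y + (4 * e + 11) + 1)))))) fun t _ => ?_).trans (le_of_eq ?_)
      · rw [sum_comm]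
        refine (sum_le_card_nsmul _ _ (log X ^ (4 * e + 11) * (L ^ m *
          (g * (X / log X ^ (E + y + (4 * e + 11) + 1))))) fun d hd => ?_).trans
          (by rw [nsmul_eq_mul]; gcongr)
        have Q2 := QL_le (E := e) (show 2 ≤ log X by linarith)
        have b1 : ∀ S n, |ph α d n * ES (PO z \ d.primeFactors) S n| ≤ 1 := fun S n => by
          rw [abs_mul]; exact mul_le_one₀ (ph_le _ _ _) (abs_nonneg _) (ES_le _ _ _)
        rw [sum_comm]
        refine (sum_le_card_nsmul _ _ (L ^ m * (g * (X / log X ^ (E + y + (4 * e + 11) + 1))))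
          fun S hS => h1 L ((pow_le_pow_right₀ l1 (by omega)).trans L1) L2 _ g g0 (fun n hn => ?_)
          fun q q0 q1 φ φ1 φ2 => ?_).trans ?_
        · rw [abs_mul]
          exact (mul_le_of_le_one_right (abs_nonneg _) (b1 _ _)).trans (hΔ n hn)
        · have s1 := mem_filter.1 hS
          have s2 : ((∏ p ∈ S, p : ℕ) : ℝ) ≤ log X ^ (4 * e + 11) := (Nat.cast_le.2 s1.2).trans Q2
          have s0 : ∏ p ∈ S, p ≠ 0 := prod_ne_zero_iff.2 fun p hp =>
            (pI d p (mem_powerset.1 s1.1 hp)).1.ne_zero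
          have d0 := (dd d hd).1
          simp only [mul_assoc]
          refine (hE (q * (2 ^ α * d ^ 3 * ∏ p ∈ S, p)) (by positivity) ?_
            (fun n => ph α d (n + t) * (ES (PO z \ d.primeFactors) S (n + t) * φ n)) (fun u v c => ?_)
            fun n => ?_).trans ?_
          · rw [pow_add, pow_add _ w, Nat.cast_mul q, Nat.cast_mul (2 ^ α * d ^ 3)]
            exact mul_le_mul q1 (mul_le_mul (dd d hd).2 s2 (by positivity) (by positivity))
              (by positivity) (by positivity)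
          · have c' : ((q * (2 ^ α * d ^ 3 * ∏ p ∈ S, p) : ℕ) : ℤ) ∣ v + t - (u + t) := by
              simpa using c
            rw [φ1 u v ((Int.natCast_dvd_natCast.2 (dvd_mul_right _ _)).trans c),
              ph_per α d0 ((Int.natCast_dvd_natCast.2 ((dvd_mul_right _ _).mul_left q)).trans c'),
              ES_per _ S ((Int.natCast_dvd_natCast.2 ((dvd_mul_left _ _).mul_left q)).trans c')]
          · rw [← mul_assoc, abs_mul]
            exact mul_le_one₀ (b1 _ _) (abs_nonneg _) (φ2 n)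
          · gcongr
            omega
        · rw [nsmul_eq_mul]
          gcongr
          exact le_trans (by exact_mod_cast SQ_card (fun p hp => (pI d p hp).1) _) Q2
      · rw [nsmul_eq_mul, cI]
        field_simp
        ring

theorem L3_ge : ∀ᶠ X : ℕ in atTop,
    47 / 100 * Real.log (Real.log X) ≤ ∑ p ∈ PO (zz X), (p : ℝ)⁻¹ := by
  have t := (Lib.ANT.tendsto_theta_AP_div (q := 4) (a := 3) (by norm_num) (by norm_num)).comp
    tendsto_natCast_atTop_atTop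
  rw [show Nat.totient 4 = 2 by decide] at t
  obtain ⟨y₀, hy⟩ := eventually_atTop.1 ((t.eventually (Icc_mem_nhds (a := 499 / 1000) (b := 1)
    (by norm_num) (by norm_num))).and (eventually_ge_atTop 3))
  let a : ℕ → ℝ := fun k => if k.Prime ∧ k ≡ 3 [MOD 4] then Real.log k else 0
  have ha : ∀ n, y₀ ≤ n → 499 / 1000 * (n : ℝ) ≤ ∑ k ∈ Icc 1 n, a k ∧ ∑ k ∈ Icc 1 n, a k ≤ n := by
    intro n hn
    obtain ⟨⟨h1, h2⟩, h3⟩ := hy n hn
    have : (0 : ℝ) < n := by exact_mod_cast (by omega : 0 < n)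
    simp only [Function.comp, Nat.floor_natCast, sum_filter] at h1 h2
    exact ⟨(le_div_iff₀ this).1 h1, (div_le_one this).1 h2⟩
  filter_upwards [(trp (a := 1 / 1000) (by norm_num)).eventually_ge_atTop (y₀ + 1),
    tll.eventually_ge_atTop 1000, tl.eventually_gt_atTop 0,
    ev_le 2 0 (show (1 / 1000 : ℝ) < 24 / 25 by norm_num)] with X h1 h2 l0 h3
  rw [pow_zero, mul_one] at h3
  set u := Real.log X ^ (1 / 1000 : ℝ) with hu
  set v := Real.log X ^ (24 / 25 : ℝ) with hv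
  have y0 := y₀.cast_nonneg (α := ℝ)
  have u1 := add_one_le_exp u
  have u2 := Nat.ceil_lt_add_one (exp_pos u).le
  have u3 := Nat.le_ceil (exp u)
  have u4 : exp u + 2 ≤ exp (2 * u) := by rw [two_mul, exp_add]; nlinarith
  have u5 : exp (2 * u) ≤ exp v := exp_le_exp.2 h3
  have y1 : y₀ ≤ ⌈exp u⌉₊ := by exact_mod_cast (show (y₀ : ℝ) ≤ ⌈exp u⌉₊ by linarith)
  have y2 : ⌈exp u⌉₊ ≤ ⌊exp v⌋₊ := Nat.le_floor (by linarith)
  have y3 : (3 : ℝ) ≤ ⌈exp u⌉₊ := by exact_mod_cast (hy _ y1).2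
  have key := abel_lo (a := a) (c := 499 / 1000) (by norm_num) (le_trans (by norm_num) (hy _ y1).2)
    (fun n hn => (ha n (y1.trans hn)).1) y2
  have b1 : 24 / 25 * Real.log (Real.log X) ≤ Real.log (Real.log (⌊exp v⌋₊ + 1)) := by
    rw [← log_rpow l0]
    refine log_le_log (by positivity) ?_
    rw [le_log_iff_exp_le (by positivity)]
    exact (Nat.lt_floor_add_one _).le
  have b2 : Real.log (Real.log (⌈exp u⌉₊ + 1)) ≤ 1 + 1 / 1000 * Real.log (Real.log X) := by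
    have := log_le_log (log_pos (by linarith))
      ((log_le_iff_le_exp (x := ⌈exp u⌉₊ + 1) (y := 2 * u) (by positivity)).2 (by linarith))
    rw [log_mul two_ne_zero (by positivity), hu, log_rpow l0] at this
    linarith [log_two_lt_d9]
  have b3 : 0 ≤ (∑ k ∈ Icc 1 ⌊exp v⌋₊, a k - 499 / 1000 * ⌊exp v⌋₊) / (⌊exp v⌋₊ * Real.log ⌊exp v⌋₊) :=
    div_nonneg (sub_nonneg.2 (ha _ (y1.trans y2)).1)
      (mul_nonneg (Nat.cast_nonneg _) (log_natCast_nonneg _))
  have b4 : (∑ k ∈ Icc 1 ⌈exp u⌉₊, a k - 499 / 1000 * ⌈exp u⌉₊) / (⌈exp u⌉₊ * Real.log ⌈exp u⌉₊)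
      ≤ 1 := by
    have : 1 ≤ Real.log ⌈exp u⌉₊ := by rw [le_log_iff_exp_le (by linarith)]; linarith [exp_one_lt_d9]
    rw [div_le_one (by positivity)]
    nlinarith [(ha _ y1).2]
  refine le_trans (by linarith) (key.trans ?_)
  refine le_trans (le_of_eq ?_) (sum_le_sum_of_subset_of_nonneg
    (s := (Ioc ⌈exp u⌉₊ ⌊exp v⌋₊).filter fun k => k.Prime ∧ k ≡ 3 [MOD 4]) (fun k hk => ?_)
    fun k _ _ => by positivity)
  · rw [sum_filter]
    refine sum_congr rfl fun k _ => ?_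
    simp only [a]
    split_ifs with c
    · have := log_pos (show (1 : ℝ) < k by exact_mod_cast c.1.one_lt)
      field_simp
    · rw [zero_div]
  · obtain ⟨c, d, e⟩ := mem_filter.1 hk
    rw [Nat.ModEq] at e
    exact mem_erase.2 ⟨by omega, mem_filter.2 ⟨mem_Icc.2 ⟨d.pos, (mem_Ioc.1 c).2⟩, d, by omega⟩⟩

lemma den_zero_le {p α : ℕ} (hp : p.Prime) (h4 : p % 4 = 3) (hα : 2 ≤ α) :
    den {0} (p ^ α) ≤ 1 - (p : ℝ)⁻¹ + ((p : ℝ) ^ 2)⁻¹ := by
  obtain ⟨i, rfl⟩ := Nat.exists_eq_add_of_le hα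
  have hM := pow_ne_zero (2 + i) hp.ne_zero
  have e1 := dn_or (p ^ (2 + i)) (fun a => ¬ (p : ℤ) ∣ a + 0) fun a => ((p ^ 2 : ℕ) : ℤ) ∣ a + 0
  rw [dn_not hM, dn_dvd hM (dvd_pow_self p (by omega)), dn_dvd hM (pow_dvd_pow p hα),
    Nat.cast_pow (α := ℝ)] at e1
  have e2 := dn_nonneg (p ^ (2 + i)) fun a => ¬ (p : ℤ) ∣ a + 0 ∧ ((p ^ 2 : ℕ) : ℤ) ∣ a + 0
  refine le_trans (dn_mono (Q := fun a => ¬ (p : ℤ) ∣ a + 0 ∨ ((p ^ 2 : ℕ) : ℤ) ∣ a + 0)
    fun a ha => ?_) (by linarith)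
  by_contra c
  push Not at c
  obtain ⟨u, v, e⟩ := (ha 0 (mem_singleton_self _)).of_dvd (pow_dvd_pow p hα)
  have f : (p : ℤ) ∣ u ^ 2 + v ^ 2 := (dvd_iff_dvd_of_dvd_sub
    ((Int.natCast_dvd_natCast.2 (dvd_pow_self p two_ne_zero)).trans e)).1 c.1
  obtain ⟨t, ht⟩ := Int.eq_ofNat_of_zero_le (show 0 ≤ u ^ 2 + v ^ 2 by positivity)
  have g := c.2
  rw [dvd_iff_dvd_of_dvd_sub e, ht, Int.natCast_dvd_natCast] at g
  rw [ht, Int.natCast_dvd_natCast] at f
  have t0 : t ≠ 0 := by rintro rfl; exact g (dvd_zero _)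
  obtain ⟨m, hm⟩ := s2_iff.1 (⟨u, v, ht.symm⟩ : S2 t) p hp h4
  rw [hp.pow_dvd_iff_le_factorization t0] at g
  have := (hp.dvd_iff_one_le_factorization t0).1 f
  omega

theorem r0_sharp {δ : Finset ℤ → ℕ → ℝ}
    (hδ : ∀ (H : Finset ℤ) (p : ℕ), p.Prime → Tendsto (fun α => den H (p ^ α)) atTop (𝓝 (δ H p)))
    {K : ℝ} (K0 : 0 < K) (hK : Tendsto (fun X : ℕ => ct X S2 * √(log X) / X) atTop (𝓝 K)) :
    ∀ᶠ X : ℕ in atTop, 2 * log X ≤ log X ^ (4 / 125 : ℝ) * r0 X := by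
  filter_upwards [(kap hδ hK).eventually (lt_mem_nhds (half_lt_self K0)), L3_ge,
    tl.eventually_gt_atTop 0, (trp (a := 1 / 500) (by norm_num)).eventually_ge_atTop (12 / K)]
    with X h1 h2 l0 h3
  have a : Dl δ {0} (zz X) ≤ 3 * log X ^ (-(47 / 100 : ℝ)) := by
    have b : Dl δ {0} (zz X) ≤ ∏ p ∈ PO (zz X), exp (-(p : ℝ)⁻¹ + ((p : ℝ) ^ 2)⁻¹) := by
      refine le_trans (prod_le_prod_of_subset_of_le_one (erase_subset 2 _) (fun p hp =>
        del_nonneg hδ _ (mem_filter.1 hp).2.1) fun p hp _ => le_of_tendsto'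
        (hδ _ _ (mem_filter.1 hp).2.1) (den_le_one _ (mem_filter.1 hp).2.1))
        (prod_le_prod (fun p hp => del_nonneg hδ _ (mem_filter.1 (mem_erase.1 hp).2).2.1)
        fun p hp => ?_)
      obtain ⟨c, d⟩ := mem_erase.1 hp
      have q := (mem_filter.1 d).2
      have := q.1.eq_two_or_odd
      refine (le_of_tendsto (hδ _ _ q.1) ((eventually_ge_atTop 2).mono fun α e =>
        den_zero_le q.1 (by omega) e)).trans ?_
      linarith [add_one_le_exp (-(p : ℝ)⁻¹ + ((p : ℝ) ^ 2)⁻¹)]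
    rw [← exp_sum, sum_add_distrib, sum_neg_distrib] at b
    have c := (sum_le_sum_of_subset_of_nonneg (erase_subset 2 (PP (zz X)))
      fun p _ _ => (by positivity : 0 ≤ ((p : ℝ) ^ (0 + 2))⁻¹)).trans (sum_pow_le (zz X) 0)
    simp only [zero_add, pow_zero, inv_one] at c
    refine b.trans ((exp_le_exp.2 (show _ ≤ 1 + log (log X) * -(47 / 100) by
      unfold PO at *; linarith)).trans ?_)
    rw [exp_add, ← rpow_def_of_pos l0]
    gcongr
    linarith [exp_one_lt_d9]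
  rw [lt_div_iff₀ (sqrt_pos.2 l0), sqrt_eq_rpow] at h1
  have r : 0 ≤ r0 X := rho_nonneg _ _
  have b := h1.le.trans (mul_le_mul_of_nonneg_left a r)
  have e : log X = log X ^ (1 / 2 : ℝ) * log X ^ (1 / 2 : ℝ) := by rw [← rpow_add l0]; norm_num
  have e' : log X ^ (4 / 125 : ℝ) =
      log X ^ (1 / 500 : ℝ) * (log X ^ (-(47 / 100 : ℝ)) * log X ^ (1 / 2 : ℝ)) := by
    rw [← rpow_add l0, ← rpow_add l0]; norm_num
  have p1 := rpow_pos_of_pos l0 (1 / 2)
  have p2 := rpow_pos_of_pos l0 (-(47 / 100))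
  rw [div_le_iff₀ K0] at h3
  refine le_of_mul_le_mul_left ?_ K0
  rw [e']
  calc K * (2 * log X) = 4 * (K / 2 * log X ^ (1 / 2 : ℝ)) * log X ^ (1 / 2 : ℝ) := by
        conv_lhs => rw [e]
        ring
    _ ≤ 4 * (r0 X * (3 * log X ^ (-(47 / 100 : ℝ)))) * log X ^ (1 / 2 : ℝ) := by gcongr
    _ = 12 * (log X ^ (-(47 / 100 : ℝ)) * log X ^ (1 / 2 : ℝ) * r0 X) := by ring
    _ ≤ log X ^ (1 / 500 : ℝ) * K * (log X ^ (-(47 / 100 : ℝ)) * log X ^ (1 / 2 : ℝ) * r0 X) := by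
        gcongr
    _ = _ := by ring

end

section
open Finset Filter Topology Real
open Classical

/-- the difference between the pair weight and its model, at admissible integers -/
noncomputable def Dp (j A X : ℕ) (a b n : ℤ) : ℝ :=
  if wE (EE X) (n + a) ∈ TW j A X ∧ wE (EE X) (n + b) ∈ TW j A X then
    FF (zz X) (n + a) * FF (zz X) (n + b) - Fb (zz X) (n + a) * Fb (zz X) (n + b) else 0

theorem Dp_eqd (A₀ A : ℕ) (hA : 2 * A₀ ≤ A) : ∃ j : ℕ, ∀ᶠ X : ℕ in atTop, ∀ a b : ℤ, a ≠ b →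
    |(a : ℝ)| ≤ log X ^ A → |(b : ℝ)| ≤ log X ^ A →
    Eqd X (Dp j A X a b) (log X ^ A₀) (X / log X ^ A₀) := by
  obtain ⟨j, hj⟩ := two_point (A + 5) 4 (by norm_num) (c0 := 1 / 100) (by norm_num)
  refine ⟨j, ?_⟩
  filter_upwards [hj, eok, EE_mem, conv_bound, tl.eventually_ge_atTop 2, tll.eventually_ge_atTop 1,
    eventually_ge_atTop 2, ev_le (A + 6) 1 (show (0 : ℝ) < 1 by norm_num), ev_pw 16 (2 * A + 9),
    ev_pw 2 A] with X h1 h2 h3 h4 l2 h8 h9 h10 h11 h12 a b hab ha hb q q0 q1 φ φ1 φ2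
  rw [rpow_zero, rpow_one, mul_one, pow_one] at h10
  have l0 : 0 < log X := by linarith
  have l1 : 1 ≤ log X := by linarith
  have X0 : (0 : ℝ) < X := by exact_mod_cast (by omega : 0 < X)
  have aX : 2 * |a| ≤ X := by exact_mod_cast (by linarith : 2 * |(a : ℝ)| ≤ X)
  have bX : 2 * |b| ≤ X := by exact_mod_cast (by linarith : 2 * |(b : ℝ)| ≤ X)
  have X3 : 4 * (X : ℤ) ≤ (X : ℤ) ^ 3 := by
    have : (2 : ℤ) ≤ X := by exact_mod_cast h9
    nlinarith [mul_le_mul this this two_pos.le (by omega)]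
  have a1 := le_abs_self a
  have a2 := neg_abs_le a
  have b1 := le_abs_self b
  have b2 := neg_abs_le b
  have bm := fun p hp => be_mul (h3 p hp).1 (h3 p hp).2.1 (h3 p hp).2.2
  have cT : ((TW j A X).card : ℝ) ≤ log X := by
    have := Nat.floor_le (show 0 ≤ (A + 5) * log (log X) by positivity)
    have : ((TW j A X).card : ℝ) ≤ ⌊(A + 5) * log (log X)⌋₊ + 1 := by
      rw [TW, Nat.card_Icc]; exact_mod_cast Nat.sub_le _ _
    linarith
  have hT : ∀ i ∈ TW j A X, j ≤ i ∧ (i : ℝ) ≤ (A + 5 : ℕ) * log (log X) := fun i hi =>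
    ⟨(mem_Icc.1 hi).1, by
      push_cast; exact (Nat.le_floor_iff (by positivity)).1 (mem_Icc.1 hi).2⟩
  have key : ∀ c : ℕ, |∑ n ∈ Ioc (X : ℤ) (2 * X), Dp j A X a b n * ind ((q : ℤ) ∣ n + -(c : ℤ))| ≤
      2 * (X / log X ^ (A + 3)) := fun c => by
    let d : ℤ → ℂ := fun n => conv (be (zz X)) (gam (zz X) 4 (ww (zz X))) n *
      conv (be (zz X)) (gam (zz X) 4 (ww (zz X))) (n + (b - a)) -
      conv (be (zz X)) (flat (zz X) 4 (ww (zz X))) n *
      conv (be (zz X)) (flat (zz X) 4 (ww (zz X))) (n + (b - a))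
    let D : ℤ → ℂ := fun n => if (wE (EE X) n ∈ TW j A X ∧ wE (EE X) (n + (b - a)) ∈ TW j A X) ∧
      n ≡ c + a [ZMOD q] then d n else 0
    have sh := SPTwo_shift D X (2 * X) a (B := 2 * log X ^ 6) (by positivity) fun m hm => by
      simp only [D]
      split_ifs
      · obtain ⟨u1, u2, -⟩ := h4 4 _ _ (dat (zz X)) m (by omega)
        obtain ⟨v1, v2, -⟩ := h4 4 _ _ (dat (zz X)) (m + (b - a)) (by omega)
        refine (norm_sub_le _ _).trans ?_
        rw [norm_mul, norm_mul]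
        linarith [mul_le_mul u1 v1 (norm_nonneg _) (by positivity),
          mul_le_mul u2 v2 (norm_nonneg _) (by positivity)]
      · rw [norm_zero]; positivity
    rw [← map_add_right_Ioc, sum_map] at sh
    simp only [addRightEmbedding_apply] at sh
    have m : ‖∑ n ∈ Ioc (X : ℤ) (2 * X), D n‖ ≤ log X * (log X * (X / log X ^ (A + 5))) := by
      rw [sum_congr rfl (g := fun n => ∑ i ∈ TW j A X, ∑ i' ∈ TW j A X,
        if wE (EE X) n = i ∧ wE (EE X) (n + (b - a)) = i' ∧ n ≡ c + a [ZMOD q] then d n else 0)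
        fun n _ => by
          simp only [D, ite_and, sum_ite_irrel, sum_const_zero, sum_ite_eq], sum_comm]
      refine (norm_sum_le_of_le _ (n := fun _ => (TW j A X).card • (X / log X ^ (A + 5)))
        fun i hi => ?_).trans ?_
      · rw [sum_comm]
        refine (norm_sum_le _ _).trans (sum_le_card_nsmul _ _ _ fun i' hi' =>
          h1 X (Nat.le_self_pow two_ne_zero X) (Nat.le_self_pow two_ne_zero X) _ h2 i i' (hT i hi).1
          (hT i' hi').1 (hT i hi).2 (hT i' hi').2 (b - a) (c + a) q (sub_ne_zero.2 hab.symm) ?_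
          (Nat.pos_of_ne_zero q0) (q1.trans (pow_le_pow_right₀ l1 (by omega))) _ _ _ _ (dat _)
          (dat _) bm bm)
        have := pow_le_pow_right₀ l1 (show A + 1 ≤ A + 5 by omega)
        have := abs_sub (b : ℝ) a
        have := mul_le_mul_of_nonneg_left l2 (pow_pos l0 A).le
        have := pow_succ (log X) A
        push_cast
        linarith
      · rw [sum_const, nsmul_eq_mul, nsmul_eq_mul]
        gcongr
    rw [← norm_eq_abs, ← Complex.norm_real, Complex.ofReal_sum, sum_congr rfl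
      (g := fun n => D (n + a)) fun n hn => by
        have := (mem_Ioc.1 hn).1
        have e : n + a ≡ c + a [ZMOD q] ↔ (q : ℤ) ∣ n + -(c : ℤ) := by
          rw [Int.modEq_iff_dvd, dvd_sub_comm, add_sub_add_right_eq_sub, sub_eq_add_neg]
        simp only [D, d, Dp, add_add_sub_cancel, e, FF_cast _ (show 1 ≤ n + a by omega),
          FF_cast _ (show 1 ≤ n + b by omega), Fb_cast _ (show 1 ≤ n + a by omega),
          Fb_cast _ (show 1 ≤ n + b by omega), ind, ite_and]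
        split_ifs <;> simp]
    have e1 : log X * (log X * (X / log X ^ (A + 5))) = X / log X ^ (A + 3) := by
      field_simp; ring
    have e2 : 8 * |(a : ℝ)| * (2 * log X ^ 6) ≤ X / log X ^ (A + 3) := by
      rw [le_div_iff₀ (by positivity)]
      calc _ ≤ 8 * log X ^ A * (2 * log X ^ 6) * log X ^ (A + 3) := by gcongr
        _ = 16 * log X ^ (2 * A + 9) := by ring
        _ ≤ X := h11
    linarith [norm_sub_norm_le (∑ n ∈ Ioc (X : ℤ) (2 * X), D (n + a))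
      (∑ n ∈ Ioc (X : ℤ) (2 * X), D n)]
  rw [sum_congr rfl fun n _ => by rw [per_sum q0 φ1 n, mul_sum], sum_comm]
  refine (abs_sum_le_sum_abs _ _).trans ((sum_le_card_nsmul _ _ (2 * (X / log X ^ (A + 3)))
    fun c _ => ?_).trans ?_)
  · rw [sum_congr rfl fun n _ => mul_left_comm _ _ _, ← mul_sum, abs_mul]
    exact (mul_le_of_le_one_left (abs_nonneg _) (φ2 c)).trans (key c)
  · rw [nsmul_eq_mul, card_range]
    calc _ ≤ log X ^ A₀ * (log X * (X / log X ^ (2 * A₀ + 1))) := by gcongr; omega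
      _ = _ := by field_simp; ring

/-- the saving at integers with few prime factors, against three weights -/
noncomputable def eu (j X : ℕ) : ℝ :=
  (log X ^ (4 / 125 : ℝ)) ^ 3 * 10 ^ j * exp (-(9 / 10 * LL X))

lemma eu_zero (j : ℕ) : Tendsto (eu j) atTop (𝓝 0) := by
  refine squeeze_zero' (.of_forall fun X => by
    have := log_natCast_nonneg X; unfold eu; positivity) ?_ (by simpa using
    (((tendsto_rpow_neg_atTop (y := 3 / 1000) (by norm_num)).comp tl).const_mul (10 ^ j)))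
  filter_upwards [LL_ge, tl.eventually_gt_atTop 0] with X h l0
  have a : exp (-(9 / 10 * LL X)) ≤ log X ^ (-(99 / 1000 : ℝ)) := by
    rw [rpow_def_of_pos l0, exp_le_exp]; linarith
  calc eu j X ≤ (log X ^ (4 / 125 : ℝ)) ^ 3 * 10 ^ j * log X ^ (-(99 / 1000 : ℝ)) := by
        unfold eu; gcongr
    _ = 10 ^ j * ((log X ^ (4 / 125 : ℝ)) ^ 3 * log X ^ (-(99 / 1000 : ℝ))) := by ring
    _ = _ := by rw [← rpow_natCast (log X ^ (4 / 125 : ℝ)) 3, ← rpow_mul l0.le, ← rpow_add l0]; norm_num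

theorem wsand (a : ℕ) : ∀ᶠ X : ℕ in atTop, ∀ T : Finset ℤ, (∀ h ∈ T, 2 * |h| ≤ X) →
    ∀ (W : ℤ → ℝ) (g : ℝ), 0 ≤ g → (∀ n ∈ Ioc (X : ℤ) (2 * X), 0 ≤ W n ∧ W n ≤ g) →
    rho (zz X) (m1 X) ^ T.card * (∑ n ∈ Ioc (X : ℤ) (2 * X), W n *
      ind (∀ h ∈ T, AA (zz X) (alp a X) (n + h)) - g * (T.card * (X / log X ^ a))) ≤
      ∑ n ∈ Ioc (X : ℤ) (2 * X), W n * ∏ h ∈ T, Fb (zz X) (n + h) ∧
    ∑ n ∈ Ioc (X : ℤ) (2 * X), W n * ∏ h ∈ T, Fb (zz X) (n + h) ≤ r0 X ^ T.card *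
      ∑ n ∈ Ioc (X : ℤ) (2 * X), W n * ind (∀ h ∈ T, AA (zz X) (alp a X) (n + h)) := by
  filter_upwards [bad_countV a, F_le, tz.eventually_ge_atTop 2] with X h1 h2 h4 T hX W g g0 hW
  have r : ∀ n ∈ Ioc (X : ℤ) (2 * X), ∀ h ∈ T, X < 2 * (n + h) ∧ n + h ≤ 3 * X := fun n hn h hh => by
    have := hX h hh
    have := le_abs_self h
    have := neg_abs_le h
    rw [mem_Ioc] at hn
    omega
  have u := fun n hn h hh => (h2 (alp a X) (n + h) (by have := (r n hn h hh).1; omega)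
    (r n hn h hh).2).2
  have h0 := rho_nonneg (zz X) (m1 X)
  constructor
  · have : ct X (fun n => ∃ h ∈ T, Bad (zz X) (YY X) (alp a X) (n + h)) ≤
        T.card * (X / log X ^ a) := by
      refine (sum_le_sum fun n _ => ind_ex _ _).trans ?_
      rw [sum_comm, ← nsmul_eq_mul]
      refine sum_le_card_nsmul _ _ _ fun h hh => (ct_le_cu ?_ _).trans h1
      have := hX h hh
      have := abs_nonneg h
      omega
    refine (mul_le_mul_of_nonneg_left (sub_le_sub_left (mul_le_mul_of_nonneg_left this g0) _)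
      (pow_nonneg h0 _)).trans ?_
    rw [ct, mul_sum, ← sum_sub_distrib, mul_sum]
    refine sum_le_sum fun n hn => ?_
    obtain ⟨w0, w1⟩ := hW n hn
    have p0 := mul_nonneg w0 (prod_nonneg fun h hh => (u n hn h hh).1)
    by_cases b : ∃ h ∈ T, Bad (zz X) (YY X) (alp a X) (n + h)
    · refine le_trans (mul_nonpos_of_nonneg_of_nonpos (pow_nonneg h0 _) ?_) p0
      rw [ind_pos b]
      linarith [mul_le_of_le_one_right w0 (ind_le (∀ h ∈ T, AA (zz X) (alp a X) (n + h)))]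
    rw [ind_neg b, mul_zero, sub_zero]
    by_cases c : ∀ h ∈ T, AA (zz X) (alp a X) (n + h)
    · rw [ind_pos c, mul_one, mul_comm, ← prod_const]
      refine mul_le_mul_of_nonneg_left (prod_le_prod (fun _ _ => h0) fun h hh => ?_) w0
      have d := (r n hn h hh).1
      refine Fb_lo h4 (by omega) (c h hh) (fun e => b ⟨h, hh, e⟩) ?_
      have Y0 : 0 < YY X := exp_pos _
      have := (le_div_iff₀ (by positivity)).1 (Nat.floor_le (show 0 ≤ X / (2 * YY X) by positivity))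
      have : (X : ℝ) < 2 * ((n + h : ℤ) : ℝ) := by exact_mod_cast d
      rw [m1]
      linarith
    · rwa [ind_neg c, mul_zero, mul_zero]
  · rw [mul_sum]
    refine sum_le_sum fun n hn => ?_
    rw [mul_left_comm]
    refine mul_le_mul_of_nonneg_left ?_ (hW n hn).1
    by_cases c : ∀ h ∈ T, AA (zz X) (alp a X) (n + h)
    · rw [ind_pos c, mul_one, ← prod_const]
      exact prod_le_prod (fun h hh => (u n hn h hh).1) fun h hh => (u n hn h hh).2.1
    · rw [ind_neg c, mul_zero]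
      push Not at c
      obtain ⟨h, hh, c⟩ := c
      exact (prod_eq_zero hh ((u n hn h hh).2.2 c)).le

theorem avg_badW (k C A : ℕ) (hA : 6 * k + 2 * (C + 6) ≤ A) : ∃ j : ℕ, ∀ᶠ X : ℕ in atTop, ∀ L : ℕ,
    log X ^ (6 * k + 2 * (C + 6) + 9) ≤ L → L ≤ log X ^ A → ∀ W : ℤ → ℝ,
    (∀ n ∈ Ioc (X : ℤ) (2 * X), |W n| ≤ log X ^ 6) →
    (((Fintype.piFinset fun _ : Fin k => Icc (1 : ℤ) L).filter fun h => (X : ℝ) <
      |∑ n ∈ Ioc (X : ℤ) (2 * X), W n * (∏ i, FF (zz X) (n + h i) - ∏ i, MM j A X (n + h i))|).card : ℝ)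
      ≤ L ^ k / log X ^ C := by
  obtain ⟨j, hj⟩ := off_diag A
  refine ⟨j, ?_⟩
  filter_upwards [hj, F_le, r0_bd, tl.eventually_ge_atTop (max 2 (k : ℝ)), eventually_gt_atTop 0,
    ev_pw 1 A] with X h1 h2 h3 h4 h5 h6 L L1 L2 W hW
  have l2 := (le_max_left _ _).trans h4
  have lk := (le_max_right _ _).trans h4
  have l0 : 0 < log X := by linarith
  have l1 : 1 ≤ log X := by linarith
  have X0 : (0 : ℝ) < X := by exact_mod_cast h5
  have LX : (L : ℤ) ≤ X := by exact_mod_cast (by linarith : (L : ℝ) ≤ X)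
  have L0 : (0 : ℝ) < L := lt_of_lt_of_le (by positivity) L1
  have cI : ((Icc (1 : ℤ) L).card : ℝ) = L := by simp
  have cs : ((Ioc (X : ℤ) (2 * X)).card : ℝ) = X := by
    rw [Int.card_Ioc, show 2 * (X : ℤ) - X = X by ring]; simp
  have bd : ∀ n ∈ Ioc (X : ℤ) (2 * X), ∀ t ∈ Icc (1 : ℤ) L,
      (0 ≤ FF (zz X) (n + t) ∧ FF (zz X) (n + t) ≤ log X ^ 3) ∧
      0 ≤ MM j A X (n + t) ∧ MM j A X (n + t) ≤ log X ^ 3 := fun n hn t ht => by
    rw [mem_Ioc] at hn
    rw [mem_Icc] at ht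
    obtain ⟨a, b⟩ := h2 0 (n + t) (by omega) (by omega)
    have c : FF (zz X) (n + t) ≤ log X ^ 3 := a.2.1.trans (by nlinarith [mul_le_mul l2 l2 two_pos.le l0.le])
    refine ⟨⟨a.1, c⟩, ?_⟩
    unfold MM
    split_ifs
    · exact ⟨b.1, b.2.1.trans (h3.2.trans (pow_le_pow_right₀ l1 (by norm_num)))⟩
    · exact ⟨a.1, c⟩
  have key := tele (Ioc (X : ℤ) (2 * X)) (Icc (1 : ℤ) L) (FF (zz X)) (MM j A X) (R := log X ^ 3)
    (β := X / log X ^ (3 * k + (C + 6) + 1)) (one_le_pow₀ l1) (by positivity)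
    (fun n hn t ht => by
      obtain ⟨a, b⟩ := bd n hn t ht
      rw [abs_of_nonneg a.1, abs_of_nonneg b.1]
      exact ⟨a.2, b.2⟩)
    (fun G g g0 hG => dual_cs _ _ G (fun n => FF (zz X) n - MM j A X n) (a := X * (log X ^ 3) ^ 2)
      (γ := X / log X ^ (A + 3)) (by positivity) (by positivity) hG
      (fun t ht => by
        refine (sum_le_card_nsmul _ _ ((log X ^ 3) ^ 2) fun n hn => ?_).trans
          (by rw [nsmul_eq_mul, cs])
        obtain ⟨a, b⟩ := bd n hn t ht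
        exact sq_le_sq' (by linarith [a.1, b.2]) (by linarith [a.2, b.1]))
      (fun t ht t' ht' n => by
        rw [mem_Icc] at ht ht'
        exact h1 t t' n (by omega) (by omega) (le_trans (by exact_mod_cast ht.2) L2)
          (le_trans (by exact_mod_cast ht'.2) L2))
      (by
        rw [cI, cs]
        have e1 : (L : ℝ) * (X * (log X ^ 3) ^ 2) ≤ L ^ 2 * (X / log X ^ (6 * k + 2 * (C + 6) + 3)) := by
          rw [sq (L : ℝ), mul_assoc, ← mul_div_assoc]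
          gcongr
          rw [le_div_iff₀ (by positivity), mul_comm (L : ℝ), mul_assoc]
          gcongr
          exact le_trans (le_of_eq (by ring)) L1
        have e2 : (X : ℝ) / log X ^ (A + 3) ≤ X / log X ^ (6 * k + 2 * (C + 6) + 3) := by
          gcongr
        have e3 : 2 * ((X : ℝ) / log X ^ (6 * k + 2 * (C + 6) + 3)) ≤ X / log X ^ (6 * k + 2 * (C + 6) + 2) := by
          rw [pow_succ _ (6 * k + 2 * (C + 6) + 2), ← div_div, ← mul_div_assoc, div_le_iff₀ l0, mul_comm]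
          gcongr
        calc _ ≤ X * (L ^ 2 * (X / log X ^ (6 * k + 2 * (C + 6) + 3)) +
              L ^ 2 * (X / log X ^ (6 * k + 2 * (C + 6) + 3))) := by gcongr
          _ = X * L ^ 2 * (2 * (X / log X ^ (6 * k + 2 * (C + 6) + 3))) := by ring
          _ ≤ X * L ^ 2 * (X / log X ^ (6 * k + 2 * (C + 6) + 2)) := by gcongr
          _ = _ := by field_simp; ring) g0) k W _ (by positivity) hW
  rw [cI] at key
  refine le_of_mul_le_mul_right ?_ X0
  rw [← nsmul_eq_mul]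
  refine (card_nsmul_le_sum _ _ (X : ℝ) fun h hh => le_of_lt (mem_filter.1 hh).2).trans
    (((sum_le_sum_of_subset_of_nonneg (filter_subset _ _) fun _ _ _ => abs_nonneg _).trans
      key).trans ?_)
  calc _ ≤ log X * L ^ k * log X ^ 6 * (log X ^ 3) ^ k * (X / log X ^ (3 * k + (C + 6) + 1)) := by gcongr
    _ = _ := by field_simp; ring

theorem MM_FbW (m a A j : ℕ) (hA : a ≤ A)
    (hr : ∀ᶠ X : ℕ in atTop, 2 * log X ≤ log X ^ (4 / 125 : ℝ) * r0 X) :
    ∀ᶠ X : ℕ in atTop, ∀ H T : Finset ℤ, T ⊆ H → H.card = m + 2 → T.card = m →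
    (∀ h ∈ H, 2 * |h| ≤ X) → (∀ p ∈ EE X, ∀ c ∈ H, ∀ c' ∈ H, (p : ℤ) ∣ c - c' → c = c') →
    ∀ W : ℤ → ℝ, (∀ n ∈ Ioc (X : ℤ) (2 * X), 0 ≤ W n ∧ W n ≤ (log X ^ (4 / 125 : ℝ) * r0 X) ^ 2 ∧
      (W n ≠ 0 → ∀ h ∈ H, h ∉ T → AA (zz X) (alp a X) (n + h))) →
    |∑ n ∈ Ioc (X : ℤ) (2 * X), W n * ∏ h ∈ T, Fb (zz X) (n + h) -
      ∑ n ∈ Ioc (X : ℤ) (2 * X), W n * ∏ h ∈ T, MM j A X (n + h)| ≤
      2 ^ m * (eu j X * r0 X ^ (m + 2) * (X * PH H (zz X) (alp a X))) +
        (2 ^ m * 10 ^ (j * m) + m) * ((log X ^ 3) ^ (m + 2) * (X / log X ^ a)) := by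
  filter_upwards [small_countV (m + 2) a j, big_countV A, F_le, r0_bd, tl.eventually_ge_atTop 1,
    hr, ev_le 1 0 (show (4 / 125 : ℝ) < 1 by norm_num),
    (eu_zero j).eventually (eventually_le_nhds one_pos)]
    with X h1 h2' h3 h4 l1 R2 h5 h6 H T hT hH hm hX hd W hW
  rw [pow_zero, mul_one, one_mul, rpow_one] at h5
  have l0 : 0 < log X := by linarith
  have h2 := h2'.trans (div_le_div_of_nonneg_left X.cast_nonneg (by positivity)
    (pow_le_pow_right₀ l1 hA))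
  have r : 0 < r0 X := lt_of_lt_of_le (by positivity) h4.1
  have u1 : 1 ≤ log X ^ (4 / 125 : ℝ) := one_le_rpow l1 (by norm_num)
  set R := log X ^ (4 / 125 : ℝ) * r0 X with hR
  have R1 : r0 X ≤ R := le_mul_of_one_le_left r.le u1
  have R3 : R ≤ log X ^ 3 := (mul_le_mul h5 h4.2 r.le l0.le).trans (le_of_eq (by ring))
  have R0 : 0 ≤ R := r.le.trans R1
  let Q : ℤ → Prop := fun n => ∀ h ∈ T, AA (zz X) (alp a X) (n + h)
  have pt : ∀ n ∈ Ioc (X : ℤ) (2 * X), |∏ h ∈ T, Fb (zz X) (n + h) - ∏ h ∈ T, MM j A X (n + h)| ≤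
      ∑ J ∈ T.powerset.erase ∅, R ^ J.card * r0 X ^ (T \ J).card *
        ind (Q n ∧ ∀ c ∈ J, wE (EE X) (n + c) < j) + (log X ^ 3) ^ m *
        ind (∃ h ∈ T, (A + 5) * log (log X) < wE (EE X) (n + h)) := by
    intro n hn
    have f := fun h hh => h3 (alp a X) (n + h) (by
      have := hX h (hT hh); have := neg_abs_le h; rw [mem_Ioc] at hn; omega) (by
      have := hX h (hT hh); have := le_abs_self h; rw [mem_Ioc] at hn; omega)
    have m : ∀ h ∈ T, 0 ≤ MM j A X (n + h) ∧ MM j A X (n + h) ≤ R ∧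
        (¬ AA (zz X) (alp a X) (n + h) → MM j A X (n + h) = 0) := fun h hh => by
      obtain ⟨a, b⟩ := f h hh
      unfold MM
      split_ifs
      · exact ⟨b.1, b.2.1.trans R1, b.2.2⟩
      · exact ⟨a.1, a.2.1.trans R2, a.2.2⟩
    have s0 : ∀ J ∈ T.powerset.erase ∅, 0 ≤ R ^ J.card * r0 X ^ (T \ J).card *
        ind (Q n ∧ ∀ c ∈ J, wE (EE X) (n + c) < j) := fun _ _ =>
      mul_nonneg (by positivity) (ind_nonneg _)
    have two : ∀ {g : ℤ → ℝ}, (∀ h ∈ T, Fb (zz X) (n + h) ≤ g h ∧ MM j A X (n + h) ≤ g h) →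
        |∏ h ∈ T, Fb (zz X) (n + h) - ∏ h ∈ T, MM j A X (n + h)| ≤ ∏ h ∈ T, g h := fun {g} hg => by
      have a1 := prod_nonneg fun h hh => (f h hh).2.1
      have a2 := prod_nonneg fun h hh => (m h hh).1
      have a3 := prod_le_prod (fun h hh => (f h hh).2.1) fun h hh => (hg h hh).1
      have a4 := prod_le_prod (fun h hh => (m h hh).1) fun h hh => (hg h hh).2
      exact abs_le.2 ⟨by linarith, by linarith⟩
    by_cases b : ∃ h ∈ T, (A + 5) * log (log X) < wE (EE X) (n + h)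
    · rw [ind_pos b, mul_one]
      refine le_add_of_nonneg_of_le (sum_nonneg s0) ((two (g := fun _ => log X ^ 3) fun h hh =>
        ⟨(f h hh).2.2.1.trans (R1.trans R3), (m h hh).2.1.trans R3⟩).trans ?_)
      rw [prod_const, hm]
    rw [ind_neg b, mul_zero, add_zero]
    have gd : ∀ h ∈ T, ¬ wE (EE X) (n + h) < j → MM j A X (n + h) = Fb (zz X) (n + h) :=
      fun h hh c => if_pos (mem_Icc.2 ⟨not_lt.1 c, Nat.le_floor (not_lt.1 fun d => b ⟨h, hh, d⟩)⟩)
    by_cases q : Q n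
    swap
    · simp only [Q, not_forall] at q
      obtain ⟨h, hh, q⟩ := q
      rw [prod_eq_zero hh ((f h hh).2.2.2 q), prod_eq_zero hh ((m h hh).2.2 q), sub_zero, abs_zero]
      exact sum_nonneg s0
    by_cases e : T.filter (fun h => wE (EE X) (n + h) < j) = ∅
    · rw [prod_congr rfl fun h hh => gd h hh (filter_eq_empty_iff.1 e hh), sub_self, abs_zero]
      exact sum_nonneg s0
    refine le_trans ?_ (single_le_sum s0 (mem_erase.2 ⟨e, mem_powerset.2 (filter_subset _ _)⟩))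
    rw [ind_pos ⟨q, fun c hc => (mem_filter.1 hc).2⟩, mul_one, ← filter_not, ← prod_const,
      ← prod_const, ← prod_ite]
    refine two fun h hh => ?_
    split_ifs with c
    · exact ⟨(f h hh).2.2.1.trans R1, (m h hh).2.1⟩
    · rw [gd h hh c]; exact ⟨(f h hh).2.2.1, (f h hh).2.2.1⟩
  have pt' : ∀ n ∈ Ioc (X : ℤ) (2 * X), |W n * ∏ h ∈ T, Fb (zz X) (n + h) -
      W n * ∏ h ∈ T, MM j A X (n + h)| ≤ R ^ 2 * (∑ J ∈ T.powerset.erase ∅, R ^ J.card *
        r0 X ^ (T \ J).card * ind ((∀ h ∈ H, AA (zz X) (alp a X) (n + h)) ∧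
        ∀ c ∈ J, wE (EE X) (n + c) < j) + (log X ^ 3) ^ m *
        ind (∃ h ∈ T, (A + 5) * log (log X) < wE (EE X) (n + h))) := fun n hn => by
    obtain ⟨a1, a2, a3⟩ := hW n hn
    rw [← mul_sub, abs_mul, abs_of_nonneg a1]
    by_cases e : W n = 0
    · rw [e, zero_mul]
      exact mul_nonneg (sq_nonneg _) (add_nonneg (sum_nonneg fun _ _ =>
        mul_nonneg (by positivity) (ind_nonneg _)) (mul_nonneg (by positivity) (ind_nonneg _)))
    have q : (∀ h ∈ H, AA (zz X) (alp a X) (n + h)) = Q n := propext ⟨fun c h hh => c h (hT hh),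
      fun c h hh => if d : h ∈ T then c h d else a3 e h hh d⟩
    rw [q]
    exact mul_le_mul a2 (pt n hn) (abs_nonneg _) (sq_nonneg _)
  rw [← sum_sub_distrib]
  refine ((abs_sum_le_sum_abs _ _).trans (sum_le_sum pt')).trans ?_
  rw [← mul_sum, sum_add_distrib, sum_comm, ← mul_sum, mul_add, mul_sum]
  have X0 : 0 ≤ (X : ℝ) / log X ^ a := by positivity
  have P0 : 0 ≤ X * PH H (zz X) (alp a X) := mul_nonneg X.cast_nonneg (PH_nonneg _ _ _)
  have b1 : ct X (fun n => ∃ h ∈ T, (A + 5) * log (log X) < wE (EE X) (n + h)) ≤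
      m * (X / log X ^ a) := by
    refine (sum_le_sum fun n _ => ind_ex _ _).trans ?_
    rw [sum_comm, ← hm, ← nsmul_eq_mul]
    refine sum_le_card_nsmul _ _ _ fun h hh =>
      (ct_le_cu ?_ fun n => (A + 5) * log (log X) < wE (EE X) n).trans h2
    have := hX h (hT hh)
    have := abs_nonneg h
    omega
  have e0 : 0 ≤ eu j X := by unfold eu; positivity
  refine (add_le_add (b := 2 ^ m * (eu j X * r0 X ^ (m + 2) * (X * PH H (zz X) (alp a X)) +
    10 ^ (j * m) * ((log X ^ 3) ^ (m + 2) * (X / log X ^ a))))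
    (d := (log X ^ 3) ^ 2 * ((log X ^ 3) ^ m * (m * (X / log X ^ a)))) ?_
    (mul_le_mul (pow_le_pow_left₀ R0 R3 2) (mul_le_mul_of_nonneg_left b1 (by positivity))
      (mul_nonneg (by positivity) (ct_nonneg _ _)) (by positivity))).trans (le_of_eq (by ring))
  refine (sum_le_card_nsmul _ _ (eu j X * r0 X ^ (m + 2) * (X * PH H (zz X) (alp a X)) +
    10 ^ (j * m) * ((log X ^ 3) ^ (m + 2) * (X / log X ^ a))) fun J hJ => ?_).trans ?_
  rotate_left
  · rw [nsmul_eq_mul]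
    refine mul_le_mul_of_nonneg_right ?_ (by positivity)
    exact_mod_cast card_erase_le.trans (by rw [card_powerset, hm])
  obtain ⟨J0, J1⟩ := mem_erase.1 hJ
  rw [mem_powerset] at J1
  have c : J.card + (T \ J).card = m := by rw [add_comm, card_sdiff_add_card_eq_card J1, hm]
  rw [← mul_sum, ← mul_assoc]
  refine (mul_le_mul_of_nonneg_left (h1 H J hH (J1.trans hT) fun p hp c hc c' hc' =>
    hd p hp c (hT (J1 hc)) c' (hT (J1 hc'))) (by positivity)).trans ?_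
  rw [mul_add, mul_add]
  refine add_le_add ?_ ?_
  · have e1 : eu j X = (log X ^ (4 / 125 : ℝ)) ^ 2 *
        (log X ^ (4 / 125 : ℝ) * 10 ^ j * exp (-(9 / 10 * LL X))) := by rw [eu]; ring
    have e2 : log X ^ (4 / 125 : ℝ) * 10 ^ j * exp (-(9 / 10 * LL X)) ≤ 1 :=
      (le_mul_of_one_le_left (by positivity) (one_le_pow₀ u1)).trans (e1.ge.trans h6)
    have := pow_le_of_le_one (by positivity) e2 (card_ne_zero.2 (nonempty_iff_ne_empty.2 J0))
    calc _ = (log X ^ (4 / 125 : ℝ)) ^ 2 * (log X ^ (4 / 125 : ℝ) * 10 ^ j *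
          exp (-(9 / 10 * LL X))) ^ J.card * r0 X ^ (m + 2) * (X * PH H (zz X) (alp a X)) := by
          rw [← c, hR, pow_mul]; simp only [mul_pow, pow_add]; ring
      _ ≤ _ := by rw [e1]; gcongr
  · calc _ ≤ (log X ^ 3) ^ 2 * ((log X ^ 3) ^ J.card * (log X ^ 3) ^ (T \ J).card) *
          (10 ^ (j * m) * (X / log X ^ a)) := by
          gcongr
          · exact R1.trans R3
          · norm_num
          · omega
      _ = _ := by rw [← pow_add, c]; ring

end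

section
open Finset Filter Topology Real
open Classical

lemma sq_count (a : ℕ) : ∀ᶠ X : ℕ in atTop,
    cu X (fun n => ∃ d : ℕ, ⌊log X ^ (a + 1)⌋₊ < d ∧ (d : ℤ) ^ 2 ∣ n) ≤ X / log X ^ a := by
  filter_upwards [tl.eventually_ge_atTop 6] with X h3
  have l0 : 0 < log X := by linarith
  refine (cu_ex X (Ioo ⌊log X ^ (a + 1)⌋₊ (3 * X + 1)) (· ^ 2) ?_).trans ?_
  · rintro n a b ⟨d, c, e⟩
    refine ⟨d, mem_Ioo.2 ⟨c, ?_⟩, by exact_mod_cast e⟩
    have := Int.le_of_dvd a ((dvd_pow_self _ two_ne_zero).trans e)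
    omega
  · push_cast
    refine (mul_le_mul_of_nonneg_left ((sum_Ioo_inv_sq_le _ _).trans (div_le_div_of_nonneg_left
      two_pos.le (pow_pos l0 (a + 1)) (Nat.lt_floor_add_one _).le)) (by positivity)).trans ?_
    rw [show 3 * (X : ℝ) * (2 / log X ^ (a + 1)) = X / log X ^ a * (6 / log X) by field_simp; ring]
    exact mul_le_of_le_one_right (by positivity) ((div_le_one l0).2 h3)

lemma P_bd : ∀ᶠ X : ℕ in atTop, ∀ (α : ℕ) (a b : ℤ), 2 * |a| ≤ X → 2 * |b| ≤ X →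
    ∀ n ∈ Ioc (X : ℤ) (2 * X), (0 ≤ FF (zz X) (n + a) * FF (zz X) (n + b) ∧
      FF (zz X) (n + a) * FF (zz X) (n + b) ≤ (2 * log X) ^ 2) ∧
      (0 ≤ Fb (zz X) (n + a) * Fb (zz X) (n + b) ∧ Fb (zz X) (n + a) * Fb (zz X) (n + b) ≤ r0 X ^ 2) ∧
      (¬ (AA (zz X) α (n + a) ∧ AA (zz X) α (n + b)) → FF (zz X) (n + a) * FF (zz X) (n + b) = 0 ∧
        Fb (zz X) (n + a) * Fb (zz X) (n + b) = 0) := by
  filter_upwards [F_le] with X h α a b ha hb n hn
  have a1 := le_abs_self a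
  have a2 := neg_abs_le a
  have b1 := le_abs_self b
  have b2 := neg_abs_le b
  rw [mem_Ioc] at hn
  obtain ⟨u, u'⟩ := h α (n + a) (by omega) (by omega)
  obtain ⟨v, v'⟩ := h α (n + b) (by omega) (by omega)
  refine ⟨⟨mul_nonneg u.1 v.1, ?_⟩, ⟨mul_nonneg u'.1 v'.1, ?_⟩, fun c => ?_⟩
  · rw [sq]; exact mul_le_mul u.2.1 v.2.1 v.1 (u.1.trans u.2.1)
  · rw [sq]; exact mul_le_mul u'.2.1 v'.2.1 v'.1 (u'.1.trans u'.2.1)
  · rcases not_and_or.1 c with c | c
    · rw [u.2.2 c, u'.2.2 c, zero_mul, zero_mul]; exact ⟨rfl, rfl⟩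
    · rw [v.2.2 c, v'.2.2 c, mul_zero, mul_zero]; exact ⟨rfl, rfl⟩

lemma six_bd : ∀ᶠ X : ℕ in atTop, (2 * log X) ^ 2 ≤ log X ^ 6 ∧ r0 X ^ 2 ≤ log X ^ 6 ∧
    0 < r0 X ∧ r0 X ≤ log X ^ 3 := by
  filter_upwards [r0_bd, tl.eventually_ge_atTop 2] with X h l2
  have l0 : 0 < log X := by linarith
  have l1 : 1 ≤ log X := by linarith
  have r : 0 < r0 X := lt_of_lt_of_le (by positivity) h.1
  have r3 := h.2.trans (pow_le_pow_right₀ l1 (show 2 ≤ 3 by norm_num))
  refine ⟨?_, (pow_le_pow_left₀ r.le r3 2).trans (le_of_eq (by ring)), r, r3⟩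
  calc _ ≤ (log X * log X) ^ 2 := by gcongr
    _ = log X ^ 4 := by ring
    _ ≤ _ := pow_le_pow_right₀ l1 (by norm_num)

lemma Dp_bd (j A : ℕ) : ∀ᶠ X : ℕ in atTop, ∀ a b : ℤ, 2 * |a| ≤ X → 2 * |b| ≤ X →
    ∀ n ∈ Ioc (X : ℤ) (2 * X), |Dp j A X a b n| ≤ log X ^ 6 := by
  filter_upwards [P_bd, six_bd] with X h1 h2 a b ha hb n hn
  obtain ⟨u, v, -⟩ := h1 0 a b ha hb n hn
  unfold Dp
  split_ifs
  · exact abs_le.2 ⟨by linarith [u.1, v.2, h2.2.1], by linarith [u.2, v.1, h2.1]⟩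
  · rw [abs_zero]; positivity

theorem pair_sw (m a₀ A j : ℕ) (hA : a₀ ≤ A)
    (hr : ∀ᶠ X : ℕ in atTop, 2 * log X ≤ log X ^ (4 / 125 : ℝ) * r0 X) :
    ∀ᶠ X : ℕ in atTop, ∀ (a b : ℤ) (T : Finset ℤ), (insert a (insert b T)).card = m + 2 → T.card = m →
    (∀ h ∈ insert a (insert b T), 2 * |h| ≤ X) →
    |∑ n ∈ Ioc (X : ℤ) (2 * X), Dp j A X a b n *
      ∏ h ∈ T, nm (zz X) (alp a₀ X) ⌊log X ^ (a₀ + 1)⌋₊ (n + h)| ≤ X / log X ^ a₀ →
    r0 X ^ m * |∑ n ∈ Ioc (X : ℤ) (2 * X), ind (∀ h ∈ T, AA (zz X) (alp a₀ X) (n + h)) *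
        (Fb (zz X) (n + a) * Fb (zz X) (n + b)) -
      ∑ n ∈ Ioc (X : ℤ) (2 * X), FF (zz X) (n + a) * FF (zz X) (n + b) *
        ind (∀ h ∈ T, AA (zz X) (alp a₀ X) (n + h))| ≤
      2 * (eu j X * r0 X ^ (m + 2) * (X * PH (insert a (insert b T)) (zz X) (alp a₀ X))) +
        (2 * 10 ^ j + 3 + 2 * m) * ((log X ^ 3) ^ (m + 2) * (X / log X ^ a₀)) := by
  filter_upwards [small_countV (m + 2) a₀ j, big_countV A, P_bd, six_bd, tl.eventually_ge_atTop 1,
    hr, Dp_bd j A, sq_count a₀, bad_countV a₀, tz.eventually_ge_atTop 2,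
    ev_le 1 0 (show (4 / 125 : ℝ) < 1 by norm_num), r0_bd]
    with X h1 h2' h3 h4 l1 R2 h5 h6 h7 z2 h8 h9 a b T hH hm hX hD
  rw [pow_zero, mul_one, one_mul, rpow_one] at h8
  have l0 : 0 < log X := by linarith
  have h2 := h2'.trans (div_le_div_of_nonneg_left X.cast_nonneg (by positivity)
    (pow_le_pow_right₀ l1 hA))
  have r := h4.2.2.1
  have u1 : 1 ≤ log X ^ (4 / 125 : ℝ) := one_le_rpow l1 (by norm_num)
  set R := log X ^ (4 / 125 : ℝ) * r0 X with hR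
  have R1 : r0 X ≤ R := le_mul_of_one_le_left r.le u1
  have R3 : R ≤ log X ^ 3 := (mul_le_mul h8 h9.2 r.le l0.le).trans (le_of_eq (by ring))
  have R0 : 0 ≤ R := r.le.trans R1
  have R6 : R ^ 2 ≤ log X ^ 6 := (pow_le_pow_left₀ R0 R3 2).trans (le_of_eq (by ring))
  have aX := hX a (mem_insert_self _ _)
  have bX := hX b (mem_insert_of_mem (mem_insert_self _ _))
  have tX : ∀ h ∈ T, |h| ≤ X := fun h hh => by
    have := hX h (mem_insert_of_mem (mem_insert_of_mem hh))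
    have := abs_nonneg h
    omega
  set H := insert a (insert b T) with hH'
  let Q : ℤ → Prop := fun n => ∀ h ∈ H, AA (zz X) (alp a₀ X) (n + h)
  let B : ℤ → Prop := fun n => (∃ d : ℕ, ⌊log X ^ (a₀ + 1)⌋₊ < d ∧ (d : ℤ) ^ 2 ∣ n) ∨
    Bad (zz X) (YY X) (alp a₀ X) n
  let G : ℤ → Prop := fun n => (A + 5) * log (log X) < wE (EE X) n
  have pt : ∀ n ∈ Ioc (X : ℤ) (2 * X), |FF (zz X) (n + a) * FF (zz X) (n + b) *
      ind (∀ h ∈ T, AA (zz X) (alp a₀ X) (n + h)) - ind (∀ h ∈ T, AA (zz X) (alp a₀ X) (n + h)) *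
      (Fb (zz X) (n + a) * Fb (zz X) (n + b)) - Dp j A X a b n *
      ∏ h ∈ T, nm (zz X) (alp a₀ X) ⌊log X ^ (a₀ + 1)⌋₊ (n + h)| ≤
      log X ^ 6 * ind (∃ h ∈ T, B (n + h)) + (R ^ 2 * (ind (Q n ∧ ∀ c ∈ ({a} : Finset ℤ),
        wE (EE X) (n + c) < j) + ind (Q n ∧ ∀ c ∈ ({b} : Finset ℤ), wE (EE X) (n + c) < j)) +
        log X ^ 6 * (ind (G (n + a)) + ind (G (n + b)))) := fun n hn => by
    obtain ⟨u, v, w⟩ := h3 (alp a₀ X) a b aX bX n hn
    have d := h5 a b aX bX n hn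
    have i1 := mul_nonneg (pow_pos l0 6).le (ind_nonneg (∃ h ∈ T, B (n + h)))
    have j1 := ind_nonneg (Q n ∧ ∀ c ∈ ({a} : Finset ℤ), wE (EE X) (n + c) < j)
    have j2 := ind_nonneg (Q n ∧ ∀ c ∈ ({b} : Finset ℤ), wE (EE X) (n + c) < j)
    have j3 := ind_nonneg (G (n + a))
    have j4 := ind_nonneg (G (n + b))
    have i2 := mul_nonneg (sq_nonneg R) (add_nonneg j1 j2)
    have i3 := mul_nonneg (pow_pos l0 6).le (add_nonneg j3 j4)
    by_cases q : ∀ h ∈ T, AA (zz X) (alp a₀ X) (n + h)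
    swap
    · have q' := q
      push Not at q'
      obtain ⟨h, hh, c⟩ := q'
      have := nm_bd (zz X) (alp a₀ X) ⌊log X ^ (a₀ + 1)⌋₊ (n + h)
      rw [ind_neg c] at this
      rw [ind_neg q, prod_eq_zero hh (le_antisymm this.2 this.1), mul_zero, zero_mul, mul_zero,
        sub_zero, sub_zero, abs_zero]
      linarith
    have p0 := prod_nonneg fun h (_ : h ∈ T) => (nm_bd (zz X) (alp a₀ X) ⌊log X ^ (a₀ + 1)⌋₊ (n + h)).1
    have p1 := prod_le_one (fun h (_ : h ∈ T) => (nm_bd (zz X) (alp a₀ X) ⌊log X ^ (a₀ + 1)⌋₊ (n + h)).1)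
      fun h _ => (nm_bd _ _ _ _).2.trans (ind_le _)
    rw [ind_pos q, mul_one, one_mul]
    by_cases g : wE (EE X) (n + a) ∈ TW j A X ∧ wE (EE X) (n + b) ∈ TW j A X
    · have e : FF (zz X) (n + a) * FF (zz X) (n + b) - Fb (zz X) (n + a) * Fb (zz X) (n + b) =
        Dp j A X a b n := (if_pos g).symm
      rw [e, ← mul_one_sub, abs_mul, abs_of_nonneg (sub_nonneg.2 p1)]
      refine le_add_of_le_of_nonneg (mul_le_mul d ?_ (sub_nonneg.2 p1) (by positivity)) (by linarith)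
      by_cases c : ∃ h ∈ T, B (n + h)
      · rw [ind_pos c]; linarith
      · rw [ind_neg c, sub_nonpos]
        refine one_le_prod fun h hh => ?_
        exact nm_lo (α := ⌈2 * (a₀ + 1) * log (log X)⌉₊ + 1) z2 (q h hh)
          (fun e => c ⟨h, hh, .inl e⟩) fun e => c ⟨h, hh, .inr (.inr (.inr e))⟩
    rw [show Dp j A X a b n = 0 from if_neg g, zero_mul, sub_zero]
    by_cases c : AA (zz X) (alp a₀ X) (n + a) ∧ AA (zz X) (alp a₀ X) (n + b)
    swap
    · rw [(w c).1, (w c).2, sub_zero, abs_zero]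
      linarith
    have hQ : Q n := fun h hh => by
      rcases mem_insert.1 hh with rfl | hh
      · exact c.1
      rcases mem_insert.1 hh with rfl | hh
      · exact c.2
      · exact q h hh
    have e : |FF (zz X) (n + a) * FF (zz X) (n + b) - Fb (zz X) (n + a) * Fb (zz X) (n + b)| ≤ R ^ 2 := by
      have := pow_le_pow_left₀ (by positivity) R2 2
      have := pow_le_pow_left₀ r.le R1 2
      exact abs_le.2 ⟨by linarith [u.1, v.2], by linarith [u.2, v.1]⟩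
    have s : ∀ c : ℤ, wE (EE X) (n + c) ∉ TW j A X →
        ind (Q n ∧ ∀ c' ∈ ({c} : Finset ℤ), wE (EE X) (n + c') < j) = 1 ∨ ind (G (n + c)) = 1 :=
      fun c hc => by
        by_cases f : wE (EE X) (n + c) < j
        · exact .inl (ind_pos ⟨hQ, by simpa using f⟩)
        · exact .inr (ind_pos (lt_of_not_ge fun d =>
            hc (mem_Icc.2 ⟨not_lt.1 f, Nat.le_floor d⟩)))
    have k1 := mul_nonneg (sq_nonneg R) j1
    have k2 := mul_nonneg (sq_nonneg R) j2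
    have k3 := mul_nonneg (pow_pos l0 6).le j3
    have k4 := mul_nonneg (pow_pos l0 6).le j4
    rcases not_and_or.1 g with g | g <;> rcases s _ g with t | t <;> rw [t] <;> linarith
  have X0 : 0 ≤ (X : ℝ) / log X ^ a₀ := by positivity
  have b1 : ct X (fun n => ∃ h ∈ T, B (n + h)) ≤ m * (2 * (X / log X ^ a₀)) := by
    refine (sum_le_sum fun n _ => ind_ex _ _).trans ?_
    rw [sum_comm, ← hm, ← nsmul_eq_mul]
    refine sum_le_card_nsmul _ _ _ fun h hh => (ct_le_cu (tX h hh) B).trans ?_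
    refine (sum_le_sum fun n _ => ind_or_le _ _).trans ?_
    rw [sum_add_distrib, two_mul]
    exact add_le_add h6 h7
  have b2 : ∀ c ∈ H, ct X (fun n => Q n ∧ ∀ c' ∈ ({c} : Finset ℤ), wE (EE X) (n + c') < j) ≤
      10 ^ j * (X * PH H (zz X) (alp a₀ X) * exp (-(9 / 10 * LL X)) + X / log X ^ a₀) := fun c hc => by
    have := h1 H {c} hH (singleton_subset_iff.2 hc) (by simp)
    rwa [card_singleton, mul_one, pow_one] at this
  have b3 : ∀ c : ℤ, 2 * |c| ≤ X → ct X (fun n => G (n + c)) ≤ X / log X ^ a₀ := fun c hc =>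
    (ct_le_cu (by have := abs_nonneg c; omega) G).trans h2
  have s := (abs_sum_le_sum_abs _ _).trans (sum_le_sum pt)
  rw [sum_sub_distrib, sum_sub_distrib, sum_add_distrib, sum_add_distrib, ← mul_sum, ← mul_sum,
    ← mul_sum, sum_add_distrib, sum_add_distrib] at s
  have s2 := s.trans (add_le_add (mul_le_mul_of_nonneg_left b1 (by positivity)) (add_le_add
    (mul_le_mul_of_nonneg_left (add_le_add (b2 a (mem_insert_self _ _))
      (b2 b (mem_insert_of_mem (mem_insert_self _ _)))) (sq_nonneg R))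
    (mul_le_mul_of_nonneg_left (add_le_add (b3 a aX) (b3 b bX)) (by positivity))))
  rw [abs_sub_comm]
  refine (mul_le_mul_of_nonneg_left ((abs_sub_abs_le_abs_sub _ _).trans s2 |> sub_le_iff_le_add.1
    |>.trans (add_le_add_right hD _)) (by positivity)).trans ?_
  have P0 : 0 ≤ X * PH H (zz X) (alp a₀ X) := mul_nonneg X.cast_nonneg (PH_nonneg _ _ _)
  generalize X * PH H (zz X) (alp a₀ X) = P at *
  generalize (X : ℝ) / log X ^ a₀ = γ at *
  have c1 : r0 X ^ m * log X ^ 6 * γ ≤ (log X ^ 3) ^ (m + 2) * γ :=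
    calc _ ≤ (log X ^ 3) ^ m * log X ^ 6 * γ := by gcongr; exact h4.2.2.2
      _ = _ := by ring
  have c2 : r0 X ^ m * R ^ 2 * γ ≤ r0 X ^ m * log X ^ 6 * γ := by gcongr
  have c3 : r0 X ^ m * 1 * γ ≤ r0 X ^ m * log X ^ 6 * γ := by gcongr; exact one_le_pow₀ l1
  have c4 : r0 X ^ m * R ^ 2 * 10 ^ j * exp (-(9 / 10 * LL X)) * P ≤ eu j X * r0 X ^ (m + 2) * P := by
    refine mul_le_mul_of_nonneg_right ?_ P0
    calc _ = (log X ^ (4 / 125 : ℝ)) ^ 2 * 10 ^ j * exp (-(9 / 10 * LL X)) * r0 X ^ (m + 2) := by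
          rw [hR]; ring
      _ ≤ _ := by unfold eu; gcongr; norm_num
  have c5 := mul_le_mul_of_nonneg_left (c2.trans c1) (show (0 : ℝ) ≤ 10 ^ j by positivity)
  have c6 := mul_le_mul_of_nonneg_left c1 m.cast_nonneg
  linarith

theorem scale_bad (m a₀ C : ℕ) : ∃ B A₀ : ℕ, ∀ A : ℕ, A₀ ≤ A → ∃ j j' : ℕ, ∀ᶠ X : ℕ in atTop,
    ∀ a b : ℤ, a ≠ b → |(a : ℝ)| ≤ log X ^ A → |(b : ℝ)| ≤ log X ^ A → ∀ L : ℕ,
    log X ^ B ≤ L → L ≤ log X ^ A →
    (((Fintype.piFinset fun _ : Fin m => Icc (1 : ℤ) L).filter fun h =>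
      X / log X ^ a₀ < |∑ n ∈ Ioc (X : ℤ) (2 * X), Dp j A X a b n *
        ∏ i, nm (zz X) (alp a₀ X) ⌊log X ^ (a₀ + 1)⌋₊ (n + h i)| ∨
      (X : ℝ) < |∑ n ∈ Ioc (X : ℤ) (2 * X), FF (zz X) (n + a) * FF (zz X) (n + b) *
        (∏ i, FF (zz X) (n + h i) - ∏ i, MM j' A X (n + h i))|).card : ℝ)
      ≤ 2 * (L ^ m / log X ^ C) := by
  obtain ⟨B, A₀, h⟩ := rec_eq a₀ (a₀ + 1) m (a₀ + C + 6)
  refine ⟨B + (6 * m + 2 * (C + 6) + 9), 2 * A₀ + (6 * m + 2 * (C + 6)), fun A hA => ?_⟩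
  obtain ⟨j, hj⟩ := Dp_eqd A₀ A (by omega)
  obtain ⟨j', hj'⟩ := avg_badW m C A (by omega)
  refine ⟨j, j', ?_⟩
  filter_upwards [h A, hj, hj', Dp_bd j A, P_bd, six_bd, tl.eventually_ge_atTop 1, ev_pw 2 A,
    eventually_gt_atTop 0] with X h1 h2 h3 h4 h5 h6 l1 h7 h8 a b hab ha hb L L1 L2
  have l0 : 0 < log X := by linarith
  have X0 : (0 : ℝ) < X := by exact_mod_cast h8
  have aX : 2 * |a| ≤ X := by exact_mod_cast (by linarith : 2 * |(a : ℝ)| ≤ X)
  have bX : 2 * |b| ≤ X := by exact_mod_cast (by linarith : 2 * |(b : ℝ)| ≤ X)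
  have k1 := h1 L ((pow_le_pow_right₀ l1 (by omega)).trans L1) L2 _ _ (pow_pos l0 6).le
    (h4 a b aX bX) fun q q0 q1 φ φ1 φ2 => (h2 a b hab ha hb q q0 q1 φ φ1 φ2).trans
      (le_mul_of_one_le_left (by positivity) (one_le_pow₀ l1))
  have k2 := h3 L ((pow_le_pow_right₀ l1 (by omega)).trans L1) L2
    (fun n => FF (zz X) (n + a) * FF (zz X) (n + b)) fun n hn => by
      obtain ⟨u, -⟩ := h5 0 a b aX bX n hn
      rw [abs_of_nonneg u.1]
      exact u.2.trans h6.1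
  rw [filter_or, two_mul ((L : ℝ) ^ m / log X ^ C)]
  refine (Nat.cast_le.2 (card_union_le _ _)).trans ((Nat.cast_add _ _).le.trans (add_le_add ?_ k2))
  refine le_of_mul_le_mul_right ?_ (show 0 < X / log X ^ a₀ by positivity)
  rw [← nsmul_eq_mul]
  refine (card_nsmul_le_sum _ _ _ fun h hh => le_of_lt (mem_filter.1 hh).2).trans
    (((sum_le_sum_of_subset_of_nonneg (filter_subset _ _) fun _ _ _ => abs_nonneg _).trans
      k1).trans (le_of_eq ?_))
  field_simp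
  ring

end

section
open Finset Filter Topology Real
open Classical

/-- the two conditions at one scale -/
def Ok2 (m a₀ j j' A X : ℕ) (a b : ℤ) (T : Finset ℤ) : Prop :=
  a ≠ b ∧ a ∉ T ∧ b ∉ T ∧ T.card = m ∧
    |∑ n ∈ Ioc (X : ℤ) (2 * X), Dp j A X a b n *
      ∏ h ∈ T, nm (zz X) (alp a₀ X) ⌊log X ^ (a₀ + 1)⌋₊ (n + h)| ≤ X / log X ^ a₀ ∧
    |∑ n ∈ Ioc (X : ℤ) (2 * X), FF (zz X) (n + a) * FF (zz X) (n + b) *
      (∏ h ∈ T, FF (zz X) (n + h) - ∏ h ∈ T, MM j' A X (n + h))| ≤ X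

def Good2 (m a₀ j j' A X : ℕ) (H : Finset ℤ) : Prop :=
  H.card = m + 2 ∧ (∀ h ∈ H, |(h : ℝ)| ≤ log X ^ A) ∧
    ∃ t : ℤ × ℤ × Finset ℤ, H = insert t.1 (insert t.2.1 t.2.2) ∧ Ok2 m a₀ j j' A X t.1 t.2.1 t.2.2

variable {δ : Finset ℤ → ℕ → ℝ}
  (hδ : ∀ (H : Finset ℤ) (p : ℕ), p.Prime → Tendsto (fun α => den H (p ^ α)) atTop (𝓝 (δ H p)))
include hδ

theorem chain2 {m k a₀ A : ℕ} (j j' : ℕ) (hk : k = m + 2) (hA : 3 * k + 1 ≤ a₀) (hA' : a₀ ≤ A) {K : ℝ}
    (K0 : 0 < K) (hK : Tendsto (fun X : ℕ => ct X S2 * √(log X) / X) atTop (𝓝 K)) (g : Ultrafilter ℕ)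
    (hg : (g : Filter ℕ) ≤ atTop) (H : ℕ → Finset ℤ) (hH' : ∀ᶠ X in g, Good2 m a₀ j j' A X (H X)) :
    (∀ᶠ X in g, 0 ≤ SK δ k (H X)) ∧ Tendsto (fun X : ℕ =>
      (ct X (fun n => ∀ h ∈ H X, S2 (n + h)) * √(log X) ^ k / X - K ^ k * SK δ k (H X)) *
        (1 + SK δ k (H X))⁻¹) g (𝓝 0) := by
  have hH : ∀ᶠ X : ℕ in g, (H X).card = k ∧ (∀ h ∈ H X, |(h : ℝ)| ≤ log X ^ A) :=
    hH'.mono fun X a => ⟨a.1.trans hk.symm, a.2.1⟩
  have k0 : k ≠ 0 := by omega
  obtain ⟨τ, hτ⟩ := (hH'.mono fun X a => a.2.2).choice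
  have sp := (hH.and ((ev_sep A).filter_mono hg)).mono fun X a => a.2 _ a.1.2
  obtain ⟨P, hP, hS⟩ := sing_V hδ k H (tz.mono_left hg)
    ((hH.and sp).mono fun X a => ⟨a.1.1, a.2.2.1⟩)
  have S0 : ∀ᶠ X in g, 0 ≤ SK δ k (H X) := by
    filter_upwards [hS, hP.eventually (lt_mem_nhds one_pos)] with X a b
    rw [a]
    exact mul_nonneg (div_nonneg (Dl_nonneg hδ _ _) (pow_nonneg (Dl_nonneg hδ _ _) _)) b.le
  refine ⟨S0, ?_⟩
  set w : ℕ → ℝ := fun X => (1 + SK δ k (H X))⁻¹ with hw'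
  have hw : ∀ᶠ X in (g : Filter ℕ), 0 ≤ w X ∧ w X ≤ 1 := S0.mono fun X a =>
    ⟨inv_nonneg.2 (by linarith), inv_le_one_of_one_le₀ (by linarith)⟩
  obtain ⟨y, -, hy⟩ := (isCompact_Icc (a := (0 : ℝ)) (b := 1)).ultrafilter_le_nhds
    (g.map fun X => SK δ k (H X) * w X) (le_principal_iff.2 (by
      rw [Ultrafilter.coe_map, Filter.mem_map]
      filter_upwards [S0, hw] with X a b
      exact ⟨mul_nonneg a b.1, mul_inv_le_one_of_le₀ (by linarith) (by linarith)⟩))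
  have ty : Tendsto (fun X => SK δ k (H X) * w X) g (𝓝 y) := hy
  have t1 : Tendsto (fun X => r0 X ^ k * Dl δ (H X) (zz X) / √(log X) ^ k * w X) g
      (𝓝 (K ^ k * y)) := by
    have := (((kap hδ hK).mono_left hg).pow k).mul (ty.div hP one_ne_zero)
    rw [div_one] at this
    refine this.congr' ?_
    filter_upwards [hS, hP.eventually (lt_mem_nhds one_pos)] with X a b
    have := (Dl_pos hδ (zz X)).ne'
    have := b.ne'
    simp only [Pi.div_apply]
    generalize w X = u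
    rw [a, div_pow, mul_pow]
    field_simp
  have er := (er_r0 hA).mono_left hg
  have l1 := (tl.eventually_ge_atTop 1).filter_mono hg
  have x0 := (eventually_gt_atTop 0).filter_mono hg
  have t2 := moveW hw t1 (g := fun X => r0 X ^ k * PH (H X) (zz X) (alp a₀ X) / √(log X) ^ k)
    (e := fun X => k * (r0 X ^ k * (1 / log X ^ a₀) / √(log X) ^ k)) (by
      filter_upwards [hH, l1] with X a l
      have := (PH_sub hδ (H X) (zz X) ⌈2 * (a₀ + 1) * log (log X)⌉₊).trans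
        (mul_le_mul_of_nonneg_left (two_pow_ge l a₀ (by linarith [a₀.cast_nonneg (α := ℝ)]))
          (Nat.cast_nonneg _))
      have r : 0 ≤ r0 X ^ k := pow_nonneg (rho_nonneg _ _) _
      rw [a.1, abs_sub_comm] at this
      rw [← sub_div, ← mul_sub, abs_div, abs_mul, abs_of_nonneg r,
        abs_of_nonneg (by positivity : 0 ≤ √(log X) ^ k), ← mul_div_assoc, mul_left_comm]
      exact div_le_div_of_nonneg_right (mul_le_mul_of_nonneg_left this r) (by positivity))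
    (zero_wL hw (by simpa using er.const_mul (k : ℝ)))
  have t3 := moveW hw t2 (g := fun X => r0 X ^ k *
      ct X (fun n => ∀ h ∈ H X, AA (zz X) (alp a₀ X) (n + h)) / (X * √(log X) ^ k))
    (e := fun X => r0 X ^ k * (1 / log X ^ a₀) / √(log X) ^ k) (by
      filter_upwards [hH, l1, x0, (box_asymV k a₀).filter_mono hg] with X a l h5 h2
      have X0 : (0 : ℝ) < X := by exact_mod_cast h5
      have l0 : 0 < log X := by linarith
      have := h2 _ ∅ a.1 (empty_subset _) ∅ (by simp)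
      simp only [notMem_empty, false_imp_iff, implies_true, and_true, prod_empty, mul_one] at this
      have r : 0 ≤ r0 X ^ k := pow_nonneg (rho_nonneg _ _) _
      rw [abs_sub_comm, show r0 X ^ k * ct X (fun n => ∀ h ∈ H X, AA (zz X) (alp a₀ X) (n + h)) /
        (X * √(log X) ^ k) - r0 X ^ k * PH (H X) (zz X) (alp a₀ X) / √(log X) ^ k =
        r0 X ^ k / (X * √(log X) ^ k) * (ct X (fun n => ∀ h ∈ H X, AA (zz X) (alp a₀ X) (n + h))
          - X * PH (H X) (zz X) (alp a₀ X)) by field_simp, abs_mul, abs_of_nonneg (by positivity)]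
      exact (mul_le_mul_of_nonneg_left this (by positivity)).trans (le_of_eq (by field_simp)))
    (zero_wL hw er)
  have hr := r0_sharp hδ K0 hK
  set a : ℕ → ℤ := fun X => (τ X).1
  set b : ℕ → ℤ := fun X => (τ X).2.1
  set T : ℕ → Finset ℤ := fun X => (τ X).2.2
  have hτ' : ∀ᶠ X : ℕ in g, H X = insert (a X) (insert (b X) (T X)) ∧
    Ok2 m a₀ j j' A X (a X) (b X) (T X) := hτ
  clear_value a b T
  have mem : ∀ᶠ X : ℕ in g, a X ∈ H X ∧ b X ∈ H X ∧ T X ⊆ H X := hτ'.mono fun X c => by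
    rw [c.1]
    exact ⟨mem_insert_self _ _, mem_insert_of_mem (mem_insert_self _ _),
      (subset_insert _ _).trans (subset_insert _ _)⟩
  have e3 := (er_zero hA (f := fun X => log X ^ 3) ((tl.eventually_ge_atTop 0).mono fun X a =>
    ⟨by positivity, le_rfl⟩)).mono_left hg
  have six := six_bd.filter_mono hg
  have s1 := (sandW hw (F := fun X => r0 X ^ m * (∑ n ∈ Ioc (X : ℤ) (2 * X),
      ind (∀ h ∈ T X, AA (zz X) (alp a₀ X) (n + h)) *
        (Fb (zz X) (n + a X) * Fb (zz X) (n + b X))) / (X * √(log X) ^ k))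
      (θ := fun X => (rho (zz X) (m1 X) / r0 X) ^ 2) (θ' := fun _ => 1)
      (e := fun X => 2 * (r0 X ^ k * (1 / log X ^ a₀) / √(log X) ^ k)) (by
      filter_upwards [hτ', mem, sp, l1, x0, six, (wsand a₀).filter_mono hg] with X c d s l h5 r h2
      have X0 : (0 : ℝ) < X := by exact_mod_cast h5
      have l0 : 0 < log X := by linarith
      have r0' := r.2.2.1
      have := h2 {a X, b X} (fun h hh => s.1 h (insert_subset d.1 (singleton_subset_iff.2 d.2.1) hh))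
        (fun n => ind (∀ h ∈ T X, AA (zz X) (alp a₀ X) (n + h))) 1 zero_le_one
        fun n _ => ⟨ind_nonneg _, ind_le _⟩
      have e : ∑ n ∈ Ioc (X : ℤ) (2 * X), ind (∀ h ∈ T X, AA (zz X) (alp a₀ X) (n + h)) *
          ind (∀ h ∈ ({a X, b X} : Finset ℤ), AA (zz X) (alp a₀ X) (n + h)) =
          ct X (fun n => ∀ h ∈ H X, AA (zz X) (alp a₀ X) (n + h)) :=
        sum_congr rfl fun n _ => by
          rw [← ind_and, c.1]
          simp only [forall_mem_insert, mem_singleton, forall_eq]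
          congr 1
          exact propext ⟨fun u => ⟨u.2.1, u.2.2, u.1⟩, fun u => ⟨u.2.2, u.1, u.2.1⟩⟩
      simp only [prod_pair c.2.1, card_pair c.2.1, e] at this
      have p : 0 ≤ r0 X ^ m / (X * √(log X) ^ k) := by positivity
      have u1 := mul_le_mul_of_nonneg_left this.1 p
      have u2 := mul_le_mul_of_nonneg_left this.2 p
      subst hk
      exact ⟨(le_of_eq (by push_cast; rw [pow_add (r0 X)]; field_simp)).trans (u1.trans (le_of_eq (by ring))),
        (le_of_eq (by ring)).trans (u2.trans (le_of_eq (by ring)))⟩)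
    (by simpa using (rho_tendsto.mono_left hg).pow 2) tendsto_const_nhds
    (by simpa using er.const_mul 2)).2 t3
  have z : ∀ (i : ℕ) (c c' : ℝ), Tendsto (fun X : ℕ => (c * eu i X *
      (r0 X ^ k * PH (H X) (zz X) (alp a₀ X) / √(log X) ^ k) +
      c' * ((log X ^ 3) ^ k * (1 / log X ^ a₀))) * w X) g (𝓝 0) := fun i c c' => by
    have := ((((eu_zero i).mono_left hg).const_mul c).mul t2).add
      (zero_wL hw (by simpa using e3.const_mul c'))
    simp only [mul_zero, zero_mul, add_zero] at this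
    exact this.congr fun X => by ring
  have fin : ∀ᶠ X : ℕ in g, ∀ (i : ℕ) (c c' u : ℝ), 0 ≤ c' →
      u ≤ c * (eu i X * r0 X ^ (m + 2) * (X * PH (H X) (zz X) (alp a₀ X))) +
        c' * ((log X ^ 3) ^ (m + 2) * (X / log X ^ a₀)) →
      u / (X * √(log X) ^ k) ≤ c * eu i X * (r0 X ^ k * PH (H X) (zz X) (alp a₀ X) / √(log X) ^ k) +
        c' * ((log X ^ 3) ^ k * (1 / log X ^ a₀)) := by
    filter_upwards [l1, x0] with X l h5 i c c' u c0 hu
    have X0 : (0 : ℝ) < X := by exact_mod_cast h5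
    have l0 : 0 < log X := by linarith
    have s : 1 ≤ √(log X) ^ k := one_le_pow₀ (one_le_sqrt.2 l)
    rw [div_le_iff₀ (by positivity), add_mul]
    rw [← hk] at hu
    refine hu.trans (add_le_add (le_of_eq (by field_simp)) ?_)
    calc _ = c' * ((log X ^ 3) ^ k * (1 / log X ^ a₀)) * (X * 1) := by ring
      _ ≤ _ := by gcongr
  have s2 := moveW hw s1 (g := fun X => r0 X ^ m * (∑ n ∈ Ioc (X : ℤ) (2 * X),
      FF (zz X) (n + a X) * FF (zz X) (n + b X) *
      ind (∀ h ∈ T X, AA (zz X) (alp a₀ X) (n + h))) / (X * √(log X) ^ k)) (by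
      filter_upwards [hτ', hH', sp, fin, six, (pair_sw m a₀ A j hA' hr).filter_mono hg]
        with X c d s f r h2
      have := h2 (a X) (b X) (T X) (c.1 ▸ d.1) c.2.2.2.2.1 (c.1 ▸ s.1) c.2.2.2.2.2.1
      rw [← c.1] at this
      rw [← sub_div, ← mul_sub, abs_div, abs_mul, abs_of_nonneg (pow_pos r.2.2.1 m).le,
        abs_of_nonneg (by positivity : 0 ≤ X * √(log X) ^ k)]
      exact f _ _ _ _ (by positivity) this) (z j 2 (2 * 10 ^ j + 3 + 2 * m))
  have PB := P_bd.filter_mono hg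
  have s3 := (sandW hw (F := fun X => (∑ n ∈ Ioc (X : ℤ) (2 * X),
      FF (zz X) (n + a X) * FF (zz X) (n + b X) * ∏ h ∈ T X, Fb (zz X) (n + h)) / (X * √(log X) ^ k))
      (θ := fun X => (rho (zz X) (m1 X) / r0 X) ^ m) (θ' := fun _ => 1)
      (e := fun X => m * (r0 X ^ m * log X ^ 6 * (1 / log X ^ a₀) / √(log X) ^ k)) (by
      filter_upwards [hτ', mem, sp, l1, x0, six, (wsand a₀).filter_mono hg, PB] with X c d s l h5 r h2 pb
      have X0 : (0 : ℝ) < X := by exact_mod_cast h5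
      have l0 : 0 < log X := by linarith
      have r0' := r.2.2.1
      have := h2 (T X) (fun h hh => s.1 h (d.2.2 hh))
        (fun n => FF (zz X) (n + a X) * FF (zz X) (n + b X)) (log X ^ 6) (by positivity) fun n hn => by
          obtain ⟨u, -⟩ := pb 0 _ _ (s.1 _ d.1) (s.1 _ d.2.1) n hn
          exact ⟨u.1, u.2.trans r.1⟩
      rw [c.2.2.2.2.1] at this
      have p : 0 ≤ (X * √(log X) ^ k)⁻¹ := by positivity
      have u1 := mul_le_mul_of_nonneg_right this.1 p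
      have u2 := mul_le_mul_of_nonneg_right this.2 p
      exact ⟨(le_of_eq (by rw [div_pow]; field_simp)).trans (u1.trans (le_of_eq (by ring))),
        (le_of_eq (by ring)).trans (u2.trans (le_of_eq (by ring)))⟩)
    (by simpa using (rho_tendsto.mono_left hg).pow m) tendsto_const_nhds (by
      refine squeeze_zero' ?_ ?_ (by simpa using e3.const_mul (m : ℝ))
      · filter_upwards [six, l1] with X r l
        have := r.2.2.1
        positivity
      · filter_upwards [six, l1] with X r l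
        have := r.2.2.1
        have s : 1 ≤ √(log X) ^ k := one_le_pow₀ (one_le_sqrt.2 l)
        refine mul_le_mul_of_nonneg_left ((div_le_self (by positivity) s).trans ?_) m.cast_nonneg
        rw [one_div]
        gcongr
        calc _ ≤ (log X ^ 3) ^ m * log X ^ 6 := by gcongr; exact r.2.2.2
          _ = _ := by rw [hk]; ring)).2 s2
  have s4 := moveW hw s3 (g := fun X => (∑ n ∈ Ioc (X : ℤ) (2 * X),
      FF (zz X) (n + a X) * FF (zz X) (n + b X) * ∏ h ∈ T X, MM j' A X (n + h)) / (X * √(log X) ^ k)) (by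
      filter_upwards [hτ', hH', mem, sp, fin, l1, PB, hr.filter_mono hg,
        (MM_FbW m a₀ A j' hA' hr).filter_mono hg] with X c d d' s f l pb r h2
      have := h2 (H X) (T X) d'.2.2 d.1 c.2.2.2.2.1 s.1 s.2.2
        (fun n => FF (zz X) (n + a X) * FF (zz X) (n + b X)) fun n hn => by
          obtain ⟨u, -, v⟩ := pb (alp a₀ X) _ _ (s.1 _ d'.1) (s.1 _ d'.2.1) n hn
          refine ⟨u.1, u.2.trans (pow_le_pow_left₀ (by linarith) r 2), fun e h hh h' => ?_⟩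
          have q : AA (zz X) (alp a₀ X) (n + a X) ∧ AA (zz X) (alp a₀ X) (n + b X) :=
            by_contra fun o => e (v o).1
          rw [c.1] at hh
          rcases mem_insert.1 hh with rfl | hh
          · exact q.1
          rcases mem_insert.1 hh with rfl | hh
          · exact q.2
          · exact absurd hh h'
      rw [← sub_div, abs_div, abs_of_nonneg (by positivity : 0 ≤ X * √(log X) ^ k)]
      exact f _ _ _ _ (by positivity) this) (z j' (2 ^ m) (2 ^ m * 10 ^ (j' * m) + m))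
  have t6 := moveW hw s4 (g := fun X => (∑ n ∈ Ioc (X : ℤ) (2 * X), ∏ h ∈ H X, FF (zz X) (n + h)) /
      (X * √(log X) ^ k)) (e := fun X => (√(log X) ^ k)⁻¹) (by
      filter_upwards [hτ', l1, x0] with X c l h5
      have X0 : (0 : ℝ) < X := by exact_mod_cast h5
      have l0 : 0 < log X := by linarith
      obtain ⟨c1, c2, c3, c4, -, -, c5⟩ := c
      rw [← sub_div, abs_div, abs_of_pos (by positivity : 0 < X * √(log X) ^ k),
        div_le_iff₀ (by positivity), abs_sub_comm, ← sum_sub_distrib, c1]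
      simp only [prod_insert (show a X ∉ insert (b X) (T X) by simp [c2, c3]), prod_insert c4,
        ← mul_assoc, ← mul_sub]
      exact c5.trans (le_of_eq (by field_simp)))
    (zero_wL hw (((tendsto_pow_atTop k0).comp (tendsto_sqrt_atTop.comp tl)).inv_tendsto_atTop.mono_left
      hg))
  have t7 := (sandW hw (((FF_ineq k a₀).filter_mono hg).mp ((hH.and sp).mono fun X a b =>
    b _ a.1.1 a.2.1)) (by simpa using ((th_zero.mono_left hg).const_sub 1).pow k)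
    (by simpa using (((tinv.mono_left hg).const_mul 2).const_add 1).pow k) (by
      have := ((er_zero hA (f := fun X => √(log X)) ((tl.eventually_ge_atTop 1).mono fun X a =>
        ⟨sqrt_nonneg _, (sqrt_le_self_iff.2 (.inr a)).trans
          (le_self_pow₀ a (by norm_num))⟩)).mono_left hg).const_mul (k : ℝ)
      rw [mul_zero] at this
      exact this.congr fun X => by ring)).1 t6
  have := t7.sub (ty.const_mul (K ^ k))
  rw [sub_self] at this
  exact this.congr fun X => by ring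

theorem block2 {m k a₀ A : ℕ} (j j' : ℕ) (hk : k = m + 2) (hA : 3 * k + 1 ≤ a₀) (hA' : a₀ ≤ A) {K : ℝ}
    (K0 : 0 < K)
    (hK : Tendsto (fun X : ℕ => ct X S2 * √(log X) / X) atTop (𝓝 K)) {ε : ℝ} (hε : 0 < ε) :
    ∀ᶠ X : ℕ in atTop, ∀ H, Good2 m a₀ j j' A X H → 0 ≤ SK δ k H ∧
      |ct X (fun n => ∀ h ∈ H, S2 (n + h)) * √(log X) ^ k / X - K ^ k * SK δ k H| ≤
        ε * (1 + SK δ k H) := by
  by_contra c
  rw [not_eventually] at c
  obtain ⟨g, hg, hb⟩ := exists_ultrafilter_iff.2 (frequently_iff_neBot.1 c) |>.imp fun g h =>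
    le_inf_iff.1 h
  rw [le_principal_iff] at hb
  have : ∀ X : ℕ, ∃ H, (¬ ∀ H, Good2 m a₀ j j' A X H → 0 ≤ SK δ k H ∧
      |ct X (fun n => ∀ h ∈ H, S2 (n + h)) * √(log X) ^ k / X - K ^ k * SK δ k H| ≤
        ε * (1 + SK δ k H)) → Good2 m a₀ j j' A X H ∧ ¬ (0 ≤ SK δ k H ∧
      |ct X (fun n => ∀ h ∈ H, S2 (n + h)) * √(log X) ^ k / X - K ^ k * SK δ k H| ≤
        ε * (1 + SK δ k H)) := fun X => by
    by_contra d
    push Not at d
    obtain ⟨⟨H, h1, h2⟩, -⟩ := d ∅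
    obtain ⟨h3, h4⟩ := (d H).2 h1
    exact absurd h4 (not_le.2 (h2 h3))
  choose H hH using this
  have hb' : ∀ᶠ X in (g : Filter ℕ), _ := mem_of_superset hb fun X a => hH X a
  obtain ⟨a, b⟩ := chain2 hδ j j' hk hA hA' K0 hK g hg H (hb'.mono fun X a => a.1)
  obtain ⟨X, ⟨c1, c2⟩, c3⟩ := ((a.and (Metric.tendsto_nhds.1 b ε hε)).and hb').exists
  refine c3.2 ⟨c1, ?_⟩
  rw [dist_zero_right, norm_eq_abs, abs_mul, abs_of_pos (by positivity : 0 < (1 + SK δ k (H X))⁻¹),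
    ← div_eq_mul_inv, div_lt_iff₀ (by positivity)] at c2
  exact c2.le

theorem two_fixed (m C : ℕ) : ∃ B : ℕ, ∀ A : ℕ, ∀ {K : ℝ}, 0 < K →
    Tendsto (fun X : ℕ => TT S2 X / X * √(log X)) atTop (𝓝 K) → ∀ {ε : ℝ}, 0 < ε →
    ∀ᶠ x : ℝ in atTop, ∀ a b : ℤ, a ≠ b → |(a : ℝ)| ≤ log x ^ A → |(b : ℝ)| ≤ log x ^ A →
      ∀ L : ℕ, log x ^ B ≤ L → L ≤ log x ^ A →
      (({T : Finset ℤ | T ⊆ Icc (1 : ℤ) L ∧ T.card = m ∧ a ∉ T ∧ b ∉ T ∧
        ε * ((1 + SK δ (m + 2) (insert a (insert b T))) * (K / √(log x)) ^ (m + 2)) <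
          |TT (fun n => ∀ h ∈ insert a (insert b T), S2 (n + h)) ⌊x⌋₊ / x -
            SK δ (m + 2) (insert a (insert b T)) * (K / √(log x)) ^ (m + 2)|}.ncard : ℕ)
        : ℝ) ≤ L ^ m / log x ^ C := by
  obtain ⟨B, A₀, hB⟩ := scale_bad m (3 * (m + 2) + 1) (C + 2)
  refine ⟨B, fun A K K0 hK ε hε => ?_⟩
  obtain ⟨A', hA, hA1, hA2⟩ : ∃ A', 2 * A ≤ A' ∧ A₀ ≤ A' ∧ 3 * (m + 2) + 1 ≤ A' :=
    ⟨2 * A + A₀ + (3 * (m + 2) + 1), by omega, by omega, by omega⟩
  obtain ⟨j, j', hj⟩ := hB A' hA1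
  generalize ha : 3 * (m + 2) + 1 = a₀ at *
  obtain ⟨N₀, hN⟩ := eventually_atTop.1 (hj.and (tl.eventually_ge_atTop 2))
  filter_upwards [init_G (δ := δ) K0 hK (Good2 m a₀ j j' A')
    (fun h _ e => block2 hδ j j' rfl ha.le hA2 K0 h e) hε,
    tendsto_sqrt_atTop.eventually_ge_atTop (N₀ : ℝ), eventually_gt_atTop 1,
    tendsto_log_atTop.eventually_ge_atTop (2 ^ (C + 4))] with x h1 x1 x2 x3 a b hab a1 b1 L L1 L2
  have x0 : 0 < x := by linarith
  have l0 : 0 < log x := log_pos x2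
  have s0 : 0 < √x := sqrt_pos.2 x0
  have sc : ∀ i, ⌈√x⌉₊ ≤ ⌊x⌋₊ / 2 ^ (i + 1) → N₀ ≤ ⌊x⌋₊ / 2 ^ (i + 1) ∧
      log x ≤ 2 * log (⌊x⌋₊ / 2 ^ (i + 1) : ℕ) ∧ log (⌊x⌋₊ / 2 ^ (i + 1) : ℕ) ≤ log x ∧
      log x ^ A ≤ log (⌊x⌋₊ / 2 ^ (i + 1) : ℕ) ^ A' := fun i h => by
    have a : ((⌊x⌋₊ / 2 ^ (i + 1) : ℕ) : ℝ) ≤ x :=
      le_trans (by exact_mod_cast Nat.div_le_self _ _) (Nat.floor_le x0.le)
    generalize ⌊x⌋₊ / 2 ^ (i + 1) = N at a h
    have b := Nat.ceil_le.1 h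
    have c : N₀ ≤ N := by exact_mod_cast x1.trans b
    have d := log_le_log s0 b
    have e := (hN N c).2
    rw [log_sqrt x0.le] at d
    refine ⟨c, by linarith, log_le_log (by linarith) a, le_trans ?_
      (pow_le_pow_right₀ (by linarith) hA)⟩
    rw [pow_mul]
    exact pow_le_pow_left₀ l0.le (by
      linarith [mul_le_mul_of_nonneg_right e (show 0 ≤ log (N : ℝ) by linarith), sq (log (N : ℝ))]) A
  let bd : ℕ → Finset (Fin m → ℤ) := fun X =>
    (Fintype.piFinset fun _ : Fin m => Icc (1 : ℤ) L).filter fun h =>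
      X / log X ^ a₀ < |∑ n ∈ Ioc (X : ℤ) (2 * X), Dp j A' X a b n *
        ∏ i, nm (zz X) (alp a₀ X) ⌊log X ^ (a₀ + 1)⌋₊ (n + h i)| ∨
      (X : ℝ) < |∑ n ∈ Ioc (X : ℤ) (2 * X), FF (zz X) (n + a) * FF (zz X) (n + b) *
        (∏ i, FF (zz X) (n + h i) - ∏ i, MM j' A' X (n + h i))|
  let I := (range ⌊2 * log x⌋₊).filter fun i => ⌈√x⌉₊ ≤ ⌊x⌋₊ / 2 ^ (i + 1)
  refine le_trans (b := (((I.biUnion fun i => bd (⌊x⌋₊ / 2 ^ (i + 1))).image
    fun h => univ.image h).card : ℝ)) ?_ ?_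
  · rw [Nat.cast_le, ← Set.ncard_coe_finset]
    refine Set.ncard_le_ncard (fun T hT => ?_) (finite_toSet _)
    obtain ⟨t1, t2, t3, t4, c⟩ := hT
    by_contra d
    have e := image_orderEmbOfFin_univ T t2
    have inj : Set.InjOn (T.orderEmbOfFin t2) (univ : Finset (Fin m)) :=
      (T.orderEmbOfFin t2).injective.injOn
    refine absurd c (not_lt.2 (h1 _ fun i hi => ⟨?_, fun h hh => le_trans ?_ (sc i hi).2.2.2,
      (a, b, T), rfl, hab, t3, t4, t2, not_or.1 (fun f => ?_) |>.imp not_lt.1 not_lt.1⟩))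
    · rw [card_insert_of_notMem (by simp [hab, t3]), card_insert_of_notMem t4, t2]
    · rcases mem_insert.1 hh with rfl | hh
      · exact a1
      rcases mem_insert.1 hh with rfl | hh
      · exact b1
      have := mem_Icc.1 (t1 hh)
      rw [abs_of_nonneg (by exact_mod_cast (by omega : 0 ≤ h))]
      exact le_trans (by exact_mod_cast this.2) L2
    · refine d (mem_coe.2 (mem_image.2 ⟨T.orderEmbOfFin t2, mem_biUnion.2 ⟨i, mem_filter.2
        ⟨mem_range.2 (Nat.lt_of_succ_le (Nat.le_floor ?_)), hi⟩, mem_filter.2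
        ⟨Fintype.mem_piFinset.2 fun t => t1 (orderEmbOfFin_mem T t2 t), ?_⟩⟩, e⟩))
      · have g : 2 ^ (i + 1) ≤ ⌊x⌋₊ := by
          have := (Nat.ceil_pos.2 s0).trans_le hi
          exact (Nat.div_pos_iff.1 this).2
        have := log_le_log (by positivity) ((Nat.le_floor_iff x0.le).1 g)
        rw [Nat.cast_pow, log_pow] at this
        have := (i + 1).cast_nonneg (α := ℝ)
        push_cast at *
        linarith [mul_le_mul_of_nonneg_left log_two_gt_d9.le this]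
      · dsimp only at f
        rw [← e] at f
        simp only [prod_image inj] at f
        exact f
  · refine le_trans (b := ∑ i ∈ I, ((bd (⌊x⌋₊ / 2 ^ (i + 1))).card : ℝ))
      (by exact_mod_cast card_image_le.trans card_biUnion_le) ?_
    refine (sum_le_card_nsmul _ _ (2 * ((L : ℝ) ^ m / (log x / 2) ^ (C + 2))) fun i hi => ?_).trans ?_
    · obtain ⟨u, v, c, d⟩ := sc i (mem_filter.1 hi).2
      have e := hN _ u
      refine (e.1 a b hab (a1.trans d) (b1.trans d) L (le_trans ?_ L1) (L2.trans d)).trans ?_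
      · exact pow_le_pow_left₀ (by linarith [e.2]) c _
      · gcongr
        linarith
    · have : (I.card : ℝ) ≤ 2 * log x := le_trans (by
        exact_mod_cast (card_filter_le _ _).trans (card_range _).le) (Nat.floor_le (by positivity))
      rw [nsmul_eq_mul]
      calc _ ≤ 2 * log x * (2 * ((L : ℝ) ^ m / (log x / 2) ^ (C + 2))) := by gcongr
        _ = L ^ m / log x ^ C * (2 ^ (C + 4) / log x) := by rw [div_pow]; field_simp; ring
        _ ≤ _ := mul_le_of_le_one_right (by positivity) ((div_le_one l0).2 x3)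

end

end Pool.Agent.Work.MP_678620_nt.TA
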